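import Pool.Agent.Y320.CM.Fin

set_option autoImplicit false
open Filter Topology

namespace Pool.Agent.Y367.RC

open Pool.Agent.Y320.CM

/-- the properties of the action used in the proof -/
structure RAct (G : Type) [Group G] (τ : G → Sph → Sph) : Prop where
  one : ∀ x, τ 1 x = x
  mul : ∀ g h x, τ (g * h) x = τ g (τ h x)
  cont : ∀ g, Continuous (τ g)
  contr : ∀ (A : Finset Sph) (U : Set Sph), IsOpen U → U.Nonempty → ∃ g, ∀ a ∈ A, τ g a ∈ U
  prop : ∀ a b e : Sph, a ≠ b → a ≠ e → b ≠ e → ∀ c : ℝ, 0 < c →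
    {g : G | c ≤ dist (τ g a) (τ g b) ∧ c ≤ dist (τ g a) (τ g e) ∧
      c ≤ dist (τ g b) (τ g e)}.Finite

theorem tau_inj {G : Type} [Group G] {τ : G → Sph → Sph} (h1 : ∀ x, τ 1 x = x)
    (h2 : ∀ g h x, τ (g * h) x = τ g (τ h x)) (g : G) : Function.Injective (τ g) := by
  intro a b h
  have := congrArg (τ g⁻¹) h
  rwa [← h2, ← h2, inv_mul_cancel, h1, h1] at this

end Pool.Agent.Y367.RC
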