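import Pool.Agent.Y852.ST.A
import Pool.Agent.Y367.RC.Act

/-!
# The invariant measurable conformal structure

The proofs of this file are those of `Pool.Agent.Y852.ST.B` and `Pool.Agent.Y852.ST.Str`, with
`Act` replaced by `RAct`.
-/

set_option autoImplicit false
open Filter Topology MeasureTheory Metric

namespace Pool.Agent.Y367.RC.S
open Pool.Agent.Y852.ST Pool.Agent.Y320.ST Pool.Agent.Y367.RC
open Pool.Agent.Y320.CM hiding tau_inj cont_caseA exists_scale cont_caseB coord_of_point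

variable {G : Type} [Group G] (τ : G → Sph → Sph)

/-- the derivative of the planar version of `τ g` -/
noncomputable def Dg (g : G) (z : ℂ) : ℂ →L[ℝ] ℂ := fderiv ℝ (pl (τ g)) z

/-- the good points -/
def Good (K : ℝ) : Set ℂ := {z | ∀ g, τ g (sg z) ≠ inf ∧ DifferentiableAt ℝ (pl (τ g)) z ∧
  (Dg τ g z).det ≠ 0 ∧ ‖Dg τ g z‖ ^ 2 ≤ K * |(Dg τ g z).det|}

/-- the unit ball of the invariant norm -/
def EE (z : ℂ) : Set ℂ := {v | ∀ g, ‖Dg τ g z v‖ ^ 2 ≤ |(Dg τ g z).det|}

/-- the action of one group element, as a homeomorphism -/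
noncomputable def hom (hA : RAct G τ) (g : G) : Sph ≃ₜ Sph where
  toFun := τ g
  invFun := τ g⁻¹
  left_inv x := by rw [← hA.mul, inv_mul_cancel, hA.one]
  right_inv x := by rw [← hA.mul, mul_inv_cancel, hA.one]
  continuous_toFun := hA.cont g
  continuous_invFun := hA.cont g⁻¹

theorem good_ae (hS : S_STB) (hR : S_ROT) (hD : S_DIFF) (hN : S_NZ) (hA : RAct G τ) [Countable G]
    (N : ℝ → ℝ) (hq : ∀ g, QM N (τ g)) : ∃ K : ℝ, 1 ≤ K ∧ ∀ᵐ z : ℂ, z ∈ Good τ K := by
  obtain ⟨K, hK1, hK⟩ := ae_one hS hR hD hN N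
  refine ⟨K, hK1, ?_⟩
  have h : ∀ g : G, ∀ᵐ z : ℂ, τ g (sg z) ≠ inf ∧ DifferentiableAt ℝ (pl (τ g)) z ∧
      (Dg τ g z).det ≠ 0 ∧ ‖Dg τ g z‖ ^ 2 ≤ K * |(Dg τ g z).det| := by
    intro g
    exact hK (hom τ hA g) (hq g) (hq g⁻¹)
  exact ae_all_iff.2 h

theorem pl_cont (hS : S_STB) (f : Sph → Sph) (hf : Continuous f) (w : ℂ) (hw : f (sg w) ≠ inf) :
    ContinuousAt (pl f) w := by
  obtain ⟨s1, s2, s3, s4, s5, -⟩ := hS
  have h1 : ContinuousAt st (f (sg w)) :=
    s5.continuousAt (isOpen_compl_singleton.mem_nhds hw)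
  have h2 : ContinuousAt (fun w => f (sg w)) w := (hf.comp s4).continuousAt
  exact ContinuousAt.comp (g := st) (f := fun w => f (sg w)) h1 h2

theorem pl_near (hS : S_STB) (f : Sph → Sph) (hf : Continuous f) (w : ℂ) (hw : f (sg w) ≠ inf) :
    ∀ᶠ y in 𝓝 w, sg (pl f y) = f (sg y) := by
  obtain ⟨s1, s2, s3, s4, s5, -⟩ := hS
  have h1 : ∀ᶠ y in 𝓝 w, f (sg y) ≠ inf :=
    ((hf.comp s4).continuousAt).eventually (isOpen_compl_singleton.mem_nhds hw)
  filter_upwards [h1] with y hy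
  exact s2 _ hy

theorem step (hS : S_STB) (hA : RAct G τ) (K : ℝ) (hK : 0 ≤ K) (z : ℂ) (hz : z ∈ Good τ K) (γ : G) :
    pl (τ γ) z ∈ Good τ (K ^ 2) ∧
      ∀ h, Dg τ (h * γ) z = (Dg τ h (pl (τ γ) z)).comp (Dg τ γ z) := by
  obtain ⟨g1, g2, g3, g4⟩ := hz γ
  set w := pl (τ γ) z with hw
  have hsw : sg w = τ γ (sg z) := hS.2.1 _ g1
  have hzw : τ γ⁻¹ (sg w) = sg z := by
    rw [hsw, ← hA.mul, inv_mul_cancel, hA.one]
  have hzn : τ γ⁻¹ (sg w) ≠ inf := by rw [hzw]; exact hS.2.2.1 z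
  have hpz : pl (τ γ⁻¹) w = z := by
    show st (τ γ⁻¹ (sg w)) = z
    rw [hzw, hS.1]
  let A : ℂ ≃L[ℝ] ℂ := (Dg τ γ z).toContinuousLinearEquivOfDetNeZero g3
  have hAeq : (A : ℂ →L[ℝ] ℂ) = Dg τ γ z := by
    ext v
    rfl
  have hinv : HasFDerivAt (pl (τ γ⁻¹)) (A.symm : ℂ →L[ℝ] ℂ) w := by
    refine HasFDerivAt.of_local_left_inverse (f := pl (τ γ)) (pl_cont hS _ (hA.cont _) w hzn) ?_ ?_
    · rw [hpz, hAeq]
      exact g2.hasFDerivAt
    · filter_upwards [pl_near hS _ (hA.cont _) w hzn] with y hy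
      show st (τ γ (sg (pl (τ γ⁻¹) y))) = y
      rw [hy, ← hA.mul, mul_inv_cancel, hA.one, hS.1]
  have hfd : ∀ h, HasFDerivAt (pl (τ h)) ((Dg τ (h * γ) z).comp (A.symm : ℂ →L[ℝ] ℂ)) w := by
    intro h
    have h1 : HasFDerivAt (pl (τ (h * γ))) (Dg τ (h * γ) z) (pl (τ γ⁻¹) w) := by
      rw [hpz]
      exact (hz (h * γ)).2.1.hasFDerivAt
    have h2 := h1.comp w hinv
    refine h2.congr_of_eventuallyEq ?_
    filter_upwards [pl_near hS _ (hA.cont _) w hzn] with y hy
    show st (τ h (sg y)) = st (τ (h * γ) (sg (pl (τ γ⁻¹) y)))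
    rw [hy, ← hA.mul, mul_assoc, mul_inv_cancel, mul_one]
  have hD : ∀ h, Dg τ h w = (Dg τ (h * γ) z).comp (A.symm : ℂ →L[ℝ] ℂ) := fun h => (hfd h).fderiv
  have hcomp : ∀ h, Dg τ (h * γ) z = (Dg τ h w).comp (Dg τ γ z) := by
    intro h
    rw [hD h, ← hAeq]
    ext
    simp
  refine ⟨?_, hcomp⟩
  intro h
  obtain ⟨k1, k2, k3, k4⟩ := hz (h * γ)
  have hdet : (Dg τ (h * γ) z).det = (Dg τ h w).det * (Dg τ γ z).det := by
    rw [hcomp h, det_comp]
  refine ⟨?_, (hfd h).differentiableAt, ?_, ?_⟩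
  · rw [hsw, ← hA.mul]; exact k1
  · intro h0
    rw [h0, zero_mul] at hdet
    exact k3 hdet
  · set D := Dg τ (h * γ) z
    set T := Dg τ γ z
    have hT : 0 < |T.det| := abs_pos.2 g3
    have hM0 : 0 ≤ ‖D‖ * ‖T‖ / |T.det| := by positivity
    have hle : ‖Dg τ h w‖ ≤ ‖D‖ * ‖T‖ / |T.det| := by
      refine ContinuousLinearMap.opNorm_le_bound _ hM0 ?_
      intro v
      have e1 : v = T (A.symm v) := by
        have := A.apply_symm_apply v
        rw [← hAeq]
        exact this.symm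
      have e2 : Dg τ h w v = D (A.symm v) := by
        rw [hD h]; rfl
      have e3 := det_low T (A.symm v)
      rw [← e1] at e3
      rw [e2]
      calc ‖D (A.symm v)‖ ≤ ‖D‖ * ‖A.symm v‖ := D.le_opNorm _
        _ ≤ ‖D‖ * (‖T‖ * ‖v‖ / |T.det|) := by
          apply mul_le_mul_of_nonneg_left _ (norm_nonneg _)
          rw [le_div_iff₀ hT, mul_comm]
          exact e3
        _ = _ := by ring
    calc ‖Dg τ h w‖ ^ 2 ≤ (‖D‖ * ‖T‖ / |T.det|) ^ 2 :=
          pow_le_pow_left₀ (norm_nonneg _) hle 2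
      _ = (‖D‖ ^ 2) * (‖T‖ ^ 2) / |T.det| ^ 2 := by ring
      _ ≤ (K * |D.det|) * (K * |T.det|) / |T.det| ^ 2 := by
          apply div_le_div_of_nonneg_right _ (by positivity)
          exact mul_le_mul k4 g4 (by positivity) (by positivity)
      _ = K ^ 2 * |(Dg τ h w).det| := by
          rw [hdet, abs_mul]
          field_simp

/-! ## measurability -/

theorem meas_app (f : ℂ → ℂ) (v : ℂ) : Measurable fun z => fderiv ℝ f z v :=
  measurable_fderiv_apply_const ℝ f v

theorem meas_det (f : ℂ → ℂ) : Measurable fun z => (fderiv ℝ f z).det := by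
  simp only [det_eq]
  have h1 := meas_app f 1
  have h2 := meas_app f Complex.I
  exact ((Complex.measurable_re.comp h1).mul (Complex.measurable_im.comp h2)).sub
    ((Complex.measurable_im.comp h1).mul (Complex.measurable_re.comp h2))

theorem meas_good [Countable G] (hS : S_STB) (hA : RAct G τ) (K : ℝ) :
    MeasurableSet (Good τ K) := by
  have h : Good τ K = ⋂ g, ({z | τ g (sg z) ≠ inf} ∩ ({z | DifferentiableAt ℝ (pl (τ g)) z} ∩
      ({z | (Dg τ g z).det ≠ 0} ∩ {z | ‖Dg τ g z‖ ^ 2 ≤ K * |(Dg τ g z).det|}))) := by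
    ext z
    simp only [Good, Set.mem_iInter]
    rfl
  rw [h]
  refine MeasurableSet.iInter fun g => ?_
  have hd := meas_det (pl (τ g))
  refine MeasurableSet.inter ?_ (MeasurableSet.inter ?_ (MeasurableSet.inter ?_ ?_))
  · have : IsOpen {z : ℂ | τ g (sg z) ≠ inf} :=
      isOpen_compl_singleton.preimage ((hA.cont g).comp hS.2.2.2.1)
    exact this.measurableSet
  · exact measurableSet_of_differentiableAt ℝ _
  · exact (hd (measurableSet_singleton 0)).compl
  · exact measurableSet_le ((measurable_fderiv ℝ (pl (τ g))).norm.pow_const 2)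
      ((measurable_const).mul (continuous_abs.measurable.comp hd))

omit [Group G] in
theorem meas_EE [Countable G] : MeasurableSet {p : ℂ × ℂ | p.2 ∈ EE τ p.1} := by
  have h : {p : ℂ × ℂ | p.2 ∈ EE τ p.1} =
      ⋂ g, {p | ‖Dg τ g p.1 p.2‖ ^ 2 ≤ |(Dg τ g p.1).det|} := by
    ext z
    simp only [Set.mem_iInter]
    rfl
  rw [h]
  refine MeasurableSet.iInter fun g => ?_
  have h1 : Measurable fun p : ℂ × ℂ => Dg τ g p.1 p.2 := by
    have e : (fun p : ℂ × ℂ => Dg τ g p.1 p.2) =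
        fun p => p.2.re • Dg τ g p.1 1 + p.2.im • Dg τ g p.1 Complex.I := by
      funext p
      exact app_eq _ _
    rw [e]
    exact ((Complex.measurable_re.comp measurable_snd).smul
      ((meas_app (pl (τ g)) 1).comp measurable_fst)).add
      ((Complex.measurable_im.comp measurable_snd).smul
      ((meas_app (pl (τ g)) Complex.I).comp measurable_fst))
  exact measurableSet_le (h1.norm.pow_const 2)
    (continuous_abs.measurable.comp ((meas_det (pl (τ g))).comp measurable_fst))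

theorem meas_EE' [Countable G] (z : ℂ) : MeasurableSet (EE τ z) :=
  measurable_prodMk_left (meas_EE τ) (x := z)

/-- integrals over the unit ball of the invariant norm -/
noncomputable def J (φ : ℂ → ℝ) (z : ℂ) : ℝ := ∫ v, (EE τ z).indicator φ v

theorem meas_J [Countable G] (φ : ℂ → ℝ) (hφ : Measurable φ) : Measurable (J τ φ) := by
  have h : Measurable fun p : ℂ × ℂ => (EE τ p.1).indicator φ p.2 := by
    have e : (fun p : ℂ × ℂ => (EE τ p.1).indicator φ p.2) =
        {p : ℂ × ℂ | p.2 ∈ EE τ p.1}.indicator (fun p => φ p.2) := by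
      funext p
      rfl
    rw [e]
    exact (hφ.comp measurable_snd).indicator (meas_EE τ)
  exact (h.stronglyMeasurable.integral_prod_right').measurable

/-! ## bounds -/

theorem EE_sub (hS : S_STB) (hA : RAct G τ) (z : ℂ) : EE τ z ⊆ closedBall 0 1 := by
  intro v hv
  have h := hv 1
  have h1 : pl (τ 1) = id := by
    funext y
    show st (τ 1 (sg y)) = y
    rw [hA.one, hS.1]
  have h2 : Dg τ 1 z = ContinuousLinearMap.id ℝ ℂ := by
    unfold Dg
    rw [h1]
    exact fderiv_id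
  rw [h2] at h
  have h3 : (ContinuousLinearMap.id ℝ ℂ).det = 1 := by
    rw [det_eq]; simp
  rw [h3, abs_one] at h
  have h4 : ‖v‖ ^ 2 ≤ 1 := h
  rw [mem_closedBall, dist_zero_right]
  exact (sq_le_one_iff₀ (norm_nonneg _)).1 h4

omit [Group G] in
theorem EE_sup (K : ℝ) (hK : 0 < K) (z : ℂ) (hz : z ∈ Good τ K) :
    ball 0 (√K)⁻¹ ⊆ EE τ z := by
  intro v hv g
  rw [mem_ball, dist_zero_right] at hv
  obtain ⟨-, -, -, h4⟩ := hz g
  have hs : 0 < √K := Real.sqrt_pos.2 hK
  have h1 : ‖v‖ ^ 2 ≤ K⁻¹ := by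
    calc ‖v‖ ^ 2 ≤ ((√K)⁻¹) ^ 2 := pow_le_pow_left₀ (norm_nonneg _) hv.le 2
      _ = K⁻¹ := by rw [inv_pow, Real.sq_sqrt hK.le]
  calc ‖Dg τ g z v‖ ^ 2 ≤ (‖Dg τ g z‖ * ‖v‖) ^ 2 :=
        pow_le_pow_left₀ (norm_nonneg _) ((Dg τ g z).le_opNorm v) 2
    _ = ‖Dg τ g z‖ ^ 2 * ‖v‖ ^ 2 := by ring
    _ ≤ (K * |(Dg τ g z).det|) * K⁻¹ := mul_le_mul h4 h1 (by positivity) (by positivity)
    _ = |(Dg τ g z).det| := by field_simp

theorem int_ind (s : Set ℂ) (hs : MeasurableSet s) (hb : s ⊆ closedBall 0 1) (φ : ℂ → ℝ)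
    (hφ : Continuous φ) : Integrable (s.indicator φ) := by
  rw [integrable_indicator_iff hs]
  exact (hφ.continuousOn.integrableOn_compact (isCompact_closedBall 0 1)).mono_set hb

theorem dt_cont (w : ℂ) : Continuous fun v => dt w v ^ 2 := by
  unfold dt
  fun_prop

/-- the quadratic form -/
theorem qf_J [Countable G] (hS : S_STB) (hA : RAct G τ) (z w : ℂ) :
    qf (J τ (fun v => v.im ^ 2) z) (-(J τ (fun v => v.re * v.im) z)) (J τ (fun v => v.re ^ 2) z) w
      = J τ (fun v => dt w v ^ 2) z := by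
  have hm := meas_EE' τ z
  have hb := EE_sub τ hS hA z
  have i1 := int_ind _ hm hb (fun v => v.im ^ 2) (by fun_prop)
  have i2 := int_ind _ hm hb (fun v => v.re * v.im) (by fun_prop)
  have i3 := int_ind _ hm hb (fun v => v.re ^ 2) (by fun_prop)
  unfold J qf
  rw [← integral_neg]
  have e : (fun v => (EE τ z).indicator (fun v => dt w v ^ 2) v) = fun v =>
      w.re ^ 2 * (EE τ z).indicator (fun v => v.im ^ 2) v +
      (2 * w.re * w.im) * (-((EE τ z).indicator (fun v => v.re * v.im) v)) +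
      w.im ^ 2 * (EE τ z).indicator (fun v => v.re ^ 2) v := by
    funext v
    by_cases hv : v ∈ EE τ z
    · simp only [Set.indicator_of_mem hv, dt]; ring
    · simp only [Set.indicator_of_notMem hv]; ring
  have e2 : (∫ v, (EE τ z).indicator (fun v => dt w v ^ 2) v) =
      w.re ^ 2 * (∫ v, (EE τ z).indicator (fun v => v.im ^ 2) v) +
      (2 * w.re * w.im) * (∫ v, -((EE τ z).indicator (fun v => v.re * v.im) v)) +
      w.im ^ 2 * (∫ v, (EE τ z).indicator (fun v => v.re ^ 2) v) := by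
    rw [e, integral_add, integral_add, integral_const_mul, integral_const_mul,
      integral_const_mul]
    · exact i1.const_mul _
    · exact i2.neg.const_mul _
    · exact (i1.const_mul _).add (i2.neg.const_mul _)
    · exact i3.const_mul _
  rw [e2]
  ring

theorem J_le [Countable G] (hS : S_STB) (hA : RAct G τ) (z w : ℂ) :
    J τ (fun v => dt w v ^ 2) z ≤ (volume (closedBall (0 : ℂ) 1)).toReal * ‖w‖ ^ 2 := by
  have hm := meas_EE' τ z
  have hb := EE_sub τ hS hA z
  have h1 : J τ (fun v => dt w v ^ 2) z ≤ ∫ v, (closedBall (0 : ℂ) 1).indicator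
      (fun _ => ‖w‖ ^ 2) v := by
    refine integral_mono (int_ind _ hm hb _ (dt_cont w))
      (int_ind _ measurableSet_closedBall subset_rfl _ continuous_const) ?_
    intro v
    show (EE τ z).indicator (fun v => dt w v ^ 2) v ≤ (closedBall (0 : ℂ) 1).indicator
      (fun _ => ‖w‖ ^ 2) v
    by_cases hv : v ∈ EE τ z
    · have hv1 := hb hv
      rw [Set.indicator_of_mem hv, Set.indicator_of_mem hv1]
      rw [mem_closedBall, dist_zero_right] at hv1
      calc dt w v ^ 2 ≤ ‖w‖ ^ 2 * ‖v‖ ^ 2 := dt_sq_le w v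
        _ ≤ ‖w‖ ^ 2 * 1 := by
          apply mul_le_mul_of_nonneg_left _ (by positivity)
          exact pow_le_one₀ (norm_nonneg _) hv1
        _ = _ := by ring
    · rw [Set.indicator_of_notMem hv]
      exact Set.indicator_nonneg (fun _ _ => by positivity) _
  refine h1.trans (le_of_eq ?_)
  rw [integral_indicator measurableSet_closedBall, setIntegral_const, smul_eq_mul]
  rfl

/-- the second moment of a disc -/
noncomputable def mom (r : ℝ) : ℝ := ∫ v, (ball (0 : ℂ) r).indicator (fun v => v.im ^ 2) v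

theorem mom_pos (r : ℝ) (hr : 0 < r) : 0 < mom r := by
  unfold mom
  rw [integral_indicator measurableSet_ball]
  have hint : IntegrableOn (fun v : ℂ => v.im ^ 2) (ball 0 r) := by
    have hc : Continuous fun v : ℂ => v.im ^ 2 := by fun_prop
    exact (hc.continuousOn.integrableOn_compact (isCompact_closedBall 0 r)).mono_set
      ball_subset_closedBall
  rw [setIntegral_pos_iff_support_of_nonneg_ae _ hint]
  · have h1 : ball ((r / 2 : ℝ) * Complex.I) (r / 4) ⊆
        Function.support (fun v : ℂ => v.im ^ 2) ∩ ball 0 r := by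
      intro v hv
      rw [mem_ball, dist_eq_norm] at hv
      have h2 : |(v - (r / 2 : ℝ) * Complex.I).im| < r / 4 :=
        (Complex.abs_im_le_norm _).trans_lt hv
      have h3 : (v - (r / 2 : ℝ) * Complex.I).im = v.im - r / 2 := by
        simp only [Complex.sub_im, Complex.mul_im, Complex.ofReal_re, Complex.ofReal_im,
          Complex.I_re, Complex.I_im]
        ring
      rw [h3, abs_lt] at h2
      refine ⟨?_, ?_⟩
      · have : 0 < v.im := by linarith [h2.1]
        show v.im ^ 2 ≠ 0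
        positivity
      · rw [mem_ball, dist_zero_right]
        have h4 : ‖((r / 2 : ℝ) : ℂ) * Complex.I‖ = r / 2 := by
          rw [norm_mul, Complex.norm_I, Complex.norm_real, Real.norm_eq_abs,
            abs_of_pos (by linarith)]
          ring
        have h5 : ‖v‖ ≤ ‖v - ((r / 2 : ℝ) : ℂ) * Complex.I‖ + ‖((r / 2 : ℝ) : ℂ) * Complex.I‖ := by
          have := norm_add_le (v - ((r / 2 : ℝ) : ℂ) * Complex.I) (((r / 2 : ℝ) : ℂ) * Complex.I)
          rwa [sub_add_cancel] at this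
        rw [h4] at h5
        linarith
    exact lt_of_lt_of_le (measure_ball_pos volume _ (by linarith)) (measure_mono h1)
  · exact Eventually.of_forall fun v => sq_nonneg _

theorem mom_rot (r : ℝ) (w : ℂ) :
    ∫ v, (ball (0 : ℂ) r).indicator (fun v => dt w v ^ 2) v = ‖w‖ ^ 2 * mom r := by
  by_cases hw : w = 0
  · subst hw
    simp [dt]
  have hn : 0 < ‖w‖ := norm_pos_iff.2 hw
  obtain ⟨u, hu⟩ : ∃ u : Circle, w = ‖w‖ * (u : ℂ) := by
    have h1 : ‖w / ‖w‖‖ = 1 := by
      rw [norm_div, Complex.norm_real, norm_norm, div_self hn.ne']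
    refine ⟨⟨w / ‖w‖, mem_sphere_zero_iff_norm.2 h1⟩, ?_⟩
    have : (‖w‖ : ℂ) ≠ 0 := by exact_mod_cast hn.ne'
    show w = ‖w‖ * (w / ‖w‖)
    field_simp
  have hmp := (rotation u).measurePreserving
  rw [← hmp.integral_comp (rotation u).toHomeomorph.measurableEmbedding]
  unfold mom
  rw [← integral_const_mul]
  congr 1
  funext v
  have h0 : (rotation u) v = (u : ℂ) * v := rotation_apply u v
  have h1 : ‖(rotation u) v‖ = ‖v‖ := LinearIsometryEquiv.norm_map _ _
  by_cases hv : v ∈ ball (0 : ℂ) r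
  · have hv2 : (rotation u) v ∈ ball (0 : ℂ) r := by
      rw [mem_ball, dist_zero_right, h1]
      rwa [mem_ball, dist_zero_right] at hv
    rw [Set.indicator_of_mem hv, Set.indicator_of_mem hv2, h0]
    have h2 : ((u : ℂ).re) ^ 2 + ((u : ℂ).im) ^ 2 = 1 := by
      rw [← norm_sq_eq, Circle.norm_coe]; norm_num
    have h3 : dt w (u * v) = ‖w‖ * v.im := by
      have hre : w.re = ‖w‖ * (u : ℂ).re := by
        conv_lhs => rw [hu]
        rw [Complex.re_ofReal_mul]
      have him : w.im = ‖w‖ * (u : ℂ).im := by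
        conv_lhs => rw [hu]
        rw [Complex.im_ofReal_mul]
      unfold dt
      rw [hre, him, Complex.mul_re, Complex.mul_im]
      linear_combination (‖w‖ * v.im) * h2
    rw [h3]
    ring
  · have hv2 : (rotation u) v ∉ ball (0 : ℂ) r := by
      rw [mem_ball, dist_zero_right, h1]
      rwa [mem_ball, dist_zero_right] at hv
    rw [Set.indicator_of_notMem hv, Set.indicator_of_notMem hv2]
    ring

theorem J_ge [Countable G] (hS : S_STB) (hA : RAct G τ) (K : ℝ) (hK : 1 ≤ K) (z : ℂ)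
    (hz : z ∈ Good τ K) (w : ℂ) :
    mom (√K)⁻¹ * ‖w‖ ^ 2 ≤ J τ (fun v => dt w v ^ 2) z := by
  rw [mul_comm, ← mom_rot]
  have hm := meas_EE' τ z
  have hb := EE_sub τ hS hA z
  have hs := EE_sup τ K (by linarith) z hz
  refine integral_mono (int_ind _ measurableSet_ball (hs.trans hb) _ (dt_cont w))
    (int_ind _ hm hb _ (dt_cont w)) ?_
  intro v
  exact Set.indicator_le_indicator_of_subset hs (fun _ => sq_nonneg _) v

/-! ## invariance -/

theorem J_inv [Countable G] (hS : S_STB) (hA : RAct G τ) (K : ℝ) (hK : 0 ≤ K) (z : ℂ)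
    (hz : z ∈ Good τ K) (γ : G) (w : ℂ) :
    J τ (fun v => dt (Dg τ γ z w) v ^ 2) (pl (τ γ) z) =
      |(Dg τ γ z).det| * J τ (fun v => dt w v ^ 2) z := by
  obtain ⟨-, hcomp⟩ := step τ hS hA K hK z hz γ
  obtain ⟨-, -, g3, -⟩ := hz γ
  set A := Dg τ γ z with hA0
  have hpos : 0 < |A.det| := abs_pos.2 g3
  set c : ℝ := (√|A.det|)⁻¹ with hc
  have hc2 : c ^ 2 = |A.det|⁻¹ := by rw [hc, inv_pow, Real.sq_sqrt hpos.le]
  have hc0 : c ≠ 0 := by
    intro h0
    rw [h0] at hc2
    have : |A.det|⁻¹ ≠ 0 := inv_ne_zero hpos.ne'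
    apply this
    rw [← hc2]; ring
  have hMdet : (c • A).det = c ^ 2 * A.det := by
    rw [det_eq, det_eq]
    have h : ∀ v, (c • A) v = c • A v := fun v => rfl
    rw [h, h]
    simp only [Complex.smul_re, Complex.smul_im, smul_eq_mul]
    ring
  have hMabs : |(c • A).det| = 1 := by
    rw [hMdet, abs_mul, abs_of_nonneg (sq_nonneg c), hc2]
    exact inv_mul_cancel₀ hpos.ne'
  have hMne : (c • A).det ≠ 0 := by
    intro h0
    rw [h0, abs_zero] at hMabs
    exact zero_ne_one hMabs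
  have hmp : MeasurePreserving (c • A) volume volume := by
    refine ⟨(c • A).continuous.measurable, ?_⟩
    have h1 := Measure.map_linearMap_addHaar_eq_smul_addHaar (volume : Measure ℂ)
      (f := ((c • A : ℂ →L[ℝ] ℂ) : ℂ →ₗ[ℝ] ℂ)) hMne
    have h2 : |(LinearMap.det ((c • A : ℂ →L[ℝ] ℂ) : ℂ →ₗ[ℝ] ℂ))⁻¹| = 1 := by
      rw [abs_inv]
      have : |LinearMap.det ((c • A : ℂ →L[ℝ] ℂ) : ℂ →ₗ[ℝ] ℂ)| = 1 := hMabs
      rw [this, inv_one]
    rw [h2, ENNReal.ofReal_one, one_smul] at h1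
    exact h1
  have hemb : MeasurableEmbedding (c • A) := by
    have h1 := ((c • A).toContinuousLinearEquivOfDetNeZero hMne).toHomeomorph.measurableEmbedding
    exact h1
  unfold J
  rw [← hmp.integral_comp hemb, ← integral_const_mul]
  congr 1
  funext v
  have hiff : (c • A) v ∈ EE τ (pl (τ γ) z) ↔ v ∈ EE τ z := by
    have key : ∀ h, (‖Dg τ h (pl (τ γ) z) ((c • A) v)‖ ^ 2 ≤ |(Dg τ h (pl (τ γ) z)).det|) ↔
        ‖Dg τ (h * γ) z v‖ ^ 2 ≤ |(Dg τ (h * γ) z).det| := by
      intro h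
      have e1 : Dg τ h (pl (τ γ) z) ((c • A) v) = c • Dg τ (h * γ) z v := by
        rw [hcomp h]
        show Dg τ h (pl (τ γ) z) (c • A v) = c • Dg τ h (pl (τ γ) z) (A v)
        rw [ContinuousLinearMap.map_smul]
      have e2 : |(Dg τ (h * γ) z).det| = |(Dg τ h (pl (τ γ) z)).det| * |A.det| := by
        rw [hcomp h, det_comp, abs_mul]
      rw [e1, e2, norm_smul, mul_pow, Real.norm_eq_abs, sq_abs, hc2, inv_mul_le_iff₀ hpos,
        mul_comm |A.det|]
    constructor
    · intro hv g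
      have := (key (g * γ⁻¹)).1 (hv (g * γ⁻¹))
      rwa [inv_mul_cancel_right] at this
    · intro hv h
      exact (key h).2 (hv (h * γ))
  have hval : dt (A w) ((c • A) v) ^ 2 = |A.det| * dt w v ^ 2 := by
    have e1 : (c • A) v = c • A v := rfl
    have e2 : dt (A w) (c • A v) = c * dt (A w) (A v) := by
      simp only [dt, Complex.smul_re, Complex.smul_im, smul_eq_mul]
      ring
    rw [e1, e2, dt_map, mul_pow, hc2, mul_pow, ← sq_abs A.det]
    field_simp
  by_cases hv : v ∈ EE τ z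
  · rw [Set.indicator_of_mem hv, Set.indicator_of_mem (hiff.2 hv)]
    exact hval
  · rw [Set.indicator_of_notMem hv, Set.indicator_of_notMem (fun h => hv (hiff.1 h))]
    ring


theorem str (hS : S_STB) (hR : S_ROT) (hD : S_DIFF) (hN : S_NZ) [Countable G]
    (hA : RAct G τ) (N : ℝ → ℝ) (hq : ∀ g, QM N (τ g)) :
    ∃ (a b c : ℂ → ℝ) (C : ℝ), 0 < C ∧ Measurable a ∧ Measurable b ∧ Measurable c ∧
      (∀ z w, C⁻¹ * ‖w‖ ^ 2 ≤ qf (a z) (b z) (c z) w ∧ qf (a z) (b z) (c z) w ≤ C * ‖w‖ ^ 2) ∧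
      ∀ᵐ z : ℂ, ∀ g, τ g (sg z) ≠ inf ∧ DifferentiableAt ℝ (pl (τ g)) z ∧ ∃ κ : ℝ, 0 < κ ∧
        ∀ w, qf (a (pl (τ g) z)) (b (pl (τ g) z)) (c (pl (τ g) z)) (fderiv ℝ (pl (τ g)) z w) =
          κ * qf (a z) (b z) (c z) w := by
  obtain ⟨K, hK1, hK⟩ := good_ae τ hS hR hD hN hA N hq
  classical
  have hK0 : 0 ≤ K := by linarith
  have hKs : 1 ≤ K ^ 2 := one_le_pow₀ hK1
  set S : Set ℂ := Good τ (K ^ 2) with hSdef
  have hSm : MeasurableSet S := meas_good τ hS hA _
  set m : ℝ := mom (√(K ^ 2))⁻¹ with hm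
  have hs0 : 0 < (√(K ^ 2))⁻¹ := inv_pos.2 (Real.sqrt_pos.2 (by linarith))
  have hm0 : 0 < m := mom_pos _ hs0
  set M : ℝ := (volume (closedBall (0 : ℂ) 1)).toReal with hM
  set C : ℝ := max 1 (max M m⁻¹) with hCdef
  have hC1 : 1 ≤ C := le_max_left _ _
  have hCM : M ≤ C := (le_max_left _ _).trans (le_max_right _ _)
  have hCm : m⁻¹ ≤ C := (le_max_right _ _).trans (le_max_right _ _)
  have hC0 : 0 < C := by linarith
  have hCi : C⁻¹ ≤ m := by
    rw [inv_le_comm₀ hC0 hm0]; exact hCm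
  have hCi1 : C⁻¹ ≤ 1 := inv_le_one_of_one_le₀ hC1
  refine ⟨fun z => if z ∈ S then J τ (fun v => v.im ^ 2) z else 1,
    fun z => if z ∈ S then -(J τ (fun v => v.re * v.im) z) else 0,
    fun z => if z ∈ S then J τ (fun v => v.re ^ 2) z else 1, C, hC0, ?_, ?_, ?_, ?_, ?_⟩
  · exact Measurable.ite hSm (meas_J τ _ (by fun_prop)) measurable_const
  · exact Measurable.ite hSm (meas_J τ _ (by fun_prop)).neg measurable_const
  · exact Measurable.ite hSm (meas_J τ _ (by fun_prop)) measurable_const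
  · intro z w
    by_cases hz : z ∈ S
    · simp only [hz, if_true]
      rw [qf_J τ hS hA z w]
      constructor
      · refine (mul_le_mul_of_nonneg_right hCi (by positivity)).trans ?_
        exact J_ge τ hS hA (K ^ 2) hKs z hz w
      · refine (J_le τ hS hA z w).trans ?_
        exact mul_le_mul_of_nonneg_right hCM (by positivity)
    · simp only [hz, if_false]
      have h1 : qf 1 0 1 w = ‖w‖ ^ 2 := by
        rw [norm_sq_eq]; unfold qf; ring
      rw [h1]
      have h2 : 0 ≤ ‖w‖ ^ 2 := by positivity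
      constructor
      · nlinarith
      · nlinarith
  · filter_upwards [hK] with z hz g
    have hz2 : z ∈ S := by
      intro h
      obtain ⟨a1, a2, a3, a4⟩ := hz h
      refine ⟨a1, a2, a3, a4.trans ?_⟩
      have h3 : K ≤ K ^ 2 := by nlinarith
      exact mul_le_mul_of_nonneg_right h3 (abs_nonneg _)
    have hw : pl (τ g) z ∈ S := (step τ hS hA K hK0 z hz g).1
    obtain ⟨a1, a2, a3, a4⟩ := hz g
    refine ⟨a1, a2, |(Dg τ g z).det|, abs_pos.2 a3, ?_⟩
    intro w
    simp only [hz2, hw, if_true]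
    rw [qf_J τ hS hA, qf_J τ hS hA]
    exact J_inv τ hS hA K hK0 z hz g w


end Pool.Agent.Y367.RC.S
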