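import Pool.Agent.Y328.ST.Blow
import Pool.Agent.Y367.RC.Str

/-!
# The blow-up at a point of approximate continuity is nearly conformal

The proof is that of `Pool.Agent.Y328.ST.Blow`, with `Act` replaced by `RAct` and with an
additional almost everywhere condition on the centre.
-/

set_option autoImplicit false
open Filter Topology MeasureTheory Metric

namespace Pool.Agent.Y367.RC
open Pool.Agent.Y320.ST
open Pool.Agent.Y320.CM hiding tau_inj cont_caseA exists_scale cont_caseB coord_of_point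

theorem blow (hS : S_STB) (hR : S_ROT) (hD : S_DIFF) (hNZ : S_NZ) (hL : S_LEB) (hQ : S_SQRT)
    {G : Type} [Group G] [Countable G] {τ : G → Sph → Sph} (hact : RAct G τ) (N : ℝ → ℝ)
    (hN : ∀ g, QM N (τ g)) (P : ℂ → Prop) (hP : ∀ᵐ x : ℂ, P x) :
    ∃ (L : ℂ ≃L[ℝ] ℂ) (x : ℂ), P x ∧
      ∀ (r : ℕ → ℝ), (∀ n, 0 < r n) → Tendsto r atTop (𝓝 0) →
      ∀ (A : ℕ → Sph ≃ₜ Sph), (∀ n, A n inf = inf) →
      (∀ n z, A n (sg z) = sg (L (((r n : ℝ) : ℂ)⁻¹ * (z - x)))) →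
      ∀ (𝓤 : Ultrafilter ℕ), (𝓤 : Filter ℕ) ≤ atTop → ∀ g : ℕ → G,
        NC 𝓤 (fun n p => A n (τ (g n) ((A n).symm p))) := by
  obtain ⟨a, b, c, C, hC, ma, mb, mc, hq, hae⟩ := S.str τ hS hR hD hNZ hact N hN
  obtain ⟨s1, s2, s3, s4, s5, -, -, -, -⟩ := hS
  have bd := fun z => Pool.Agent.Y328.ST.coef_bd hC (hq z)
  have la := hL a C ma (fun z => (bd z).1)
  have lb := hL b C mb (fun z => (bd z).2.1)
  have lc := hL c C mc (fun z => (bd z).2.2)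
  obtain ⟨x, xP, xa, xb, xc⟩ : ∃ x : ℂ, P x ∧ (∀ ε : ℝ, 0 < ε → ∃ r0 : ℝ, 0 < r0 ∧ ∀ r : ℝ, 0 < r → r < r0 →
      volume {y : ℂ | dist y x ≤ r ∧ ε < |a y - a x|} ≤ ENNReal.ofReal (ε * r ^ 2)) ∧
      (∀ ε : ℝ, 0 < ε → ∃ r0 : ℝ, 0 < r0 ∧ ∀ r : ℝ, 0 < r → r < r0 →
      volume {y : ℂ | dist y x ≤ r ∧ ε < |b y - b x|} ≤ ENNReal.ofReal (ε * r ^ 2)) ∧
      (∀ ε : ℝ, 0 < ε → ∃ r0 : ℝ, 0 < r0 ∧ ∀ r : ℝ, 0 < r → r < r0 →
      volume {y : ℂ | dist y x ≤ r ∧ ε < |c y - c x|} ≤ ENNReal.ofReal (ε * r ^ 2)) := by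
    have := (hP.and (la.and (lb.and lc))).exists
    exact this
  obtain ⟨L, hLq⟩ := hQ (a x) (b x) (c x) C hC (fun w => (hq x w).1)
  refine ⟨L, x, xP, ?_⟩
  intro r hr htr A hAinf hA 𝓤 h𝓤 g ρ ε hρ hε
  -- the constants
  set η : ℝ := min ε 1 / 4 with hη
  have hη0 : 0 < η := by positivity
  have hη1 : η ≤ 1 / 2 := by
    have := min_le_right ε 1
    rw [hη]; linarith
  have hη2 : 4 * η ≤ ε := by
    have := min_le_left ε 1
    rw [hη]; linarith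
  set ε1 : ℝ := η / (2 * C) with hε1
  have hε1' : 0 < ε1 := by positivity
  set M : ℝ := ‖(L.symm : ℂ →L[ℝ] ℂ)‖ * ρ + 1 with hM
  have hM0 : 0 < M := by positivity
  set K : ℝ := |((L.symm : ℂ →L[ℝ] ℂ) : ℂ →ₗ[ℝ] ℂ).det⁻¹| with hK
  have hK0 : 0 ≤ K := abs_nonneg _
  set ε2 : ℝ := min ε1 (ε / (3 * K * M ^ 2 + 1)) with hε2
  have hden : 0 < 3 * K * M ^ 2 + 1 := by positivity
  have hε2' : 0 < ε2 := lt_min hε1' (div_pos hε hden)
  have hε2a : ε2 ≤ ε1 := min_le_left _ _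
  have hε2b : K * (3 * (ε2 * M ^ 2)) ≤ ε := by
    have h1 : ε2 ≤ ε / (3 * K * M ^ 2 + 1) := min_le_right _ _
    rw [le_div_iff₀ hden] at h1
    nlinarith
  obtain ⟨ra, hra, hra'⟩ := xa ε2 hε2'
  obtain ⟨rb, hrb, hrb'⟩ := xb ε2 hε2'
  obtain ⟨rc, hrc, hrc'⟩ := xc ε2 hε2'
  have hlim : Tendsto (fun n => r n * M) (𝓤 : Filter ℕ) (𝓝 0) := by
    have := (htr.mono_left h𝓤).mul_const M
    simpa using this
  have hev : ∀ᶠ n in (𝓤 : Filter ℕ), r n * M < min ra (min rb rc) :=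
    hlim.eventually (gt_mem_nhds (lt_min hra (lt_min hrb hrc)))
  filter_upwards [hev] with n hn
  have hrn := hr n
  have hrM : 0 < r n * M := mul_pos hrn hM0
  have hn1 : r n * M < ra := hn.trans_le (min_le_left _ _)
  have hn2 : r n * M < rb := hn.trans_le ((min_le_right _ _).trans (min_le_left _ _))
  have hn3 : r n * M < rc := hn.trans_le ((min_le_right _ _).trans (min_le_right _ _))
  set Bad : Set ℂ := {y | ε1 < |a y - a x| ∨ ε1 < |b y - b x| ∨ ε1 < |c y - c x|} with hBad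
  set Z : Set ℂ := {z : ℂ | ¬ ∀ g, τ g (sg z) ≠ inf ∧ DifferentiableAt ℝ (pl (τ g)) z ∧
        ∃ κ : ℝ, 0 < κ ∧
        ∀ w, qf (a (pl (τ g) z)) (b (pl (τ g) z)) (c (pl (τ g) z)) (fderiv ℝ (pl (τ g)) z w) =
          κ * qf (a z) (b z) (c z) w} with hZ
  have hZ0 : volume Z = 0 := hae
  set Y : ℂ → ℂ := fun z => x + r n • L.symm z with hY
  have hYd : ∀ z, ‖z‖ ≤ ρ → dist (Y z) x ≤ r n * M := by
    intro z hz
    rw [hY, dist_eq_norm]
    simp only [add_sub_cancel_left]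
    rw [norm_smul, Real.norm_eq_abs, abs_of_pos hrn]
    refine mul_le_mul_of_nonneg_left ?_ hrn.le
    have h1 : ‖L.symm z‖ ≤ ‖(L.symm : ℂ →L[ℝ] ℂ)‖ * ‖z‖ := (L.symm : ℂ →L[ℝ] ℂ).le_opNorm z
    have h2 : ‖(L.symm : ℂ →L[ℝ] ℂ)‖ * ‖z‖ ≤ ‖(L.symm : ℂ →L[ℝ] ℂ)‖ * ρ :=
      mul_le_mul_of_nonneg_left hz (norm_nonneg _)
    rw [hM]; linarith
  set S : Set ℂ := ({y | dist y x ≤ r n * M ∧ ε2 < |a y - a x|} ∪
    {y | dist y x ≤ r n * M ∧ ε2 < |b y - b x|} ∪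
    {y | dist y x ≤ r n * M ∧ ε2 < |c y - c x|}) ∪ Z with hSdef
  have hSv : volume S ≤ ENNReal.ofReal (3 * (ε2 * (r n * M) ^ 2)) := by
    have e1 := hra' _ hrM hn1
    have e2 := hrb' _ hrM hn2
    have e3 := hrc' _ hrM hn3
    have h0 : 0 ≤ ε2 * (r n * M) ^ 2 := by positivity
    calc volume S ≤ volume ({y | dist y x ≤ r n * M ∧ ε2 < |a y - a x|} ∪
          {y | dist y x ≤ r n * M ∧ ε2 < |b y - b x|} ∪
          {y | dist y x ≤ r n * M ∧ ε2 < |c y - c x|}) + volume Z := measure_union_le _ _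
      _ ≤ (volume ({y | dist y x ≤ r n * M ∧ ε2 < |a y - a x|}) +
          volume {y | dist y x ≤ r n * M ∧ ε2 < |b y - b x|} +
          volume {y | dist y x ≤ r n * M ∧ ε2 < |c y - c x|}) + 0 := by
            rw [hZ0]
            gcongr
            refine (measure_union_le _ _).trans ?_
            gcongr
            exact measure_union_le _ _
      _ ≤ (ENNReal.ofReal (ε2 * (r n * M) ^ 2) + ENNReal.ofReal (ε2 * (r n * M) ^ 2) +
          ENNReal.ofReal (ε2 * (r n * M) ^ 2)) + 0 := by gcongr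
      _ = ENNReal.ofReal (3 * (ε2 * (r n * M) ^ 2)) := by
            rw [add_zero, ← ENNReal.ofReal_add h0 h0, ← ENNReal.ofReal_add (by positivity) h0]
            congr 1; ring
  have hpre : volume (Y ⁻¹' S) ≤ ENNReal.ofReal ε := by
    rw [hY, Pool.Agent.Y328.ST.vol_pre L x (r n) hrn S, ← hK]
    calc ENNReal.ofReal K * (ENNReal.ofReal |(r n ^ 2)⁻¹| * volume S)
        ≤ ENNReal.ofReal K * (ENNReal.ofReal |(r n ^ 2)⁻¹| *
          ENNReal.ofReal (3 * (ε2 * (r n * M) ^ 2))) := by gcongr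
      _ = ENNReal.ofReal (K * (3 * (ε2 * M ^ 2))) := by
          rw [← ENNReal.ofReal_mul (abs_nonneg _), ← ENNReal.ofReal_mul hK0]
          congr 1
          rw [abs_of_pos (by positivity : 0 < (r n ^ 2)⁻¹)]
          field_simp
      _ ≤ ENNReal.ofReal ε := ENNReal.ofReal_le_ofReal hε2b
  have hBS : ∀ z, ‖z‖ ≤ ρ → Y z ∈ Bad → Y z ∈ S := by
    intro z hz hb
    have hd := hYd z hz
    rcases hb with h | h | h
    · exact Or.inl (Or.inl (Or.inl ⟨hd, hε2a.trans_lt h⟩))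
    · exact Or.inl (Or.inl (Or.inr ⟨hd, hε2a.trans_lt h⟩))
    · exact Or.inl (Or.inr ⟨hd, hε2a.trans_lt h⟩)
  refine ⟨{z | ‖z‖ ≤ ρ ∧ (Y z ∈ Bad ∨ Y z ∈ Z)}, {z | ‖z‖ ≤ ρ ∧ Y z ∈ Bad}, ?_, ?_, ?_⟩
  · refine (measure_mono ?_).trans hpre
    rintro z ⟨hz, h | h⟩
    · exact hBS z hz h
    · exact Or.inr h
  · refine (measure_mono ?_).trans hpre
    rintro z ⟨hz, h⟩
    exact hBS z hz h
  -- the pointwise statement
  intro z hz hz1 hz2 hz3 hz4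
  have hrc0 : ((r n : ℝ) : ℂ) ≠ 0 := by exact_mod_cast hrn.ne'
  have hAY : ∀ z', (A n).symm (sg z') = sg (Y z') := by
    intro z'
    rw [Homeomorph.symm_apply_eq, hA]
    congr 1
    rw [hY]
    simp only [add_sub_cancel_left]
    rw [Complex.real_smul, ← mul_assoc, inv_mul_cancel₀ hrc0, one_mul, L.apply_symm_apply]
  have hzB : Y z ∉ Bad := fun h => hz1 ⟨hz, Or.inl h⟩
  have hzZ : Y z ∉ Z := fun h => hz1 ⟨hz, Or.inr h⟩
  have hgood : ∀ g, τ g (sg (Y z)) ≠ inf ∧ DifferentiableAt ℝ (pl (τ g)) (Y z) ∧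
        ∃ κ : ℝ, 0 < κ ∧
        ∀ w, qf (a (pl (τ g) (Y z))) (b (pl (τ g) (Y z))) (c (pl (τ g) (Y z)))
          (fderiv ℝ (pl (τ g)) (Y z) w) = κ * qf (a (Y z)) (b (Y z)) (c (Y z)) w :=
    not_not.1 hzZ
  obtain ⟨g1, g2, κ, hκ, g3⟩ := hgood (g n)
  -- formula for the planar version
  have hform : ∀ z', τ (g n) (sg (Y z')) ≠ inf →
      pl (fun p => A n (τ (g n) ((A n).symm p))) z' =
        L ((r n)⁻¹ • (pl (τ (g n)) (Y z') - x)) := by
    intro z' hz'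
    show st (A n (τ (g n) ((A n).symm (sg z')))) = _
    rw [hAY, ← s2 _ hz', hA, s1]
    congr 1
    rw [Complex.real_smul, Complex.ofReal_inv]
    rfl
  set D : ℂ →L[ℝ] ℂ := fderiv ℝ (pl (τ (g n))) (Y z) with hD
  have hYder : HasFDerivAt Y (r n • (L.symm : ℂ →L[ℝ] ℂ)) z := by
    have h1 : HasFDerivAt (fun z : ℂ => L.symm z) (L.symm : ℂ →L[ℝ] ℂ) z :=
      (L.symm : ℂ →L[ℝ] ℂ).hasFDerivAt
    exact (h1.const_smul (r n)).const_add x
  have hcomp : HasFDerivAt (fun z' => L ((r n)⁻¹ • (pl (τ (g n)) (Y z') - x)))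
      ((L : ℂ →L[ℝ] ℂ).comp ((r n)⁻¹ • (D.comp (r n • (L.symm : ℂ →L[ℝ] ℂ))))) z := by
    have h1 : HasFDerivAt (fun z' => pl (τ (g n)) (Y z'))
        (D.comp (r n • (L.symm : ℂ →L[ℝ] ℂ))) z := g2.hasFDerivAt.comp z hYder
    exact (L : ℂ →L[ℝ] ℂ).hasFDerivAt.comp z ((h1.sub_const x).const_smul (r n)⁻¹)
  have hnear : ∀ᶠ z' in 𝓝 z, τ (g n) (sg (Y z')) ≠ inf := by
    have hcont : Continuous fun z' => τ (g n) (sg (Y z')) := by
      refine (hact.cont (g n)).comp (s4.comp ?_)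
      rw [hY]
      fun_prop
    exact (hcont.continuousAt (x := z)).eventually (isOpen_compl_singleton.mem_nhds g1)
  have hderiv : HasFDerivAt (pl (fun p => A n (τ (g n) ((A n).symm p))))
      ((L : ℂ →L[ℝ] ℂ).comp (D.comp (L.symm : ℂ →L[ℝ] ℂ))) z := by
    have h1 : HasFDerivAt (pl (fun p => A n (τ (g n) ((A n).symm p))))
        ((L : ℂ →L[ℝ] ℂ).comp ((r n)⁻¹ • (D.comp (r n • (L.symm : ℂ →L[ℝ] ℂ))))) z := by
      refine hcomp.congr_of_eventuallyEq ?_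
      filter_upwards [hnear] with z' hz'
      exact hform z' hz'
    have h2 : ((L : ℂ →L[ℝ] ℂ).comp ((r n)⁻¹ • (D.comp (r n • (L.symm : ℂ →L[ℝ] ℂ))))) =
        ((L : ℂ →L[ℝ] ℂ).comp (D.comp (L.symm : ℂ →L[ℝ] ℂ))) := by
      ext w
      simp only [ContinuousLinearMap.comp_apply, ContinuousLinearMap.smul_apply, map_smul]
      rw [smul_smul, inv_mul_cancel₀ hrn.ne', one_smul]
    rwa [h2] at h1
  refine ⟨_, κ, hderiv, hκ, ?_⟩
  -- the image point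
  have himg : Y (pl (fun p => A n (τ (g n) ((A n).symm p))) z) = pl (τ (g n)) (Y z) := by
    rw [hform z g1, hY]
    simp only [L.symm_apply_apply]
    rw [smul_smul, mul_inv_cancel₀ hrn.ne', one_smul]
    ring
  have hyB : pl (τ (g n)) (Y z) ∉ Bad := by
    intro h
    exact hz4 ⟨hz3, by rw [himg]; exact h⟩
  have hcl : ∀ y, y ∉ Bad → ∀ w, |qf (a y) (b y) (c y) w - qf (a x) (b x) (c x) w| ≤
      η * qf (a x) (b x) (c x) w := by
    intro y hy w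
    simp only [hBad, Set.mem_setOf_eq, not_or, not_lt] at hy
    exact Pool.Agent.Y328.ST.qf_close hC hη0 (fun w => (hq x w).1) hy.1 hy.2.1 hy.2.2 w
  intro w
  have f1 := hcl _ hzB (L.symm w)
  have f2 := hcl _ hyB (D (L.symm w))
  rw [← hLq, L.apply_symm_apply] at f1
  rw [← hLq] at f2
  exact Pool.Agent.Y328.ST.near_conf hη0 hη1 hη2 hκ (sq_nonneg _) f1 f2 (g3 _)


end Pool.Agent.Y367.RC
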