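import Pool.Agent.Y367.RC.Defs
import Pool.Agent.Y31.CM.Repc

/-!
# The Dirichlet domain of the conjugated action
-/

set_option autoImplicit false
open Filter Topology

namespace Pool.Agent.Y367.RC

open Pool.Agent.Y320.CM hiding tau_inj cont_caseA exists_scale cont_caseB coord_of_point

variable {G : Type} [Group G] {τ : G → Sph → Sph}

/-- the data of the conjugated action -/
structure Rep (G : Type) [Group G] (τ : G → Sph → Sph) (F : Sph → Sph)
    (ρ : G →* Matrix (Fin 4) (Fin 4) ℝ) (s : G → Sph → ℝ) : Prop where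
  cont : Continuous F
  inj : Function.Injective F
  surj : Function.Surjective F
  pos : ∀ g a, 0 < s g a
  eq : ∀ g a, Matrix.mulVec (ρ g) (N (F a)) = s g a • N (F (τ g a))
  form : ∀ g v w, B (Matrix.mulVec (ρ g) v) (Matrix.mulVec (ρ g) w) = B v w
  hyp : ∀ (g : G), ∀ v ∈ Hyp, Matrix.mulVec (ρ g) v ∈ Hyp
  prop : ∀ K : Set V, IsCompact K → K ⊆ Hyp →
      Set.Finite {g : G | ∃ v ∈ K, Matrix.mulVec (ρ g) v ∈ K}

variable {F : Sph → Sph} {ρ : G →* Matrix (Fin 4) (Fin 4) ℝ} {s : G → Sph → ℝ}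

theorem Rep.scale (h : Rep G τ F ρ s) (g : G) (a b : Sph) :
    dist (F a) (F b) ^ 2 = s g a * s g b * dist (F (τ g a)) (F (τ g b)) ^ 2 := by
  have h1 := h.form g (N (F a)) (N (F b))
  rw [h.eq, h.eq, B_smul_left, B_smul_right, BN, BN] at h1
  linarith

/-- a conical point violates the Dirichlet condition -/
theorem Rep.conical (h : Rep G τ F ρ s) {x : Sph} (hx : Conical τ x) : ∃ g, s g x < 1 := by
  by_contra hcon
  push Not at hcon
  obtain ⟨f, v, w, -, hvw, hw, hv⟩ := hx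
  obtain ⟨y, hy'⟩ := exists_new {x}
  obtain ⟨y', hyy'⟩ := exists_new {x, y}
  simp only [Finset.mem_insert, Finset.mem_singleton, not_or] at hy' hyy'
  have hy : y ≠ x := hy'
  have hy2 : y' ≠ x := hyy'.1
  have hne : y' ≠ y := hyy'.2
  set d := dist (F w) (F v) with hd
  have hd0 : 0 < d := dist_pos.2 fun hh => hvw (h.inj hh).symm
  have hFw : Tendsto (fun n => F (τ (f n) x)) atTop (𝓝 (F w)) := (h.cont.tendsto w).comp hw
  have hFv : ∀ z, z ≠ x → Tendsto (fun n => F (τ (f n) z)) atTop (𝓝 (F v)) := fun z hz =>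
    (h.cont.tendsto v).comp (hv z hz)
  have key : ∀ z, z ≠ x → ∀ᶠ n in atTop, s (f n) z ≤ 16 / d ^ 2 := by
    intro z hz
    have h1 := (hFw.dist (hFv z hz)).eventually (eventually_gt_nhds (half_lt_self hd0))
    filter_upwards [h1] with n hn
    have h2 := h.scale (f n) x z
    have h3 := dist_le_two (F x) (F z)
    have h4 := hcon (f n)
    have h5 := h.pos (f n) z
    have h6 : dist (F x) (F z) ^ 2 ≤ 4 := by
      have := dist_nonneg (x := F x) (y := F z)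
      nlinarith
    have h7 : (d / 2) ^ 2 ≤ dist (F (τ (f n) x)) (F (τ (f n) z)) ^ 2 :=
      pow_le_pow_left₀ (by positivity) hn.le 2
    have h8 : s (f n) z * (d / 2) ^ 2 ≤ 4 := by
      calc s (f n) z * (d / 2) ^ 2 ≤ s (f n) z * dist (F (τ (f n) x)) (F (τ (f n) z)) ^ 2 :=
            mul_le_mul_of_nonneg_left h7 h5.le
        _ ≤ s (f n) x * (s (f n) z * dist (F (τ (f n) x)) (F (τ (f n) z)) ^ 2) := by
            have : 0 ≤ s (f n) z * dist (F (τ (f n) x)) (F (τ (f n) z)) ^ 2 := by positivity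
            nlinarith
        _ = dist (F x) (F z) ^ 2 := by rw [h2]; ring
        _ ≤ 4 := h6
    rw [le_div_iff₀ (by positivity)]
    linarith
  have hlim : Tendsto (fun n => 16 / d ^ 2 * (16 / d ^ 2) *
      dist (F (τ (f n) y')) (F (τ (f n) y)) ^ 2) atTop
      (𝓝 (16 / d ^ 2 * (16 / d ^ 2) * dist (F v) (F v) ^ 2)) :=
    (((hFv y' hy2).dist (hFv y hy)).pow 2).const_mul _
  have hle : dist (F y') (F y) ^ 2 ≤ 16 / d ^ 2 * (16 / d ^ 2) * dist (F v) (F v) ^ 2 := by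
    refine ge_of_tendsto hlim ?_
    filter_upwards [key y hy, key y' hy2] with n h1 h2
    rw [h.scale (f n) y' y]
    refine mul_le_mul_of_nonneg_right ?_ (by positivity)
    exact mul_le_mul h2 h1 (h.pos _ _).le (by positivity)
  rw [dist_self] at hle
  have h3 : 0 < dist (F y') (F y) := dist_pos.2 fun hh => hne (h.inj hh)
  have h4 : 0 < dist (F y') (F y) ^ 2 := by positivity
  have h5 : 16 / d ^ 2 * (16 / d ^ 2) * (0 : ℝ) ^ 2 = 0 := by ring
  linarith

/-- a null vector in the future cone is a multiple of some `N q` -/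
theorem null_vec (m : V) (u : Sph) (h0 : B m m = 0) (h1 : B m (N u) < 0) :
    ∃ q : Sph, m = m 0 • N q ∧ 0 < m 0 := by
  have hu := sph_sq u
  simp only [B, N, Matrix.cons_val_zero, Matrix.cons_val_one, Matrix.cons_val] at h0 h1
  have hcs : (m 1 * u.1 0 + m 2 * u.1 1 + m 3 * u.1 2) ^ 2 ≤
      (m 1 ^ 2 + m 2 ^ 2 + m 3 ^ 2) * ((u.1 0) ^ 2 + (u.1 1) ^ 2 + (u.1 2) ^ 2) := by
    nlinarith [sq_nonneg (m 1 * u.1 1 - m 2 * u.1 0), sq_nonneg (m 1 * u.1 2 - m 3 * u.1 0),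
      sq_nonneg (m 2 * u.1 2 - m 3 * u.1 1)]
  rw [hu, mul_one] at hcs
  have hpos : 0 < m 0 := by
    by_contra hcon
    push Not at hcon
    have h2 : (m 1 * u.1 0 + m 2 * u.1 1 + m 3 * u.1 2) ^ 2 ≤ (m 0) ^ 2 := by nlinarith
    have h3 : m 1 * u.1 0 + m 2 * u.1 1 + m 3 * u.1 2 < m 0 := by linarith
    nlinarith
  obtain ⟨q, hq0, hq1, hq2⟩ := Pool.Agent.Y31.CM.exists_sph (m 1 / m 0) (m 2 / m 0) (m 3 / m 0) (by
    field_simp
    nlinarith)
  refine ⟨q, ?_, hpos⟩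
  funext i
  fin_cases i
  · show m 0 = m 0 * 1
    ring
  · show m 1 = m 0 * q.1 0
    rw [hq0]
    field_simp
  · show m 2 = m 0 * q.1 1
    rw [hq1]
    field_simp
  · show m 3 = m 0 * q.1 2
    rw [hq2]
    field_simp

/-- the Dirichlet domain centred at `(1, 0, 0, 0)` -/
def Dir (ρ : G →* Matrix (Fin 4) (Fin 4) ℝ) : Set V :=
  {v | v ∈ Hyp ∧ ∀ g, v 0 ≤ (Matrix.mulVec (ρ g) v) 0}

theorem hyp_closed : IsClosed Hyp := by
  have : Hyp = {v : V | 0 ≤ v 0 ∧ -(v 0) ^ 2 + (v 1) ^ 2 + (v 2) ^ 2 + (v 3) ^ 2 = -1} := by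
    ext v
    constructor
    · rintro ⟨h1, h2⟩
      exact ⟨h1.le, h2⟩
    · rintro ⟨h1, h2⟩
      refine ⟨lt_of_le_of_ne h1 ?_, h2⟩
      intro h3
      rw [← h3] at h2
      nlinarith [sq_nonneg (v 1), sq_nonneg (v 2), sq_nonneg (v 3)]
  rw [this]
  exact (isClosed_le continuous_const (continuous_apply 0)).inter
    (isClosed_eq (by fun_prop) continuous_const)

theorem continuous_mulVec (M : Matrix (Fin 4) (Fin 4) ℝ) :
    Continuous fun v : V => Matrix.mulVec M v :=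
  continuous_const.matrix_mulVec continuous_id

theorem dir_closed (ρ : G →* Matrix (Fin 4) (Fin 4) ℝ) : IsClosed (Dir ρ) := by
  have : Dir ρ = Hyp ∩ ⋂ g : G, {v : V | v 0 ≤ (Matrix.mulVec (ρ g) v) 0} := by
    ext v
    simp only [Dir, Set.mem_setOf_eq, Set.mem_inter_iff, Set.mem_iInter]
  rw [this]
  refine hyp_closed.inter (isClosed_iInter fun g => ?_)
  exact isClosed_le (continuous_apply 0) ((continuous_apply 0).comp (continuous_mulVec _))

theorem hyp_le (v : V) (hv : v ∈ Hyp) (i : Fin 4) : |v i| ≤ v 0 := by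
  obtain ⟨h0, h1⟩ := hv
  refine abs_le_of_sq_le_sq ?_ h0.le
  fin_cases i
  · exact le_refl _
  · show v 1 ^ 2 ≤ v 0 ^ 2
    nlinarith [sq_nonneg (v 2), sq_nonneg (v 3)]
  · show v 2 ^ 2 ≤ v 0 ^ 2
    nlinarith [sq_nonneg (v 1), sq_nonneg (v 3)]
  · show v 3 ^ 2 ≤ v 0 ^ 2
    nlinarith [sq_nonneg (v 1), sq_nonneg (v 2)]

theorem hyp_ball_compact (T : ℝ) : IsCompact {w : V | w ∈ Hyp ∧ w 0 ≤ T} := by
  refine Metric.isCompact_of_isClosed_isBounded
    (hyp_closed.inter (isClosed_le (continuous_apply 0) continuous_const)) ?_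
  refine Metric.isBounded_closedBall (x := (0 : V)) (r := |T|) |>.subset ?_
  rintro w ⟨hw, hT⟩
  rw [mem_closedBall_zero_iff, pi_norm_le_iff_of_nonneg (abs_nonneg _)]
  intro i
  rw [Real.norm_eq_abs]
  exact (hyp_le w hw i).trans (hT.trans (le_abs_self T))

/-- the Dirichlet domain meets every orbit -/
theorem Rep.cover (h : Rep G τ F ρ s) (v : V) (hv : v ∈ Hyp) :
    ∃ g : G, ∃ w ∈ Dir ρ, Matrix.mulVec (ρ g) w = v := by
  have hfin : {g : G | (Matrix.mulVec (ρ g) v) 0 ≤ v 0}.Finite := by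
    refine (h.prop _ (hyp_ball_compact (v 0)) fun w hw => hw.1).subset ?_
    intro g hg
    exact ⟨v, ⟨hv, le_refl _⟩, h.hyp g v hv, hg⟩
  have h1v : Matrix.mulVec (ρ 1) v = v := by rw [map_one, Matrix.one_mulVec]
  obtain ⟨g0, hg0, hmin⟩ := Set.exists_min_image _ (fun g : G => (Matrix.mulVec (ρ g) v) 0) hfin
    ⟨1, by show (Matrix.mulVec (ρ 1) v) 0 ≤ v 0; rw [h1v]⟩
  refine ⟨g0⁻¹, Matrix.mulVec (ρ g0) v, ⟨h.hyp g0 v hv, fun g => ?_⟩, ?_⟩
  · have e : Matrix.mulVec (ρ g) (Matrix.mulVec (ρ g0) v) = Matrix.mulVec (ρ (g * g0)) v := by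
      rw [Matrix.mulVec_mulVec, ← map_mul]
    rw [e]
    by_cases hg : (Matrix.mulVec (ρ (g * g0)) v) 0 ≤ v 0
    · exact hmin (g * g0) hg
    · push Not at hg
      exact (hg0 : _ ≤ v 0).trans hg.le
  · rw [Matrix.mulVec_mulVec, ← map_mul, inv_mul_cancel, h1v]

end Pool.Agent.Y367.RC
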