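import Pool.Agent.Y367.RC.Act

/-!
# Geometrically finite convergence actions on the sphere
-/

set_option autoImplicit false
open Filter Topology

namespace Pool.Agent.Y367.RC

open Pool.Agent.Y320.CM

/-- `x` is a conical limit point: there are distinct group elements `f n` such that `f n x` tends
to `w` and `f n y` tends to `v ≠ w` for all `y ≠ x`. -/
def Conical {G : Type} (τ : G → Sph → Sph) (x : Sph) : Prop :=
  ∃ (f : ℕ → G) (v w : Sph), Function.Injective f ∧ v ≠ w ∧
    Tendsto (fun n => τ (f n) x) atTop (𝓝 w) ∧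
    ∀ y, y ≠ x → Tendsto (fun n => τ (f n) y) atTop (𝓝 v)

/-- `p` is a bounded parabolic point: the stabiliser of `p` acts cocompactly on the complement
of `p`, it is finitely generated, and it is not virtually cyclic. -/
def BoundedParabolic {G : Type} [Group G] (τ : G → Sph → Sph) (p : Sph) : Prop :=
  (∃ K : Set Sph, IsCompact K ∧ p ∉ K ∧ ∀ y, y ≠ p → ∃ g, τ g p = p ∧ τ g y ∈ K) ∧
  (∃ S : Finset G, ∀ g, τ g p = p ↔ g ∈ Subgroup.closure (S : Set G)) ∧
  ¬ ∃ (h : G) (S : Finset G), ∀ g, τ g p = p → ∃ s ∈ S, ∃ m : ℤ, g = s * h ^ m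

/-- `τ` is a geometrically finite convergence action of `G` on the sphere, without global fixed
point. -/
structure GeometricallyFinite (G : Type) [Group G] (τ : G → Sph → Sph) : Prop where
  one : ∀ x, τ 1 x = x
  mul : ∀ g h x, τ (g * h) x = τ g (τ h x)
  cont : ∀ g, Continuous (τ g)
  convergence : ∀ f : ℕ → G, Function.Injective f → ∃ k : ℕ → ℕ, StrictMono k ∧ ∃ c d : Sph,
    ∀ K : Set Sph, IsCompact K → d ∉ K →
      TendstoUniformlyOn (fun n y => τ (f (k n)) y) (fun _ => c) atTop K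
  nofix : ∀ x, ∃ g, τ g x ≠ x
  points : ∀ x, Conical τ x ∨ BoundedParabolic τ x

/-- hyperbolic volume of a subset `D` of the hyperboloid `Hyp`: in the coordinates
`x = (x₁, x₂, x₃)` the volume form of `Hyp` is `dx₁ dx₂ dx₃ / √(1 + |x|²)` -/
noncomputable def hypVol (D : Set V) : ENNReal :=
  MeasureTheory.lintegral (MeasureTheory.volume.restrict {x : Fin 3 → ℝ |
      ![√(1 + x 0 ^ 2 + x 1 ^ 2 + x 2 ^ 2), x 0, x 1, x 2] ∈ D})
    (fun x => ENNReal.ofReal (1 / √(1 + x 0 ^ 2 + x 1 ^ 2 + x 2 ^ 2)))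

/-- `τ` is topologically conjugate, by the homeomorphism `F`, to the boundary action of a properly
discontinuous isometric action `ρ` of finite covolume on hyperbolic 3-space (hyperboloid model
`Hyp`, whose boundary consists of the null directions `N y`, `y` in the sphere). -/
def ConjugateToLattice (G : Type) [Group G] (τ : G → Sph → Sph) : Prop :=
  ∃ (F : Sph ≃ₜ Sph) (ρ : G →* Matrix (Fin 4) (Fin 4) ℝ),
    (∀ g v w, B (Matrix.mulVec (ρ g) v) (Matrix.mulVec (ρ g) w) = B v w) ∧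
    (∀ g : G, ∀ v ∈ Hyp, Matrix.mulVec (ρ g) v ∈ Hyp) ∧
    (∀ K : Set V, IsCompact K → K ⊆ Hyp →
      Set.Finite {g : G | ∃ v ∈ K, Matrix.mulVec (ρ g) v ∈ K}) ∧
    (∃ D : Set V, IsClosed D ∧ D ⊆ Hyp ∧ hypVol D < ⊤ ∧
      ∀ v ∈ Hyp, ∃ g : G, ∃ w ∈ D, Matrix.mulVec (ρ g) w = v) ∧
    ∀ g a, ∃ s : ℝ, 0 < s ∧ Matrix.mulVec (ρ g) (N (F a)) = s • N (F (τ g a))

/-- The action is locally uniformly quasi-Moebius on the open set `U`: there are an embedding
`f : U → S²` and a function `N` with `N t` arbitrarily small for small `t` such that all group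
elements map 4-tuples of `U` with cross ratio at most `t` to 4-tuples with cross ratio at most
`N t`, as long as the images are in `U` (cross ratios in the coordinate `f`). -/
def LocallyQuasiMoebius (G : Type) [Group G] (τ : G → Sph → Sph) (U : Set Sph) : Prop :=
  IsOpen U ∧ U.Nonempty ∧ ∃ (f : Sph → Sph) (N : ℝ → ℝ), ContinuousOn f U ∧ Set.InjOn f U ∧
    (∀ T : ℝ, 0 < T → ∃ t : ℝ, 0 < t ∧ N t ≤ T) ∧
    ∀ (g : G) (a b c e : Sph), a ∈ U → b ∈ U → c ∈ U → e ∈ U → D4 a b c e →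
      τ g a ∈ U → τ g b ∈ U → τ g c ∈ U → τ g e ∈ U → ∀ t, cr (f a) (f b) (f c) (f e) ≤ t →
      cr (f (τ g a)) (f (τ g b)) (f (τ g c)) (f (τ g e)) ≤ N t

end Pool.Agent.Y367.RC
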