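import Pool.Agent.Y367.RC.ParA
import Pool.Agent.Y367.RC.Defs

/-!
# Parabolic stabilisers act by isometries, and continuity at parabolic points
-/

set_option autoImplicit false
open Filter Topology

namespace Pool.Agent.Y367.RC

open Pool.Agent.Y320.CM hiding tau_inj cont_caseA exists_scale cont_caseB coord_of_point

variable {G : Type} [Group G] {τ : G → Sph → Sph}

/-- if an element of the stabiliser contracts, the stabiliser is virtually cyclic -/
theorem not_contract (hA : RAct G τ)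
    (hconv : ∀ f : ℕ → G, Function.Injective f → ∃ k : ℕ → ℕ, StrictMono k ∧ ∃ c d : Sph,
      ∀ y, y ≠ d → Tendsto (fun n => τ (f (k n)) y) atTop (𝓝 c))
    {F : Sph → Sph} (hF : Function.Injective F)
    (hsep : ∀ x y : Sph, x ≠ y → ∃ c : ℝ, 0 < c ∧ ∀ᶠ q in 𝓝 (x, y), c ≤ dist (F q.1) (F q.2))
    (p : Sph) (R : stab hA p →* ℝ) (hR0 : ∀ g, 0 < R g)
    (hR : ∀ (g : stab hA p) (a b : Sph), a ≠ p → b ≠ p →
      dist (Ev F p (τ g.1 a)) (Ev F p (τ g.1 b)) = R g * dist (Ev F p a) (Ev F p b))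
    (hvc : ¬ ∃ (h : G) (S : Finset G), ∀ g, τ g p = p → ∃ s ∈ S, ∃ m : ℤ, g = s * h ^ m)
    (h : stab hA p) : ¬ R h < 1 := by
  intro hlt
  obtain ⟨o, ho'⟩ := exists_new {p}
  have ho : o ≠ p := by simpa using ho'
  have hpos := hR0 h
  set M : ℝ := dist (Ev F p (τ h.1 o)) (Ev F p o) / (1 - R h) with hM
  have h1R : 0 < 1 - R h := by linarith
  have hM0 : 0 ≤ M := by positivity
  have hMe : dist (Ev F p (τ h.1 o)) (Ev F p o) = (1 - R h) * M := by
    rw [hM]
    field_simp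
  -- displacement of the powers of `h`
  have hpow : ∀ n : ℕ, dist (Ev F p (τ (h ^ n).1 o)) (Ev F p o) ≤ M := by
    intro n
    induction n with
    | zero =>
      rw [pow_zero, OneMemClass.coe_one, hA.one, dist_self]
      exact hM0
    | succ n ih =>
      have e1 : τ (h ^ (n + 1)).1 o = τ h.1 (τ (h ^ n).1 o) := by
        rw [pow_succ', MulMemClass.coe_mul, hA.mul]
      rw [e1]
      have t := dist_triangle (Ev F p (τ h.1 (τ (h ^ n).1 o))) (Ev F p (τ h.1 o)) (Ev F p o)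
      rw [hR h _ _ (stab_ne hA (h ^ n) ho) ho, hMe] at t
      have := mul_le_mul_of_nonneg_left ih hpos.le
      nlinarith
  -- some power of `h` commutes with a given element
  have hcom : ∀ g : stab hA p, ∃ k : ℕ, 0 < k ∧ h ^ k * g = g * h ^ k := by
    intro g
    have hbd : ∀ n : ℕ, dist (Ev F p (τ (h ^ n * g * (h ^ n)⁻¹).1 o)) (Ev F p o) ≤
        R g * M + dist (Ev F p (τ g.1 o)) (Ev F p o) + M := by
      intro n
      have t1 := dist_triangle (Ev F p (τ (h ^ n * g * (h ^ n)⁻¹).1 o))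
        (Ev F p (τ (h ^ n * g).1 o)) (Ev F p o)
      have t2 := dist_triangle (Ev F p (τ (h ^ n * g).1 o)) (Ev F p (τ (h ^ n).1 o)) (Ev F p o)
      have e1 : dist (Ev F p (τ (h ^ n * g * (h ^ n)⁻¹).1 o)) (Ev F p (τ (h ^ n * g).1 o)) =
          R g * dist (Ev F p (τ (h ^ n).1 o)) (Ev F p o) := by
        rw [Subgroup.coe_mul _ (h ^ n * g) _, hA.mul,
          hR (h ^ n * g) _ _ (stab_ne hA (h ^ n)⁻¹ ho) ho, map_mul, mul_comm (R (h ^ n)), mul_assoc]
        congr 1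
        have e3 := hR (h ^ n) _ _ (stab_ne hA (h ^ n)⁻¹ ho) ho
        rw [← e3, ← hA.mul, ← MulMemClass.coe_mul, mul_inv_cancel, OneMemClass.coe_one, hA.one,
          dist_comm]
      have e2 : dist (Ev F p (τ (h ^ n * g).1 o)) (Ev F p (τ (h ^ n).1 o)) =
          R h ^ n * dist (Ev F p (τ g.1 o)) (Ev F p o) := by
        rw [MulMemClass.coe_mul, hA.mul, hR (h ^ n) _ _ (stab_ne hA g ho) ho, map_pow]
      have e3 := hpow n
      have e4 : R h ^ n * dist (Ev F p (τ g.1 o)) (Ev F p o) ≤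
          1 * dist (Ev F p (τ g.1 o)) (Ev F p o) :=
        mul_le_mul_of_nonneg_right (pow_le_one₀ hpos.le hlt.le) dist_nonneg
      have e5 := mul_le_mul_of_nonneg_left e3 (hR0 g).le
      linarith
    have hfin := par_finite hA hconv hF hsep p R hR0 hR o ho (max (R g) (R g)⁻¹)
      (R g * M + dist (Ev F p (τ g.1 o)) (Ev F p o) + M)
      (lt_max_of_lt_left (hR0 g)) (by have := hR0 g; positivity)
    have hmem : ∀ n : ℕ, h ^ n * g * (h ^ n)⁻¹ ∈ {g' : stab hA p |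
        (max (R g) (R g)⁻¹)⁻¹ ≤ R g' ∧ R g' ≤ max (R g) (R g)⁻¹ ∧
        dist (Ev F p (τ g'.1 o)) (Ev F p o) ≤
          R g * M + dist (Ev F p (τ g.1 o)) (Ev F p o) + M} := by
      intro n
      have e : R (h ^ n * g * (h ^ n)⁻¹) = R g := by
        rw [map_mul, map_mul, map_inv, mul_comm (R (h ^ n)), mul_assoc,
          mul_inv_cancel₀ (hR0 _).ne', mul_one]
      refine ⟨?_, ?_, hbd n⟩
      · rw [e]
        exact inv_le_of_inv_le₀ (hR0 g) (le_max_right _ _)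
      · rw [e]
        exact le_max_left _ _
    have hfin' := hfin.to_subtype
    obtain ⟨a, b, hab, he⟩ := Finite.exists_ne_map_eq_of_infinite
      (fun n : ℕ => (⟨_, hmem n⟩ : {g' : stab hA p |
        (max (R g) (R g)⁻¹)⁻¹ ≤ R g' ∧ R g' ≤ max (R g) (R g)⁻¹ ∧
        dist (Ev F p (τ g'.1 o)) (Ev F p o) ≤
          R g * M + dist (Ev F p (τ g.1 o)) (Ev F p o) + M}))
    have he' : h ^ a * g * (h ^ a)⁻¹ = h ^ b * g * (h ^ b)⁻¹ := congrArg Subtype.val he
    have key : ∀ a b : ℕ, a < b → h ^ a * g * (h ^ a)⁻¹ = h ^ b * g * (h ^ b)⁻¹ →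
        ∃ k : ℕ, 0 < k ∧ h ^ k * g = g * h ^ k := by
      intro a b hlt he
      refine ⟨b - a, by omega, ?_⟩
      have h4 : h ^ b = h ^ a * h ^ (b - a) := by
        rw [← pow_add]
        congr 1
        omega
      rw [h4, mul_inv_rev] at he
      have h5 : g = h ^ (b - a) * g * (h ^ (b - a))⁻¹ := by
        have h6 : h ^ a * g = h ^ a * (h ^ (b - a) * g * (h ^ (b - a))⁻¹) := by
          apply mul_right_cancel (b := (h ^ a)⁻¹)
          rw [he]
          group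
        exact mul_left_cancel h6
      calc h ^ (b - a) * g = h ^ (b - a) * g * (h ^ (b - a))⁻¹ * h ^ (b - a) := by
            rw [inv_mul_cancel_right]
        _ = g * h ^ (b - a) := by rw [← h5]
    rcases lt_or_gt_of_ne hab with hl | hl
    · exact key a b hl he'
    · exact key b a hl he'.symm
  -- displacement of all elements
  have hdis : ∀ g : stab hA p, dist (Ev F p (τ g.1 o)) (Ev F p o) ≤ (R g + 1) * M := by
    intro g
    obtain ⟨k, hk, hkc⟩ := hcom g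
    have hcomm : ∀ n : ℕ, (h ^ k) ^ n * g = g * (h ^ k) ^ n := fun n =>
      (Commute.pow_left (show Commute (h ^ k) g from hkc) n)
    have hRk : R (h ^ k) < 1 := by
      rw [map_pow]
      exact pow_lt_one₀ hpos.le hlt (by omega)
    have hn : ∀ n : ℕ, dist (Ev F p (τ g.1 o)) (Ev F p o) ≤
        R g * M + R (h ^ k) ^ n * dist (Ev F p (τ g.1 o)) (Ev F p o) + M := by
      intro n
      have hp : dist (Ev F p (τ ((h ^ k) ^ n).1 o)) (Ev F p o) ≤ M := by
        rw [← pow_mul]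
        exact hpow _
      have t1 := dist_triangle (Ev F p (τ g.1 o)) (Ev F p (τ ((h ^ k) ^ n * g).1 o)) (Ev F p o)
      have t2 := dist_triangle (Ev F p (τ ((h ^ k) ^ n * g).1 o))
        (Ev F p (τ ((h ^ k) ^ n).1 o)) (Ev F p o)
      have e1 : dist (Ev F p (τ g.1 o)) (Ev F p (τ ((h ^ k) ^ n * g).1 o)) ≤ R g * M := by
        rw [hcomm, MulMemClass.coe_mul, hA.mul, hR g _ _ ho (stab_ne hA ((h ^ k) ^ n) ho),
          dist_comm]
        exact mul_le_mul_of_nonneg_left hp (hR0 g).le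
      have e2 : dist (Ev F p (τ ((h ^ k) ^ n * g).1 o)) (Ev F p (τ ((h ^ k) ^ n).1 o)) =
          R (h ^ k) ^ n * dist (Ev F p (τ g.1 o)) (Ev F p o) := by
        rw [MulMemClass.coe_mul, hA.mul, hR ((h ^ k) ^ n) _ _ (stab_ne hA g ho) ho, map_pow]
      linarith
    have hlim : Tendsto (fun n : ℕ => R g * M + R (h ^ k) ^ n *
        dist (Ev F p (τ g.1 o)) (Ev F p o) + M) atTop
        (𝓝 (R g * M + 0 * dist (Ev F p (τ g.1 o)) (Ev F p o) + M)) :=
      (((tendsto_pow_atTop_nhds_zero_of_lt_one (hR0 _).le hRk).mul_const _).const_add _).add_const _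
    have := ge_of_tendsto' hlim hn
    linarith
  -- the stabiliser is virtually cyclic
  have hy : 1 < (R h)⁻¹ := (one_lt_inv₀ hpos).2 hlt
  have hfin := par_finite hA hconv hF hsep p R hR0 hR o ho (R h)⁻¹ (((R h)⁻¹ + 1) * M)
    (by positivity) (by positivity)
  apply hvc
  classical
  refine ⟨h.1, hfin.toFinset.image Subtype.val, fun g hg => ?_⟩
  obtain ⟨m, hm1, hm2⟩ := exists_mem_Ico_zpow (x := R ⟨g, hg⟩) (hR0 _) hy
  have hzp : 0 < R h ^ m := zpow_pos hpos m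
  rw [inv_zpow] at hm1
  have e : R (⟨g, hg⟩ * h ^ m) = R ⟨g, hg⟩ * R h ^ m := by
    rw [map_mul, map_zpow]
  have b1 : 1 ≤ R (⟨g, hg⟩ * h ^ m) := by
    rw [e]
    have := mul_le_mul_of_nonneg_right hm1 hzp.le
    rwa [inv_mul_cancel₀ hzp.ne'] at this
  have b2 : R (⟨g, hg⟩ * h ^ m) ≤ (R h)⁻¹ := by
    rw [e]
    rw [zpow_add₀ (by positivity), zpow_one, inv_zpow] at hm2
    have := mul_le_mul_of_nonneg_right hm2.le hzp.le
    rw [mul_comm ((R h ^ m)⁻¹) _, mul_assoc, inv_mul_cancel₀ hzp.ne', mul_one] at this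
    exact this
  refine ⟨(⟨g, hg⟩ * h ^ m : stab hA p).1, ?_, -m, ?_⟩
  · rw [Finset.mem_image]
    refine ⟨⟨g, hg⟩ * h ^ m, ?_, rfl⟩
    rw [Set.Finite.mem_toFinset]
    refine ⟨?_, b2, ?_⟩
    · rw [inv_inv]
      exact hlt.le.trans b1
    · refine (hdis _).trans (mul_le_mul_of_nonneg_right ?_ hM0)
      linarith
  · rw [MulMemClass.coe_mul]
    have : ((h ^ m : stab hA p) : G) = (h : G) ^ m := by simp
    rw [this, mul_assoc, ← zpow_add, add_neg_cancel, zpow_zero, mul_one]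

/-- the stabiliser of a parabolic point acts by isometries -/
theorem ratio_one (hA : RAct G τ)
    (hconv : ∀ f : ℕ → G, Function.Injective f → ∃ k : ℕ → ℕ, StrictMono k ∧ ∃ c d : Sph,
      ∀ y, y ≠ d → Tendsto (fun n => τ (f (k n)) y) atTop (𝓝 c))
    {F : Sph → Sph} (hF : Function.Injective F)
    (hsep : ∀ x y : Sph, x ≠ y → ∃ c : ℝ, 0 < c ∧ ∀ᶠ q in 𝓝 (x, y), c ≤ dist (F q.1) (F q.2))
    (p : Sph) (R : stab hA p →* ℝ) (hR0 : ∀ g, 0 < R g)
    (hR : ∀ (g : stab hA p) (a b : Sph), a ≠ p → b ≠ p →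
      dist (Ev F p (τ g.1 a)) (Ev F p (τ g.1 b)) = R g * dist (Ev F p a) (Ev F p b))
    (hvc : ¬ ∃ (h : G) (S : Finset G), ∀ g, τ g p = p → ∃ s ∈ S, ∃ m : ℤ, g = s * h ^ m)
    (g : stab hA p) : R g = 1 := by
  have h1 := not_contract hA hconv hF hsep p R hR0 hR hvc g
  have h2 := not_contract hA hconv hF hsep p R hR0 hR hvc g⁻¹
  rw [map_inv] at h2
  rw [not_lt] at h1 h2
  exact le_antisymm ((one_le_inv₀ (hR0 g)).1 h2) h1

/-- continuity at the parabolic points -/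
theorem cont_parabolic (hA : RAct G τ)
    (hconv : ∀ f : ℕ → G, Function.Injective f → ∃ k : ℕ → ℕ, StrictMono k ∧ ∃ c d : Sph,
      ∀ y, y ≠ d → Tendsto (fun n => τ (f (k n)) y) atTop (𝓝 c))
    {F : Sph → Sph} (hF : Function.Injective F) (hI : Inv G τ F)
    (hsep : ∀ x y : Sph, x ≠ y → ∃ c : ℝ, 0 < c ∧ ∀ᶠ q in 𝓝 (x, y), c ≤ dist (F q.1) (F q.2))
    (p : Sph) (hp : BoundedParabolic τ p) : ContinuousAt F p := by
  obtain ⟨⟨K, hK, hpK, hKP⟩, -, hvc⟩ := hp
  obtain ⟨R, hR0, hR⟩ := exists_hom hA hF hI p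
  have hR1 := ratio_one hA hconv hF hsep p R hR0 hR hvc
  obtain ⟨o, ho'⟩ := exists_new {p}
  have ho : o ≠ p := by simpa using ho'
  -- a uniform bound on `K`
  obtain ⟨c, hc, hcK⟩ : ∃ c : ℝ, 0 < c ∧ ∀ z ∈ K, c ≤ dist (F z) (F p) := by
    refine hK.induction_on (p := fun s => ∃ c : ℝ, 0 < c ∧ ∀ z ∈ s, c ≤ dist (F z) (F p))
      ⟨1, one_pos, fun z hz => absurd hz (Set.notMem_empty z)⟩ ?_ ?_ ?_
    · rintro s t hst ⟨c, hc, h⟩
      exact ⟨c, hc, fun z hz => h z (hst hz)⟩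
    · rintro s t ⟨c, hc, h⟩ ⟨c', hc', h'⟩
      refine ⟨min c c', lt_min hc hc', fun z hz => ?_⟩
      rcases hz with hz | hz
      · exact (min_le_left _ _).trans (h z hz)
      · exact (min_le_right _ _).trans (h' z hz)
    · intro x hx
      have hxp : x ≠ p := by
        rintro rfl
        exact hpK hx
      obtain ⟨c, hc, hev⟩ := hsep x p hxp
      have ht : Tendsto (fun z : Sph => (z, p)) (𝓝 x) (𝓝 (x, p)) :=
        tendsto_id.prodMk_nhds tendsto_const_nhds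
      have h1 : {z | c ≤ dist (F z) (F p)} ∈ 𝓝 x := ht.eventually hev
      exact ⟨_, mem_nhdsWithin_of_mem_nhds h1, c, hc, fun z hz => hz⟩
  rw [ContinuousAt, Metric.tendsto_nhds]
  intro δ hδ
  set R0 : ℝ := 1 / c + dist (Ev F p o) (F p).1 with hR0'
  set Rad : ℝ := 1 / δ + R0 + dist (Ev F p o) (F p).1 with hRad
  have hRad0 : 0 ≤ Rad := by positivity
  have hfin := par_finite hA hconv hF hsep p R hR0 hR o ho 1 Rad one_pos hRad0
  have hZ : IsClosed (⋃ g ∈ {g : stab hA p | 1⁻¹ ≤ R g ∧ R g ≤ 1 ∧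
      dist (Ev F p (τ g.1 o)) (Ev F p o) ≤ Rad}, τ g.1 '' K) :=
    hfin.isClosed_biUnion fun g _ => (hK.image (hA.cont g.1)).isClosed
  have hpZ : p ∉ ⋃ g ∈ {g : stab hA p | 1⁻¹ ≤ R g ∧ R g ≤ 1 ∧
      dist (Ev F p (τ g.1 o)) (Ev F p o) ≤ Rad}, τ g.1 '' K := by
    intro h
    simp only [Set.mem_iUnion] at h
    obtain ⟨g, -, z, hz, hzp⟩ := h
    have hzp' : z ≠ p := by
      rintro rfl
      exact hpK hz
    exact stab_ne hA g hzp' hzp
  filter_upwards [hZ.isOpen_compl.mem_nhds hpZ] with y hy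
  by_cases hyp : y = p
  · rw [hyp, dist_self]
    exact hδ
  obtain ⟨g, hg, hgy⟩ := hKP y hyp
  let γ : stab hA p := (⟨g, hg⟩ : stab hA p)⁻¹
  have hγ : τ γ.1 (τ g y) = y := by
    show τ g⁻¹ (τ g y) = y
    rw [← hA.mul, inv_mul_cancel, hA.one]
  have hzp : τ g y ≠ p := by
    intro h
    rw [h] at hgy
    exact hpK hgy
  have hbig : Rad < dist (Ev F p (τ γ.1 o)) (Ev F p o) := by
    by_contra hcon
    push Not at hcon
    apply hy
    simp only [Set.mem_iUnion]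
    refine ⟨γ, ⟨by rw [hR1, inv_one], (hR1 γ).le, hcon⟩, τ g y, hgy, hγ⟩
  have h1 : dist (Ev F p (τ g y)) (F p).1 ≤ 1 / c := by
    rw [Ev_center]
    exact one_div_le_one_div_of_le hc (hcK _ hgy)
  have h2 : dist (Ev F p (τ γ.1 o)) (Ev F p (τ γ.1 (τ g y))) =
      dist (Ev F p o) (Ev F p (τ g y)) := by
    rw [hR γ _ _ ho hzp, hR1, one_mul]
  rw [hγ] at h2
  have t1 := dist_triangle (Ev F p o) (F p).1 (Ev F p (τ g y))
  rw [dist_comm (F p).1 (Ev F p (τ g y))] at t1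
  have t2 := dist_triangle (Ev F p (τ γ.1 o)) (Ev F p y) (Ev F p o)
  have t3 := dist_triangle (Ev F p y) (F p).1 (Ev F p o)
  rw [dist_comm (F p).1 (Ev F p o)] at t3
  have h3 : 1 / δ < dist (Ev F p y) (F p).1 := by linarith
  rw [Ev_center] at h3
  have h4 : 0 < dist (F y) (F p) := dist_pos.2 fun h => hyp (hF h)
  exact (one_div_lt_one_div hδ h4).1 h3

end Pool.Agent.Y367.RC
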