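import Pool.Agent.Y367.RC.CovA
import Pool.Agent.Y367.RC.ParB

/-!
# The Dirichlet domain is a compact set with finitely many cusps
-/

set_option autoImplicit false
open Filter Topology

namespace Pool.Agent.Y367.RC

open Pool.Agent.Y320.CM hiding tau_inj cont_caseA exists_scale cont_caseB coord_of_point

variable {G : Type} [Group G] {τ : G → Sph → Sph}
variable {F : Sph → Sph} {ρ : G →* Matrix (Fin 4) (Fin 4) ℝ} {s : G → Sph → ℝ}

theorem Rep.inv (h : Rep G τ F ρ s) (hA : RAct G τ) : Inv G τ F := by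
  intro g a b c e hD
  obtain ⟨h1, h2, h3, h4, h5, h6⟩ := hD
  have ne : ∀ x y : Sph, x ≠ y → 0 < dist (F (τ g x)) (F (τ g y)) := fun x y hxy =>
    dist_pos.2 fun hh => hxy (tau_inj hA.one hA.mul g (h.inj hh))
  have pab := ne a b h1
  have pce := ne c e h6
  have pac := ne a c h2
  have pbe := ne b e h5
  have qa := h.pos g a
  have qb := h.pos g b
  have qc := h.pos g c
  have qe := h.pos g e
  have key : cr (F (τ g a)) (F (τ g b)) (F (τ g c)) (F (τ g e)) ^ 2 =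
      cr (F a) (F b) (F c) (F e) ^ 2 := by
    unfold cr
    rw [div_pow, div_pow, mul_pow, mul_pow, mul_pow, mul_pow, h.scale g a b, h.scale g c e,
      h.scale g a c, h.scale g b e]
    field_simp
  refine (pow_left_inj₀ ?_ ?_ two_ne_zero).1 key
  · unfold cr; positivity
  · unfold cr; positivity

theorem Rep.sep (h : Rep G τ F ρ s) (x y : Sph) (hxy : x ≠ y) :
    ∃ c : ℝ, 0 < c ∧ ∀ᶠ q in 𝓝 (x, y), c ≤ dist (F q.1) (F q.2) := by
  have hd : 0 < dist (F x) (F y) := dist_pos.2 fun hh => hxy (h.inj hh)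
  have hc : Continuous fun q : Sph × Sph => dist (F q.1) (F q.2) :=
    (h.cont.comp continuous_fst).dist (h.cont.comp continuous_snd)
  refine ⟨dist (F x) (F y) / 2, half_pos hd, ?_⟩
  filter_upwards [(hc.tendsto (x, y)).eventually (eventually_gt_nhds (half_lt_self hd))] with q hq
  exact hq.le

theorem Rep.s_one (h : Rep G τ F ρ s) (hA : RAct G τ)
    (hconv : ∀ f : ℕ → G, Function.Injective f → ∃ k : ℕ → ℕ, StrictMono k ∧ ∃ c d : Sph,
      ∀ y, y ≠ d → Tendsto (fun n => τ (f (k n)) y) atTop (𝓝 c))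
    (p : Sph)
    (hvc : ¬ ∃ (h : G) (S : Finset G), ∀ g, τ g p = p → ∃ s ∈ S, ∃ m : ℤ, g = s * h ^ m)
    (g : G) (hg : τ g p = p) : s g p = 1 := by
  obtain ⟨R, hR0, hR⟩ := exists_hom hA h.inj (h.inv hA) p
  have h1 := ratio_one hA hconv h.inj h.sep p R hR0 hR hvc ⟨g, hg⟩
  obtain ⟨a, ha'⟩ := exists_new {p}
  obtain ⟨b, hb'⟩ := exists_new {p, a}
  simp only [Finset.mem_insert, Finset.mem_singleton, not_or] at ha' hb'
  have ha : a ≠ p := ha'
  have h2 := hR ⟨g, hg⟩ b a hb'.1 ha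
  have h3 := ratio_of_scale hA h.inj p ⟨g, hg⟩ (s g) (h.pos g) (fun a b _ => h.scale g a b) b a
    hb'.1 ha
  rw [h2, h1] at h3
  have hD : 0 < dist (Ev F p b) (Ev F p a) := by
    rw [Ev_dist h.inj hb'.1 ha]
    have d1 : 0 < dist (F a) (F p) := dist_pos.2 fun hh => ha (h.inj hh)
    have d2 : 0 < dist (F b) (F p) := dist_pos.2 fun hh => hb'.1 (h.inj hh)
    have d3 : 0 < dist (F b) (F a) := dist_pos.2 fun hh => hb'.2 (h.inj hh)
    positivity
  exact (mul_right_cancel₀ hD.ne' h3).symm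

/-- `c` is a size of the cusp at `p` -/
def CuspSize (G : Type) [Group G] (τ : G → Sph → Sph) (F : Sph → Sph) (s : G → Sph → ℝ)
    (p : Sph) (c : ℝ) : Prop :=
  0 < c ∧ ∀ y, y ≠ p → (∀ g, 1 ≤ s g y) → c ≤ dist (F y) (F p)

theorem Rep.cusp (h : Rep G τ F ρ s) (hA : RAct G τ)
    (hconv : ∀ f : ℕ → G, Function.Injective f → ∃ k : ℕ → ℕ, StrictMono k ∧ ∃ c d : Sph,
      ∀ y, y ≠ d → Tendsto (fun n => τ (f (k n)) y) atTop (𝓝 c))
    (p : Sph) (hp : BoundedParabolic τ p) :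
    ∃ c : ℝ, 0 < c ∧ ∀ y, y ≠ p → (∀ g, τ g p = p → 1 ≤ s g y) → c ≤ dist (F y) (F p) := by
  obtain ⟨⟨K, hK, hpK, hKP⟩, -, hvc⟩ := hp
  have hs1 := h.s_one hA hconv p hvc
  obtain ⟨c, hc, hcK⟩ : ∃ c : ℝ, 0 < c ∧ ∀ z ∈ K, c ≤ dist (F z) (F p) := by
    refine hK.induction_on (p := fun s => ∃ c : ℝ, 0 < c ∧ ∀ z ∈ s, c ≤ dist (F z) (F p))
      ⟨1, one_pos, fun z hz => absurd hz (Set.notMem_empty z)⟩ ?_ ?_ ?_
    · rintro s t hst ⟨c, hc, h⟩
      exact ⟨c, hc, fun z hz => h z (hst hz)⟩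
    · rintro s t ⟨c, hc, h⟩ ⟨c', hc', h'⟩
      refine ⟨min c c', lt_min hc hc', fun z hz => ?_⟩
      rcases hz with hz | hz
      · exact (min_le_left _ _).trans (h z hz)
      · exact (min_le_right _ _).trans (h' z hz)
    · intro x hx
      have hxp : x ≠ p := by
        rintro rfl
        exact hpK hx
      obtain ⟨c, hc, hev⟩ := h.sep x p hxp
      have ht : Tendsto (fun z : Sph => (z, p)) (𝓝 x) (𝓝 (x, p)) :=
        tendsto_id.prodMk_nhds tendsto_const_nhds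
      have h1 : {z | c ≤ dist (F z) (F p)} ∈ 𝓝 x := ht.eventually hev
      exact ⟨_, mem_nhdsWithin_of_mem_nhds h1, c, hc, fun z hz => hz⟩
  refine ⟨c, hc, fun y hy hys => ?_⟩
  obtain ⟨g, hg, hgK⟩ := hKP y hy
  have h1 := h.scale g y p
  rw [hs1 g hg, mul_one, hg] at h1
  have h2 := hcK _ hgK
  have h3 := hys g hg
  have h4 : c ^ 2 ≤ dist (F y) (F p) ^ 2 := by
    rw [h1]
    have h5 : c ^ 2 ≤ dist (F (τ g y)) (F p) ^ 2 := pow_le_pow_left₀ hc.le h2 2
    nlinarith [sq_nonneg (dist (F (τ g y)) (F p))]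
  exact le_of_sq_le_sq h4 dist_nonneg

/-- points of the Dirichlet domain in the coordinates of a cusp -/
theorem Rep.tube (h : Rep G τ F ρ s) (p : Sph) (c : ℝ) (hc : 0 < c)
    (hs1 : ∀ g, τ g p = p → s g p = 1)
    (hcp : ∀ y, y ≠ p → (∀ g, τ g p = p → 1 ≤ s g y) → c ≤ dist (F y) (F p))
    (v : V) (hv : v ∈ Dir ρ) :
    ∃ (t μ : ℝ) (q : Sph), 0 < t ∧ 0 < μ ∧ μ ≤ 2 / c ^ 2 ∧
      v = (t / 2) • N (F p) + (μ / t) • N q ∧ - B v (N (F p)) = 1 / t := by
  obtain ⟨hvH, hvD⟩ := hv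
  obtain ⟨n, hn⟩ : ∃ n, n = N (F p) := ⟨_, rfl⟩
  have hnn : B n n = 0 := by
    rw [hn, BN, dist_self]
    ring
  have hvv : B v v = -1 := by
    obtain ⟨h0, h1⟩ := hvH
    simp only [B]
    linarith
  obtain ⟨b, hb⟩ : ∃ b, b = - B v n := ⟨_, rfl⟩
  have hb0 : 0 < b := by
    have h1 := (Pool.Agent.Y638.CM.hyp_bound v hvH (F p)).1
    rw [← hn, ← hb] at h1
    have h2 := hvH.1
    by_contra hcon
    push Not at hcon
    nlinarith
  have hvn : B v n = -b := by rw [hb]; ring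
  have hmul : b * b⁻¹ = 1 := mul_inv_cancel₀ hb0.ne'
  obtain ⟨t, ht⟩ : ∃ t, t = b⁻¹ := ⟨_, rfl⟩
  have ht0 : 0 < t := by rw [ht]; positivity
  rw [← ht] at hmul
  obtain ⟨m, hm⟩ : ∃ m : V, m = t • v + (-(t ^ 2 / 2)) • n := ⟨_, rfl⟩
  have hmm : B m m = 0 := by
    rw [hm, B_add_left, B_add_right, B_add_right, B_smul_left, B_smul_left, B_smul_left,
      B_smul_left, B_smul_right, B_smul_right, B_smul_right, B_smul_right, hnn, hvv, hvn,
      B_comm n v, hvn]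
    linear_combination (t ^ 2) * hmul
  have hmn : B m n = -1 := by
    rw [hm, B_add_left, B_smul_left, B_smul_left, hnn, hvn]
    linear_combination -hmul
  obtain ⟨q, hq, hm0⟩ := null_vec m (F p) hmm (by rw [← hn, hmn]; norm_num)
  obtain ⟨y, hy⟩ := h.surj q
  have hve : v = (t / 2) • n + (m 0 / t) • N q := by
    have h1 : (m 0 / t) • N q = (1 / t) • m := by
      conv_rhs => rw [hq]
      rw [smul_smul]
      congr 1
      ring
    rw [h1, hm, smul_add, smul_smul, smul_smul, one_div_mul_cancel ht0.ne', one_smul]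
    have h2 : 1 / t * -(t ^ 2 / 2) = -(t / 2) := by field_simp
    rw [h2, neg_smul]
    abel
  have hd2 : m 0 * dist (F y) (F p) ^ 2 = 2 := by
    have h1 : B (m 0 • N q) n = -1 := by rw [← hq]; exact hmn
    rw [B_smul_left, hn, ← hy, BN] at h1
    linarith
  have hyp : y ≠ p := by
    rintro rfl
    rw [dist_self] at hd2
    norm_num at hd2
  have hy1 : ∀ g, τ g p = p → 1 ≤ s g y := by
    intro g hg
    have h1 := hvD g
    have h2 : Matrix.mulVec (ρ g) v = (t / 2) • N (F p) + (m 0 / t) • (s g y • N (F (τ g y))) := by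
      rw [hve, Matrix.mulVec_add, Matrix.mulVec_smul, Matrix.mulVec_smul, hn, h.eq, hg,
        hs1 g hg, one_smul, ← hy, h.eq]
    have h3 : (Matrix.mulVec (ρ g) v) 0 = t / 2 + m 0 / t * s g y := by
      rw [h2]
      simp only [Pi.add_apply, Pi.smul_apply, smul_eq_mul, N_zero, mul_one]
    have h4 : v 0 = t / 2 + m 0 / t := by
      rw [hve, hn]
      simp only [Pi.add_apply, Pi.smul_apply, smul_eq_mul, N_zero, mul_one]
    rw [h3] at h1
    have h5 : m 0 / t ≤ m 0 / t * s g y := by linarith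
    have h6 : 0 < m 0 / t := by positivity
    by_contra hcon
    push Not at hcon
    nlinarith
  have hcd := hcp y hyp hy1
  refine ⟨t, m 0, q, ht0, hm0, ?_, by rw [← hn]; exact hve, ?_⟩
  · rw [le_div_iff₀ (by positivity)]
    have h1 : c ^ 2 ≤ dist (F y) (F p) ^ 2 := pow_le_pow_left₀ hc.le hcd 2
    calc m 0 * c ^ 2 ≤ m 0 * dist (F y) (F p) ^ 2 := mul_le_mul_of_nonneg_left h1 hm0.le
      _ = 2 := hd2
  · rw [← hn, hvn, ht]
    simp

theorem Rep.s_cont (h : Rep G τ F ρ s) (g : G) : Continuous fun x => s g x := by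
  have h1 : (fun x => s g x) = fun x => (Matrix.mulVec (ρ g) (N (F x))) 0 := by
    funext x
    rw [h.eq]
    simp only [Pi.smul_apply, smul_eq_mul, N_zero, mul_one]
  rw [h1]
  exact (continuous_apply 0).comp ((continuous_mulVec _).comp (continuous_N.comp h.cont))

/-- finitely many cusps -/
theorem Rep.cusps_finite (h : Rep G τ F ρ s)
    (hL : ∀ x, (∀ g, 1 ≤ s g x) → ∃ c : ℝ, 0 < c ∧ ∀ y, y ≠ x → (∀ g, 1 ≤ s g y) →
      c ≤ dist (F y) (F x)) : {x | ∀ g, 1 ≤ s g x}.Finite := by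
  by_contra hinf
  have hcl : IsClosed {x | ∀ g, 1 ≤ s g x} := by
    have : {x | ∀ g, 1 ≤ s g x} = ⋂ g : G, {x | 1 ≤ s g x} := by
      ext x
      simp only [Set.mem_setOf_eq, Set.mem_iInter]
    rw [this]
    exact isClosed_iInter fun g => isClosed_le continuous_const (h.s_cont g)
  obtain ⟨x, hx, hacc⟩ := Set.Infinite.exists_accPt_of_subset_isCompact
    (show {x | ∀ g, 1 ≤ s g x}.Infinite from hinf) hcl.isCompact (subset_refl _)
  obtain ⟨c, hc, hxc⟩ := hL x hx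
  rw [accPt_iff_nhds] at hacc
  obtain ⟨y, ⟨hyU, hy⟩, hyx⟩ := hacc {y | dist (F y) (F x) < c} (by
    have h1 : Tendsto F (𝓝 x) (𝓝 (F x)) := h.cont.tendsto x
    exact h1 (Metric.ball_mem_nhds _ hc))
  exact absurd (hxc y hyx hy) (not_le.2 hyU)

/-- a neighbourhood of the end of a cusp -/
def Tube (u : Sph) (Λ : ℝ) : Set V :=
  {v | ∃ (t μ : ℝ) (q : Sph), 1 ≤ t ∧ 0 < μ ∧ μ ≤ Λ ∧ v = (t / 2) • N u + (μ / t) • N q}

theorem Rep.exhaust (h : Rep G τ F ρ s) (hA : RAct G τ)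
    (hconv : ∀ f : ℕ → G, Function.Injective f → ∃ k : ℕ → ℕ, StrictMono k ∧ ∃ c d : Sph,
      ∀ y, y ≠ d → Tendsto (fun n => τ (f (k n)) y) atTop (𝓝 c))
    (hpts : ∀ x, Conical τ x ∨ BoundedParabolic τ x) :
    ∃ (T : ℝ) (L : Finset Sph) (Λ : Sph → ℝ), ∀ v ∈ Dir ρ, v 0 ≤ T ∨ ∃ p ∈ L,
      v ∈ Tube (F p) (Λ p) := by
  have hpar : ∀ x, (∀ g, 1 ≤ s g x) → BoundedParabolic τ x := by
    intro x hx
    rcases hpts x with h1 | h1
    · obtain ⟨g, hg⟩ := h.conical h1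
      exact absurd (hx g) (not_le.2 hg)
    · exact h1
  have hcex : ∀ x, ∃ c : ℝ, (∀ g, 1 ≤ s g x) → 0 < c ∧
      ∀ y, y ≠ x → (∀ g, τ g x = x → 1 ≤ s g y) → c ≤ dist (F y) (F x) := by
    intro x
    by_cases hx : ∀ g, 1 ≤ s g x
    · obtain ⟨c, hc1, hc2⟩ := h.cusp hA hconv x (hpar x hx)
      exact ⟨c, fun _ => ⟨hc1, hc2⟩⟩
    · exact ⟨0, fun hh => absurd hh hx⟩
  choose c hc using hcex
  have hfin := h.cusps_finite fun x hx => ⟨c x, (hc x hx).1, fun y hy hys =>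
    (hc x hx).2 y hy fun g _ => hys g⟩
  by_contra hcon
  push Not at hcon
  choose v hvD hvT hvL using fun k : ℕ => hcon k hfin.toFinset fun p => 2 / c p ^ 2
  have hv0 : ∀ k, 0 < v k 0 := fun k => (hvD k).1.1
  let w : ℕ → V := fun k => (v k 0)⁻¹ • v k
  have hwb : ∀ k, w k ∈ Metric.closedBall (0 : V) 1 := by
    intro k
    rw [mem_closedBall_zero_iff, pi_norm_le_iff_of_nonneg zero_le_one]
    intro i
    show ‖(v k 0)⁻¹ * v k i‖ ≤ 1
    rw [Real.norm_eq_abs, abs_mul, abs_of_pos (inv_pos.2 (hv0 k)), inv_mul_le_iff₀ (hv0 k), mul_one]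
    exact hyp_le _ (hvD k).1 i
  obtain ⟨w0, -, φ, hφ, hφt⟩ := tendsto_subseq_of_bounded Metric.isBounded_closedBall hwb
  have hw0 : ∀ k, w k 0 = 1 := fun k => inv_mul_cancel₀ (hv0 k).ne'
  have hw00 : w0 0 = 1 := by
    have h1 : Tendsto (fun k => (w ∘ φ) k 0) atTop (𝓝 (w0 0)) := (tendsto_pi_nhds.1 hφt) 0
    simp only [Function.comp_apply, hw0] at h1
    exact (tendsto_nhds_unique h1 tendsto_const_nhds)
  have hinf : Tendsto (fun k => v (φ k) 0) atTop atTop := by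
    refine tendsto_atTop_mono (fun k => (hvT (φ k)).le) ?_
    exact tendsto_natCast_atTop_atTop.comp hφ.tendsto_atTop
  have hww : B w0 w0 = 0 := by
    have h1 : Tendsto (fun k => B ((w ∘ φ) k) ((w ∘ φ) k)) atTop (𝓝 (B w0 w0)) :=
      (continuous_B.tendsto (w0, w0)).comp (hφt.prodMk_nhds hφt)
    have h2 : Tendsto (fun k => -((v (φ k) 0)⁻¹ * (v (φ k) 0)⁻¹)) atTop (𝓝 (-(0 * 0))) :=
      ((tendsto_inv_atTop_zero.comp hinf).mul (tendsto_inv_atTop_zero.comp hinf)).neg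
    have h3 : ∀ k, B ((w ∘ φ) k) ((w ∘ φ) k) = -((v (φ k) 0)⁻¹ * (v (φ k) 0)⁻¹) := by
      intro k
      show B ((v (φ k) 0)⁻¹ • v (φ k)) ((v (φ k) 0)⁻¹ • v (φ k)) = _
      rw [B_smul_left, B_smul_right]
      have h4 : B (v (φ k)) (v (φ k)) = -1 := by
        obtain ⟨h0, h1⟩ := (hvD (φ k)).1
        simp only [B]
        linarith
      rw [h4]
      ring
    simp only [h3] at h1
    have := tendsto_nhds_unique h1 h2
    rw [this]
    ring
  obtain ⟨q, hq0, hq1, hq2⟩ := Pool.Agent.Y31.CM.exists_sph (w0 1) (w0 2) (w0 3) (by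
    simp only [B, hw00] at hww
    linarith)
  have hwq : w0 = N q := by
    funext i
    fin_cases i
    · exact hw00
    · exact hq0.symm
    · exact hq1.symm
    · exact hq2.symm
  obtain ⟨x, hx⟩ := h.surj q
  have hxL : ∀ g, 1 ≤ s g x := by
    intro g
    have h1 : Tendsto (fun k => (Matrix.mulVec (ρ g) ((w ∘ φ) k)) 0) atTop
        (𝓝 ((Matrix.mulVec (ρ g) w0) 0)) :=
      (((continuous_apply 0).comp (continuous_mulVec (ρ g))).tendsto w0).comp hφt
    have h2 : (Matrix.mulVec (ρ g) w0) 0 = s g x := by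
      rw [hwq, ← hx, h.eq]
      simp only [Pi.smul_apply, smul_eq_mul, N_zero, mul_one]
    rw [h2] at h1
    refine ge_of_tendsto' h1 fun k => ?_
    have h3 := (hvD (φ k)).2 g
    show 1 ≤ (Matrix.mulVec (ρ g) ((v (φ k) 0)⁻¹ • v (φ k))) 0
    rw [Matrix.mulVec_smul]
    show 1 ≤ (v (φ k) 0)⁻¹ * (Matrix.mulVec (ρ g) (v (φ k))) 0
    rw [← inv_mul_cancel₀ (hv0 (φ k)).ne']
    exact mul_le_mul_of_nonneg_left h3 (inv_pos.2 (hv0 _)).le
  obtain ⟨hc0, hcx⟩ := hc x hxL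
  have hs1 := h.s_one hA hconv x (hpar x hxL).2.2
  have hlim : Tendsto (fun k => - B ((w ∘ φ) k) (N (F x))) atTop (𝓝 (- B w0 (N (F x)))) :=
    ((continuous_B.tendsto (w0, N (F x))).comp (hφt.prodMk_nhds tendsto_const_nhds)).neg
  have hzero : - B w0 (N (F x)) = 0 := by
    rw [hwq, hx, BN, dist_self]
    ring
  rw [hzero] at hlim
  have hlow : ∀ k, (1 / 2 + 2 / c x ^ 2)⁻¹ ≤ - B ((w ∘ φ) k) (N (F x)) := by
    intro k
    obtain ⟨t, μ, q', ht, hμ, hμΛ, hve, hB⟩ := h.tube x (c x) hc0 hs1 hcx (v (φ k)) (hvD (φ k))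
    have ht1 : t < 1 := by
      by_contra hge
      push Not at hge
      exact hvL (φ k) x (by rw [Set.Finite.mem_toFinset]; exact hxL)
        ⟨t, μ, q', hge, hμ, hμΛ, hve⟩
    have h4 : v (φ k) 0 = t / 2 + μ / t := by
      rw [hve]
      simp only [Pi.add_apply, Pi.smul_apply, smul_eq_mul, N_zero, mul_one]
    show _ ≤ - B ((v (φ k) 0)⁻¹ • v (φ k)) (N (F x))
    rw [B_smul_left, ← mul_neg, hB, ← one_div, ← one_div, one_div_mul_one_div]
    have hvt : v (φ k) 0 * t = t ^ 2 / 2 + μ := by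
      rw [h4]
      field_simp
    have hpos : 0 < v (φ k) 0 * t := mul_pos (hv0 _) ht
    refine one_div_le_one_div_of_le hpos ?_
    rw [hvt]
    nlinarith
  have hle := ge_of_tendsto' hlim hlow
  have hpos : 0 < (1 / 2 + 2 / c x ^ 2)⁻¹ := by positivity
  linarith

end Pool.Agent.Y367.RC
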