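import Pool.Agent.Y367.RC.CovB

/-!
# The covolume is finite
-/

set_option autoImplicit false
open Filter Topology MeasureTheory

namespace Pool.Agent.Y367.RC

open Pool.Agent.Y320.CM hiding tau_inj cont_caseA exists_scale cont_caseB coord_of_point

/-- the point of the hyperboloid over `x` -/
noncomputable def lft (x : Fin 3 → ℝ) : V := ![√(1 + x 0 ^ 2 + x 1 ^ 2 + x 2 ^ 2), x 0, x 1, x 2]

theorem sph_abs (u : Sph) (i : Fin 3) : |u.1 i| ≤ 1 := by
  have h := sph_sq u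
  rw [abs_le_one_iff_mul_self_le_one]
  fin_cases i
  · show u.1 0 * u.1 0 ≤ 1
    nlinarith [sq_nonneg (u.1 1), sq_nonneg (u.1 2)]
  · show u.1 1 * u.1 1 ≤ 1
    nlinarith [sq_nonneg (u.1 0), sq_nonneg (u.1 2)]
  · show u.1 2 * u.1 2 ≤ 1
    nlinarith [sq_nonneg (u.1 0), sq_nonneg (u.1 1)]

theorem summable_aux (C : ℝ) : Summable fun k : ℕ => (2 * (C / √((k : ℝ) + 1))) ^ 3 := by
  have h1 : Summable fun n : ℕ => 1 / (n : ℝ) ^ (3 / 2 : ℝ) :=
    Real.summable_one_div_nat_rpow.2 (by norm_num)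
  have h2 := (summable_nat_add_iff 1).2 h1
  refine (h2.mul_left ((2 * C) ^ 3)).congr fun k => ?_
  have h3 : (((k + 1 : ℕ) : ℝ)) ^ (3 / 2 : ℝ) = √((k : ℝ) + 1) ^ 3 := by
    rw [Real.sqrt_eq_rpow, ← Real.rpow_natCast, ← Real.rpow_mul (by positivity)]
    push_cast
    norm_num
  rw [h3, mul_one_div, ← mul_div_assoc 2 C, div_pow]

theorem tube_vol (u : Sph) (Λ : ℝ) : volume {x : Fin 3 → ℝ | lft x ∈ Tube u Λ} < ⊤ := by
  let r : ℕ → ℝ := fun k => (1 + |Λ|) / √((k : ℝ) + 1)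
  let c : ℕ → Fin 3 → ℝ := fun k i => √((k : ℝ) + 1) / 2 * u.1 i
  have hr : ∀ k, 0 < r k := fun k => by
    have : 0 < √((k : ℝ) + 1) := Real.sqrt_pos.2 (by positivity)
    positivity
  have hsub : {x : Fin 3 → ℝ | lft x ∈ Tube u Λ} ⊆ ⋃ k, Metric.ball (c k) (r k) := by
    rintro x ⟨t, μ, q, ht, hμ, hμΛ, hx⟩
    have hxi : ∀ i : Fin 3, x i = t / 2 * u.1 i + μ / t * q.1 i := by
      intro i
      fin_cases i
      · exact congrFun hx 1
      · exact congrFun hx 2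
      · exact congrFun hx 3
    have ht0 : 0 < t := by linarith
    have ht2 : 1 ≤ t ^ 2 := by nlinarith
    obtain ⟨k, hk⟩ : ∃ k : ℕ, ⌊t ^ 2⌋₊ = k + 1 := by
      have h1 : 0 < ⌊t ^ 2⌋₊ := Nat.floor_pos.2 ht2
      exact ⟨⌊t ^ 2⌋₊ - 1, by omega⟩
    have h1 : (k : ℝ) + 1 ≤ t ^ 2 := by
      have := Nat.floor_le (show 0 ≤ t ^ 2 by positivity)
      rw [hk] at this
      push_cast at this
      exact this
    have h2 : t ^ 2 < (k : ℝ) + 2 := by
      have := Nat.lt_floor_add_one (t ^ 2)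
      rw [hk] at this
      push_cast at this
      linarith
    rw [Set.mem_iUnion]
    refine ⟨k, ?_⟩
    rw [Metric.mem_ball, dist_pi_lt_iff (hr k)]
    intro i
    rw [Real.dist_eq, hxi]
    show |t / 2 * u.1 i + μ / t * q.1 i - √((k : ℝ) + 1) / 2 * u.1 i| <
      (1 + |Λ|) / √((k : ℝ) + 1)
    obtain ⟨a, ha⟩ : ∃ a, a = √((k : ℝ) + 1) := ⟨_, rfl⟩
    rw [← ha]
    have ha0 : 0 < a := by
      rw [ha]
      exact Real.sqrt_pos.2 (by positivity)
    have ha2 : a ^ 2 = (k : ℝ) + 1 := by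
      rw [ha]
      exact Real.sq_sqrt (by positivity)
    have hat : a ≤ t := le_of_sq_le_sq (by rw [ha2]; exact h1) ht0.le
    have hd : (t - a) * a < 1 := by nlinarith
    have hda : t - a < 1 / a := by
      rw [lt_div_iff₀ ha0]
      exact hd
    have hμt : μ / t ≤ |Λ| / a := by
      have h3 : μ ≤ |Λ| := hμΛ.trans (le_abs_self Λ)
      exact div_le_div₀ (abs_nonneg _) h3 ha0 hat
    have e1 : t / 2 * u.1 i + μ / t * q.1 i - a / 2 * u.1 i =
        (t - a) / 2 * u.1 i + μ / t * q.1 i := by ring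
    rw [e1]
    have b1 : |(t - a) / 2 * u.1 i| ≤ (t - a) / 2 := by
      rw [abs_mul, abs_of_nonneg (by linarith)]
      calc (t - a) / 2 * |u.1 i| ≤ (t - a) / 2 * 1 :=
            mul_le_mul_of_nonneg_left (sph_abs u i) (by linarith)
        _ = _ := mul_one _
    have b2 : |μ / t * q.1 i| ≤ μ / t := by
      rw [abs_mul, abs_of_pos (by positivity)]
      calc μ / t * |q.1 i| ≤ μ / t * 1 :=
            mul_le_mul_of_nonneg_left (sph_abs q i) (by positivity)
        _ = _ := mul_one _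
    have b3 := abs_add_le ((t - a) / 2 * u.1 i) (μ / t * q.1 i)
    have b4 : (1 + |Λ|) / a = 1 / a + |Λ| / a := by ring
    rw [b4]
    have b5 : 0 ≤ t - a := by linarith
    linarith
  refine (measure_mono hsub).trans_lt ((measure_iUnion_le _).trans_lt ?_)
  have hv : ∀ k, volume (Metric.ball (c k) (r k)) = ENNReal.ofReal ((2 * r k) ^ 3) := by
    intro k
    rw [Real.volume_pi_ball _ (hr k), Fintype.card_fin]
  simp only [hv]
  exact (summable_aux (1 + |Λ|)).tsum_ofReal_lt_top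

theorem hypVol_le (D : Set V) : hypVol D ≤ volume {x : Fin 3 → ℝ | lft x ∈ D} := by
  unfold hypVol
  calc _ ≤ lintegral (volume.restrict {x : Fin 3 → ℝ | lft x ∈ D}) (fun _ => 1) := by
        refine lintegral_mono fun x => ?_
        rw [ENNReal.ofReal_le_one]
        have h1 : (1 : ℝ) ≤ √(1 + x 0 ^ 2 + x 1 ^ 2 + x 2 ^ 2) := by
          rw [Real.one_le_sqrt]
          nlinarith [sq_nonneg (x 0), sq_nonneg (x 1), sq_nonneg (x 2)]
        rw [div_le_one (by linarith)]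
        exact h1
    _ = _ := by rw [lintegral_one, Measure.restrict_apply_univ]

theorem dir_vol (D : Set V) (F : Sph → Sph) (T : ℝ) (L : Finset Sph) (Λ : Sph → ℝ)
    (h : ∀ v ∈ D, v 0 ≤ T ∨ ∃ p ∈ L, v ∈ Tube (F p) (Λ p)) : hypVol D < ⊤ := by
  refine (hypVol_le D).trans_lt ?_
  have hsub : {x : Fin 3 → ℝ | lft x ∈ D} ⊆ {x : Fin 3 → ℝ | (lft x) 0 ≤ T} ∪
      ⋃ p ∈ (L : Set Sph), {x : Fin 3 → ℝ | lft x ∈ Tube (F p) (Λ p)} := by
    intro x hx
    rcases h _ hx with h1 | ⟨p, hp, h1⟩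
    · exact Or.inl h1
    · exact Or.inr (Set.mem_biUnion hp h1)
  refine (measure_mono hsub).trans_lt ?_
  rw [measure_union_lt_top_iff]
  constructor
  · have hb : {x : Fin 3 → ℝ | (lft x) 0 ≤ T} ⊆ Metric.closedBall 0 |T| := by
      intro x hx
      rw [mem_closedBall_zero_iff, pi_norm_le_iff_of_nonneg (abs_nonneg _)]
      have h1 : √(1 + x 0 ^ 2 + x 1 ^ 2 + x 2 ^ 2) ≤ T := hx
      have h2 : ∀ i : Fin 3, |x i| ≤ √(1 + x 0 ^ 2 + x 1 ^ 2 + x 2 ^ 2) := by
        intro i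
        rw [← Real.sqrt_sq_eq_abs]
        refine Real.sqrt_le_sqrt ?_
        fin_cases i
        · show x 0 ^ 2 ≤ _
          nlinarith [sq_nonneg (x 0), sq_nonneg (x 1), sq_nonneg (x 2)]
        · show x 1 ^ 2 ≤ _
          nlinarith [sq_nonneg (x 0), sq_nonneg (x 1), sq_nonneg (x 2)]
        · show x 2 ^ 2 ≤ _
          nlinarith [sq_nonneg (x 0), sq_nonneg (x 1), sq_nonneg (x 2)]
      intro i
      rw [Real.norm_eq_abs]
      exact (h2 i).trans (h1.trans (le_abs_self T))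
    exact (measure_mono hb).trans_lt measure_closedBall_lt_top
  · exact measure_biUnion_lt_top L.finite_toSet fun p _ => tube_vol _ _

end Pool.Agent.Y367.RC
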