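import Pool.Agent.Y367.RC.Defs

set_option autoImplicit false
open Filter Topology

namespace Pool.Agent.Y367.RC

open Pool.Agent.Y320.CM

variable {G : Type} [Group G] {τ : G → Sph → Sph}

/-- pointwise consequence of the convergence property -/
theorem GeometricallyFinite.ptwise (h : GeometricallyFinite G τ) (f : ℕ → G)
    (hf : Function.Injective f) : ∃ k : ℕ → ℕ, StrictMono k ∧ ∃ c d : Sph,
    ∀ y, y ≠ d → Tendsto (fun n => τ (f (k n)) y) atTop (𝓝 c) := by
  obtain ⟨k, hk, c, d, hcd⟩ := h.convergence f hf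
  refine ⟨k, hk, c, d, fun y hy => ?_⟩
  have := hcd {y} isCompact_singleton (by simpa using hy.symm)
  exact this.tendsto_at (Set.mem_singleton y)

omit [Group G] in
theorem seq_of_infinite {T : Set G} (hT : T.Infinite) :
    ∃ f : ℕ → G, Function.Injective f ∧ ∀ n, f n ∈ T :=
  ⟨fun n => (hT.natEmbedding T n : G), fun _ _ hab => (hT.natEmbedding T).injective
    (Subtype.ext hab), fun n => (hT.natEmbedding T n).2⟩

theorem GeometricallyFinite.prop (h : GeometricallyFinite G τ) (a b e : Sph) (hab : a ≠ b)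
    (hae : a ≠ e) (hbe : b ≠ e) (c : ℝ) (hc : 0 < c) :
    {g : G | c ≤ dist (τ g a) (τ g b) ∧ c ≤ dist (τ g a) (τ g e) ∧
      c ≤ dist (τ g b) (τ g e)}.Finite := by
  by_contra hcon
  obtain ⟨f, hf, hfT⟩ := seq_of_infinite (G := G) (T := _) hcon
  obtain ⟨k, hk, v, d, hv⟩ := h.ptwise f hf
  have key : ∀ x y : Sph, x ≠ d → y ≠ d → (∀ n, c ≤ dist (τ (f n) x) (τ (f n) y)) → False := by
    intro x y hx hy hxy
    have h1 := (hv x hx).dist (hv y hy)
    rw [dist_self] at h1
    have := ge_of_tendsto h1 (Eventually.of_forall fun n => hxy (k n))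
    linarith
  by_cases h1 : a = d
  · exact key b e (by rw [← h1]; exact hab.symm) (by rw [← h1]; exact hae.symm)
      fun n => (hfT n).2.2
  · by_cases h2 : b = d
    · exact key a e h1 (by rw [← h2]; exact hbe.symm) fun n => (hfT n).2.1
    · exact key a b h1 h2 fun n => (hfT n).1

/-- two different points different from a given one -/
theorem two_new (d : Sph) : ∃ y1 y2 : Sph, y1 ≠ d ∧ y2 ≠ d ∧ y1 ≠ y2 := by
  obtain ⟨y1, h1⟩ := exists_new {d}
  obtain ⟨y2, h2⟩ := exists_new {d, y1}
  simp only [Finset.mem_insert, Finset.mem_singleton, not_or] at h1 h2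
  exact ⟨y1, y2, by simpa using h1, h2.1, fun h => h2.2 h.symm⟩

/-- if `f n → v` away from `x`, a subsequence of the inverses tends to `x` away from one point -/
theorem GeometricallyFinite.swap (h : GeometricallyFinite G τ) (f : ℕ → G)
    (hf : Function.Injective f) (c d : Sph)
    (hcd : ∀ K : Set Sph, IsCompact K → d ∉ K →
      TendstoUniformlyOn (fun n y => τ (f n) y) (fun _ => c) atTop K) :
    ∃ (g : ℕ → G) (e : Sph), ∀ y, y ≠ e → Tendsto (fun n => τ (g n) y) atTop (𝓝 d) := by
  obtain ⟨k, hk, c', d', h'⟩ := h.ptwise (fun n => (f n)⁻¹) (inv_injective.comp hf)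
  have hc' : c' = d := by
    by_contra hne
    have hpos : 0 < dist c' d := dist_pos.2 hne
    have hN := hcd (Metric.closedBall c' (dist c' d / 2)) (isCompact_closedBall _ _) (by
      rw [Metric.mem_closedBall, dist_comm]
      intro hh
      linarith)
    obtain ⟨y1, y2, hy1, hy2, hy⟩ := two_new d'
    have key : ∀ y, y ≠ d' → y = c := by
      intro y hy
      have h1 := h' y hy
      by_contra hyc
      have hpos2 : 0 < dist y c := dist_pos.2 hyc
      rw [Metric.tendstoUniformlyOn_iff] at hN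
      have h2 := (hN (dist y c) hpos2)
      have h3 := hk.tendsto_atTop.eventually h2
      have h4 := h1.eventually (Metric.closedBall_mem_nhds c' (half_pos hpos))
      obtain ⟨n, hn1, hn2⟩ := (h3.and h4).exists
      have h5 := hn1 _ hn2
      rw [← h.mul, mul_inv_cancel, h.one, dist_comm] at h5
      exact lt_irrefl _ h5
    exact hy ((key y1 hy1).trans (key y2 hy2).symm)
  refine ⟨fun n => (f (k n))⁻¹, d', fun y hy => ?_⟩
  rw [← hc']
  exact h' y hy

/-- the sphere has no isolated points -/
theorem neBot_punctured (x : Sph) : (𝓝[≠] x).NeBot := by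
  have hr : 1 < Module.rank ℝ (EuclideanSpace ℝ (Fin 3)) := by
    rw [← Module.finrank_eq_rank, finrank_euclideanSpace_fin]
    norm_num
  have hp : PreconnectedSpace Sph :=
    Subtype.preconnectedSpace (isPreconnected_sphere hr 0 1)
  have hn : Nontrivial Sph := inferInstance
  have hc : ConnectedSpace Sph := { hp with toNonempty := inferInstance }
  exact ConnectedSpace.neBot_nhdsWithin_compl_of_nontrivial_of_t1space x

/-- every point is the attracting point of a sequence -/
theorem GeometricallyFinite.attr (h : GeometricallyFinite G τ) (x : Sph) :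
    ∃ (g : ℕ → G) (e : Sph), ∀ y, y ≠ e → Tendsto (fun n => τ (g n) y) atTop (𝓝 x) := by
  rcases h.points x with ⟨f, v, w, hf, hvw, hw, hv⟩ | ⟨⟨K, hK, hxK, hKP⟩, -⟩
  · obtain ⟨k, hk, c, d, hcd⟩ := h.convergence f hf
    have hpt : ∀ y, y ≠ d → Tendsto (fun n => τ (f (k n)) y) atTop (𝓝 c) := fun y hy =>
      (hcd {y} isCompact_singleton (by simpa using hy.symm)).tendsto_at (Set.mem_singleton y)
    obtain ⟨y, hy⟩ := exists_new {d, x}
    simp only [Finset.mem_insert, Finset.mem_singleton, not_or] at hy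
    have hcv : c = v := tendsto_nhds_unique (hpt y hy.1) ((hv y hy.2).comp hk.tendsto_atTop)
    have hdx : x = d := by
      by_contra hne
      have := tendsto_nhds_unique (hpt x hne) (hw.comp hk.tendsto_atTop)
      exact hvw (hcv.symm.trans this)
    rw [hdx]
    exact h.swap (fun n => f (k n)) (hf.comp hk.injective) c d hcd
  · -- parabolic case
    -- a sequence `y n → x`, `y n ≠ x`
    have hdense : ∀ n : ℕ, ∃ y : Sph, y ≠ x ∧ dist y x < 1 / ((n : ℝ) + 1) := by
      intro n
      have hb : Metric.ball x (1 / ((n : ℝ) + 1)) ∈ 𝓝[≠] x :=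
        mem_nhdsWithin_of_mem_nhds (Metric.ball_mem_nhds x (by positivity))
      have hne : (𝓝[≠] x).NeBot := neBot_punctured x
      obtain ⟨y, hy1, hy2⟩ := Filter.nonempty_of_mem (Filter.inter_mem hb self_mem_nhdsWithin)
      exact ⟨y, hy2, hy1⟩
    choose y hyx hyd using hdense
    have hyt : Tendsto y atTop (𝓝 x) := by
      rw [tendsto_iff_dist_tendsto_zero]
      exact squeeze_zero (fun n => dist_nonneg) (fun n => (hyd n).le)
        tendsto_one_div_add_atTop_nhds_zero_nat
    choose a ha haK using fun n => hKP (y n) (hyx n)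
    have hinf : (Set.range a).Infinite := by
      intro hfin
      have hC : IsClosed (⋃ g ∈ Set.range a, (τ g) ⁻¹' K) :=
        hfin.isClosed_biUnion fun g _ => hK.isClosed.preimage (h.cont g)
      have hmem : x ∈ ⋃ g ∈ Set.range a, (τ g) ⁻¹' K := by
        refine hC.mem_of_tendsto hyt (Eventually.of_forall fun n => ?_)
        exact Set.mem_biUnion (Set.mem_range_self n) (haK n)
      simp only [Set.mem_iUnion, Set.mem_preimage] at hmem
      obtain ⟨g, ⟨n, rfl⟩, hg⟩ := hmem
      rw [ha n] at hg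
      exact hxK hg
    obtain ⟨f, hf, hfr⟩ := seq_of_infinite hinf
    choose m hm using hfr
    have hminj : Function.Injective m := by
      intro i j hij
      apply hf
      rw [← hm i, ← hm j, hij]
    have hmt : Tendsto m atTop atTop := hminj.nat_tendsto_atTop
    obtain ⟨k, hk, c', d', hcd⟩ := h.convergence (fun n => (f n)⁻¹) (inv_injective.comp hf)
    have hfix : ∀ n, τ (f n)⁻¹ x = x := by
      intro n
      have h1 : τ (f n) x = x := by rw [← hm n]; exact ha _
      calc τ (f n)⁻¹ x = τ (f n)⁻¹ (τ (f n) x) := by rw [h1]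
        _ = x := by rw [← h.mul, inv_mul_cancel, h.one]
    have hc' : c' = x := by
      by_cases hd : d' = x
      · have hU := hcd K hK (by rw [hd]; exact hxK)
        rw [Metric.tendstoUniformlyOn_iff] at hU
        by_contra hne
        have hpos : 0 < dist c' x := dist_pos.2 hne
        have h1 := hU (dist c' x / 2) (half_pos hpos)
        have h2 : Tendsto (fun n => y (m (k n))) atTop (𝓝 x) :=
          hyt.comp (hmt.comp hk.tendsto_atTop)
        have h3 := h2.eventually (Metric.ball_mem_nhds x (half_pos hpos))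
        obtain ⟨n, hn1, hn2⟩ := (h1.and h3).exists
        have h4 := hn1 (τ (f (k n)) (y (m (k n)))) (by rw [← hm (k n)]; exact haK _)
        rw [← h.mul, inv_mul_cancel, h.one] at h4
        have := dist_triangle c' (y (m (k n))) x
        linarith
      · have h1 := (hcd {x} isCompact_singleton (by simpa using hd)).tendsto_at
          (Set.mem_singleton x)
        simp only [hfix] at h1
        exact tendsto_nhds_unique h1 tendsto_const_nhds
    refine ⟨fun n => (f (k n))⁻¹, d', fun z hz => ?_⟩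
    rw [← hc']
    exact (hcd {z} isCompact_singleton (by simpa using hz.symm)).tendsto_at
      (Set.mem_singleton z)

theorem GeometricallyFinite.minimal (h : GeometricallyFinite G τ) (x : Sph) (U : Set Sph)
    (hU : IsOpen U) (hne : U.Nonempty) : ∃ g, τ g x ∈ U := by
  obtain ⟨y, hy⟩ := hne
  obtain ⟨g, e, hg⟩ := h.attr y
  by_cases hx : x = e
  · obtain ⟨γ, hγ⟩ := h.nofix x
    rw [hx] at hγ
    obtain ⟨n, hn⟩ := ((hg _ hγ).eventually (hU.mem_nhds hy)).exists
    exact ⟨g n * γ, by rw [h.mul, hx]; exact hn⟩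
  · obtain ⟨n, hn⟩ := ((hg _ hx).eventually (hU.mem_nhds hy)).exists
    exact ⟨g n, hn⟩

theorem GeometricallyFinite.contr (h : GeometricallyFinite G τ) (A : Finset Sph) (U : Set Sph)
    (hU : IsOpen U) (hne : U.Nonempty) : ∃ g, ∀ a ∈ A, τ g a ∈ U := by
  obtain ⟨x, hx⟩ := hne
  obtain ⟨g, e, hg⟩ := h.attr x
  obtain ⟨y0, hy0⟩ := exists_new A
  obtain ⟨f0, hf0⟩ := h.minimal e (↑A : Set Sph)ᶜ A.finite_toSet.isClosed.isOpen_compl
    ⟨y0, by simpa using hy0⟩
  have hev : ∀ a ∈ A, ∀ᶠ n in atTop, τ (g n) (τ f0⁻¹ a) ∈ U := by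
    intro a ha
    refine (hg (τ f0⁻¹ a) ?_).eventually (hU.mem_nhds hx)
    intro hae
    apply hf0
    rw [← hae, ← h.mul, mul_inv_cancel, h.one]
    exact ha
  have hall : ∀ᶠ n in atTop, ∀ a ∈ A, τ (g n) (τ f0⁻¹ a) ∈ U :=
    (eventually_all_finset A).2 hev
  obtain ⟨n, hn⟩ := hall.exists
  exact ⟨g n * f0⁻¹, fun a ha => by rw [h.mul]; exact hn a ha⟩

theorem GeometricallyFinite.ract (h : GeometricallyFinite G τ) : RAct G τ where
  one := h.one
  mul := h.mul
  cont := h.cont
  contr := h.contr
  prop := h.prop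

omit [Group G] in
/-- the conical condition with an ultrafilter -/
theorem Conical.ultra {x : Sph} (h : Conical τ x) : ∃ (𝓦 : Ultrafilter G) (v w : Sph), v ≠ w ∧
    Tendsto (fun g => τ g x) (𝓦 : Filter G) (𝓝 w) ∧
    ∀ y, y ≠ x → Tendsto (fun g => τ g y) (𝓦 : Filter G) (𝓝 v) := by
  obtain ⟨f, v, w, -, hvw, hw, hv⟩ := h
  have hle : ((Filter.hyperfilter ℕ : Ultrafilter ℕ) : Filter ℕ) ≤ atTop := by
    rw [← Nat.cofinite_eq_atTop]
    exact Filter.hyperfilter_le_cofinite
  refine ⟨(Filter.hyperfilter ℕ).map f, v, w, hvw, ?_, fun y hy => ?_⟩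
  · rw [Ultrafilter.coe_map, tendsto_map'_iff]
    exact hw.mono_left hle
  · rw [Ultrafilter.coe_map, tendsto_map'_iff]
    exact (hv y hy).mono_left hle

end Pool.Agent.Y367.RC
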