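import Pool.Agent.Y367.RC.Defs
import Pool.Agent.Y320.ST.Asm
import Pool.Agent.Y320.CM.Main

/-!
# From locally uniformly quasi-Moebius to globally uniformly quasi-Moebius
-/

set_option autoImplicit false
open Filter Topology

namespace Pool.Agent.Y367.RC

open Pool.Agent.Y320.ST
open Pool.Agent.Y320.CM hiding tau_inj cont_caseA exists_scale cont_caseB coord_of_point

variable {G : Type} [Group G] {τ : G → Sph → Sph}

theorem exists_global (hA : RAct G τ) (U : Set Sph) (h : LocallyQuasiMoebius G τ U) :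
    ∃ F : Sph → Sph, Continuous F ∧ Function.Injective F ∧ ∃ N' : ℝ → ℝ, Gauge N' ∧
      ∀ (g : G) (a b c e : Sph), D4 a b c e → ∀ t, cr (F a) (F b) (F c) (F e) ≤ t →
        cr (F (τ g a)) (F (τ g b)) (F (τ g c)) (F (τ g e)) ≤ N' t := by
  obtain ⟨hU, hne, f, N, hfc, hfi, hN, hQ⟩ := h
  have hinj : ∀ g, Function.Injective (τ g) := fun g => tau_inj hA.one hA.mul g
  have hex : ∀ A : Finset Sph, ∃ g, ∀ a ∈ A, τ g a ∈ U := fun A => hA.contr A U hU hne
  choose γ hγ using hex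
  set 𝓤 : Ultrafilter (Finset Sph) := Ultrafilter.of atTop with h𝓤
  have hev : ∀ A : Finset Sph, ∀ᶠ A' in (𝓤 : Filter (Finset Sph)), ∀ a ∈ A, τ (γ A') a ∈ U := by
    intro A
    have h1 : ∀ᶠ A' in (𝓤 : Filter (Finset Sph)), A ⊆ A' :=
      (Ultrafilter.of_le atTop) (eventually_ge_atTop A)
    filter_upwards [h1] with A' hA' a ha
    exact hγ A' a (hA' ha)
  -- distinct points in `U` have distinct images
  have hD4 : ∀ (g : G) (a b c e : Sph), D4 a b c e → τ g a ∈ U → τ g b ∈ U → τ g c ∈ U →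
      τ g e ∈ U → D4 (f (τ g a)) (f (τ g b)) (f (τ g c)) (f (τ g e)) := by
    intro g a b c e hD h1 h2 h3 h4
    exact D4_map (D4_inj hD (τ g) (hinj g)) f U hfi h1 h2 h3 h4
  -- comparison of two elements mapping the points into `U`
  have hcomp : ∀ (g g0 : G) (a b c e : Sph), D4 a b c e → τ g a ∈ U → τ g b ∈ U → τ g c ∈ U →
      τ g e ∈ U → τ g0 a ∈ U → τ g0 b ∈ U → τ g0 c ∈ U → τ g0 e ∈ U → ∀ t,
      cr (f (τ g0 a)) (f (τ g0 b)) (f (τ g0 c)) (f (τ g0 e)) ≤ t →
      cr (f (τ g a)) (f (τ g b)) (f (τ g c)) (f (τ g e)) ≤ N t := by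
    intro g g0 a b c e hD h1 h2 h3 h4 k1 k2 k3 k4 t ht
    have hb : ∀ x, τ (g * g0⁻¹) (τ g0 x) = τ g x := by
      intro x
      rw [← hA.mul, inv_mul_cancel_right]
    have := hQ (g * g0⁻¹) _ _ _ _ k1 k2 k3 k4 (D4_inj hD (τ g0) (hinj g0)) (by rwa [hb])
      (by rwa [hb]) (by rwa [hb]) (by rwa [hb]) t ht
    simpa only [hb] using this
  -- limits exist
  have hlim : ∀ a b c e : Sph, ∃ x : ℝ, D4 a b c e → 0 < x ∧
      Tendsto (fun A => cr (f (τ (γ A) a)) (f (τ (γ A) b)) (f (τ (γ A) c)) (f (τ (γ A) e)))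
        (𝓤 : Filter (Finset Sph)) (𝓝 x) := by
    intro a b c e
    by_cases hD : D4 a b c e
    · obtain ⟨g0, hg0⟩ := hA.contr {a, b, c, e} U hU hne
      have ma : τ g0 a ∈ U := hg0 a (by simp)
      have mb : τ g0 b ∈ U := hg0 b (by simp)
      have mc : τ g0 c ∈ U := hg0 c (by simp)
      have me : τ g0 e ∈ U := hg0 e (by simp)
      have hD' : D4 a c b e :=
        ⟨hD.2.1, hD.1, hD.2.2.1, hD.2.2.2.1.symm, hD.2.2.2.2.2, hD.2.2.2.2.1⟩
      set R : ℝ := max 1 (max (N (cr (f (τ g0 a)) (f (τ g0 b)) (f (τ g0 c)) (f (τ g0 e))))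
        (N (cr (f (τ g0 a)) (f (τ g0 c)) (f (τ g0 b)) (f (τ g0 e))))) with hR
      have hR1 : 1 ≤ R := le_max_left _ _
      have hmem : ∀ᶠ A in (𝓤 : Filter (Finset Sph)),
          cr (f (τ (γ A) a)) (f (τ (γ A) b)) (f (τ (γ A) c)) (f (τ (γ A) e)) ∈
            Set.Icc R⁻¹ R := by
        filter_upwards [hev {a, b, c, e}] with A hAm
        have na : τ (γ A) a ∈ U := hAm a (by simp)
        have nb : τ (γ A) b ∈ U := hAm b (by simp)
        have nc : τ (γ A) c ∈ U := hAm c (by simp)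
        have ne : τ (γ A) e ∈ U := hAm e (by simp)
        have u1 := hcomp (γ A) g0 a b c e hD na nb nc ne ma mb mc me _ (le_refl _)
        have u2 := hcomp (γ A) g0 a c b e hD' na nc nb ne ma mc mb me _ (le_refl _)
        have p := cr_pos (hD4 (γ A) a b c e hD na nb nc ne)
        have v1 : cr (f (τ (γ A) a)) (f (τ (γ A) b)) (f (τ (γ A) c)) (f (τ (γ A) e)) ≤ R :=
          u1.trans ((le_max_left _ _).trans (le_max_right _ _))
        have v2 : cr (f (τ (γ A) a)) (f (τ (γ A) c)) (f (τ (γ A) b)) (f (τ (γ A) e)) ≤ R :=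
          u2.trans ((le_max_right _ _).trans (le_max_right _ _))
        rw [cr_swap] at v2
        exact ⟨by rw [inv_le_comm₀ (by linarith) p]; exact v2, v1⟩
      obtain ⟨x, hx, hx2⟩ := isCompact_Icc.ultrafilter_le_nhds' (𝓤.map _) hmem
      exact ⟨x, fun _ => ⟨(inv_pos.2 (by linarith)).trans_le hx.1, hx2⟩⟩
    · exact ⟨0, fun hh => absurd hh hD⟩
  choose X hX using hlim
  obtain ⟨p1, p2, p3, p4, hp⟩ := Pool.Agent.Y872.CM.four
  obtain ⟨F, hFi, hF⟩ := Pool.Agent.Y781.CM.lim Pool.Agent.Y587.CM.t_NORM Sph (Finset Sph) 𝓤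
    (fun A x => f (τ (γ A) x)) X p1 p2 p3 p4 hp (fun a b c e hD => hX a b c e hD)
  have hFt : ∀ a b c e, D4 a b c e →
      Tendsto (fun A => cr (f (τ (γ A) a)) (f (τ (γ A) b)) (f (τ (γ A) c)) (f (τ (γ A) e)))
        (𝓤 : Filter (Finset Sph)) (𝓝 (cr (F a) (F b) (F c) (F e))) := by
    intro a b c e hD
    rw [hF a b c e hD]
    exact (hX a b c e hD).2
  refine ⟨F, ?_, hFi, fun t => N (2 * t), ?_, ?_⟩
  · -- continuity
    rw [continuous_iff_continuousAt]
    intro x
    obtain ⟨a, ha⟩ := exists_new {x}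
    obtain ⟨a', ha'⟩ := exists_new {x, a}
    simp only [Finset.mem_insert, Finset.mem_singleton, not_or] at ha ha'
    have hax : a ≠ x := ha
    have ha'x : a' ≠ x := ha'.1
    have haa : a ≠ a' := fun h => ha'.2 h.symm
    obtain ⟨g0, hg0⟩ := hA.contr {x, a, a'} U hU hne
    have mx : τ g0 x ∈ U := hg0 x (by simp)
    have ma : τ g0 a ∈ U := hg0 a (by simp)
    have ma' : τ g0 a' ∈ U := hg0 a' (by simp)
    have hFa : 0 < dist (F a) (F a') := dist_pos.2 fun h => haa (hFi h)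
    rw [ContinuousAt, Metric.tendsto_nhds]
    intro ε hε
    obtain ⟨t, ht, hNt⟩ := hN (ε * dist (F a) (F a') / 8) (by positivity)
    have hfx : ContinuousAt f (τ g0 x) := hfc.continuousAt (hU.mem_nhds mx)
    have hfgx : Tendsto (fun y => f (τ g0 y)) (𝓝 x) (𝓝 (f (τ g0 x))) :=
      hfx.tendsto.comp ((hA.cont g0).tendsto x)
    have hl : Tendsto (fun y => cr (f (τ g0 y)) (f (τ g0 x)) (f (τ g0 a)) (f (τ g0 a'))) (𝓝 x)
        (𝓝 0) := by
      unfold cr
      have d1 : 0 < dist (f (τ g0 x)) (f (τ g0 a)) :=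
        dist_pos.2 fun h => hax (hinj g0 (hfi mx ma h)).symm
      have d2 : 0 < dist (f (τ g0 x)) (f (τ g0 a')) :=
        dist_pos.2 fun h => ha'x (hinj g0 (hfi mx ma' h)).symm
      have h1 : Tendsto (fun y => dist (f (τ g0 y)) (f (τ g0 x)) *
          dist (f (τ g0 a)) (f (τ g0 a')) /
          (dist (f (τ g0 y)) (f (τ g0 a)) * dist (f (τ g0 x)) (f (τ g0 a')))) (𝓝 x)
          (𝓝 (dist (f (τ g0 x)) (f (τ g0 x)) * dist (f (τ g0 a)) (f (τ g0 a')) /
          (dist (f (τ g0 x)) (f (τ g0 a)) * dist (f (τ g0 x)) (f (τ g0 a'))))) :=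
        Tendsto.div ((hfgx.dist tendsto_const_nhds).mul tendsto_const_nhds)
          ((hfgx.dist tendsto_const_nhds).mul tendsto_const_nhds) (by positivity)
      rw [dist_self, zero_mul, zero_div] at h1
      exact h1
    have hyU : ∀ᶠ y in 𝓝 x, τ g0 y ∈ U := (hA.cont g0).continuousAt.eventually (hU.mem_nhds mx)
    filter_upwards [hl.eventually (eventually_lt_nhds ht), hyU,
      isOpen_ne.mem_nhds hax.symm, isOpen_ne.mem_nhds ha'x.symm] with y h1 h2 h3 h4
    by_cases hyx : y = x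
    · rw [hyx, dist_self]
      exact hε
    have hD : D4 y x a a' := ⟨hyx, h3, h4, hax.symm, ha'x.symm, haa⟩
    have hle : cr (F y) (F x) (F a) (F a') ≤ N t := by
      refine le_of_tendsto (hFt y x a a' hD) ?_
      filter_upwards [hev {y, x, a, a'}] with A hAm
      exact hcomp (γ A) g0 y x a a' hD (hAm y (by simp)) (hAm x (by simp)) (hAm a (by simp))
        (hAm a' (by simp)) h2 mx ma ma' t h1.le
    have hle2 := hle.trans hNt
    unfold cr at hle2
    have d1 : 0 < dist (F y) (F a) := dist_pos.2 fun h => h3 (hFi h)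
    have d2 : 0 < dist (F x) (F a') := dist_pos.2 fun h => ha'x (hFi h).symm
    rw [div_le_iff₀ (by positivity)] at hle2
    have b1 := Pool.Agent.Y320.CM.dist_le_two (F y) (F a)
    have b2 := Pool.Agent.Y320.CM.dist_le_two (F x) (F a')
    have b3 : dist (F y) (F a) * dist (F x) (F a') ≤ 4 := by nlinarith
    have b4 : dist (F y) (F x) * dist (F a) (F a') ≤ ε * dist (F a) (F a') / 8 * 4 :=
      hle2.trans (mul_le_mul_of_nonneg_left b3 (by positivity))
    have b5 : dist (F y) (F x) * dist (F a) (F a') ≤ (ε / 2) * dist (F a) (F a') := by linarith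
    have b6 : dist (F y) (F x) ≤ ε / 2 := le_of_mul_le_mul_right b5 hFa
    linarith
  · intro T hT
    obtain ⟨t, ht, hNt⟩ := hN T hT
    refine ⟨t / 2, by positivity, ?_⟩
    have : 2 * (t / 2) = t := by ring
    simp only [this]
    exact hNt
  · intro g a b c e hD t ht
    have hp := cr_pos (D4_inj hD F hFi)
    have ht0 : 0 < t := hp.trans_le ht
    have hD' := D4_inj hD (τ g) (hinj g)
    refine le_of_tendsto (hFt _ _ _ _ hD') ?_
    have h2 : ∀ᶠ A in (𝓤 : Filter (Finset Sph)),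
        cr (f (τ (γ A) a)) (f (τ (γ A) b)) (f (τ (γ A) c)) (f (τ (γ A) e)) < 2 * t :=
      (hFt a b c e hD).eventually (eventually_lt_nhds (by linarith))
    filter_upwards [hev {a, b, c, e}, hev {τ g a, τ g b, τ g c, τ g e}, h2] with A h3 h4 h5
    have hb : ∀ x, τ (γ A * g * (γ A)⁻¹) (τ (γ A) x) = τ (γ A) (τ g x) := by
      intro x
      rw [← hA.mul, ← hA.mul, inv_mul_cancel_right]
    have := hQ (γ A * g * (γ A)⁻¹) (τ (γ A) a) (τ (γ A) b) (τ (γ A) c) (τ (γ A) e)
      (h3 a (by simp)) (h3 b (by simp)) (h3 c (by simp)) (h3 e (by simp))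
      (D4_inj hD (τ (γ A)) (hinj _))
      (by rw [hb]; exact h4 _ (by simp)) (by rw [hb]; exact h4 _ (by simp))
      (by rw [hb]; exact h4 _ (by simp)) (by rw [hb]; exact h4 _ (by simp)) (2 * t) h5.le
    simpa only [hb] using this

end Pool.Agent.Y367.RC
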