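import Pool.Agent.Y367.RC.Act

/-!
# The steps of the closed case which do not use cocompactness on triples

The proofs of this file are those of `Pool.Agent.Y320.CM.Cont`, `Pool.Agent.Y320.CM.ContB`,
`Pool.Agent.Y872.CM.Ex`, `Pool.Agent.Y320.CM.AM` and `Pool.Agent.Y638.CM.RepB`, with `Act`
replaced by `RAct`.
-/

set_option autoImplicit false
open Filter Topology

namespace Pool.Agent.Y367.RC

open Pool.Agent.Y320.CM hiding tau_inj cont_caseA exists_scale cont_caseB coord_of_point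

/-- Step 1: limit of the local coordinates. -/
theorem step1 (hL : S_LIM) {G : Type} [Group G] {τ : G → Sph → Sph} (hA : RAct G τ) {U : Set Sph}
    (hU : IsOpen U) (hne : U.Nonempty) {ι : Type} {l : Filter ι} {ψ : ι → Sph → Sph}
    (hl : l.NeBot) (hC : Coord G τ U l ψ) : ∃ Ψ : Sph → Sph,
    (∀ a b c e : Sph, a ∈ U → b ∈ U → c ∈ U → e ∈ U → D4 a b c e →
      ∃ R : ℝ, 0 < R ∧ ∀ᶠ q in 𝓝 (a, b, c, e), (q.1 ∈ U ∧ q.2.1 ∈ U ∧ q.2.2.1 ∈ U ∧ q.2.2.2 ∈ U) ∧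
        D4 q.1 q.2.1 q.2.2.1 q.2.2.2 ∧ R⁻¹ ≤ cr (Ψ q.1) (Ψ q.2.1) (Ψ q.2.2.1) (Ψ q.2.2.2) ∧
        cr (Ψ q.1) (Ψ q.2.1) (Ψ q.2.2.1) (Ψ q.2.2.2) ≤ R) ∧
    ∀ (g : G) (a b c e : Sph), a ∈ U → b ∈ U → c ∈ U → e ∈ U → D4 a b c e →
      τ g a ∈ U → τ g b ∈ U → τ g c ∈ U → τ g e ∈ U →
      cr (Ψ (τ g a)) (Ψ (τ g b)) (Ψ (τ g c)) (Ψ (τ g e)) = cr (Ψ a) (Ψ b) (Ψ c) (Ψ e) := by
  classical
  set W : Ultrafilter ι := Ultrafilter.of l with hW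
  have hWl : (W : Filter ι) ≤ l := Ultrafilter.of_le l
  -- the limits of the cross ratios
  have hlim : ∀ a b c e : U, ∃ t : ℝ, D4 a b c e → 0 < t ∧
      Tendsto (fun i => cr (ψ i a) (ψ i b) (ψ i c) (ψ i e)) (W : Filter ι) (𝓝 t) := by
    intro a b c e
    by_cases h : D4 a b c e
    · obtain ⟨R, hR, hq⟩ := hC.1 a b c e a.2 b.2 c.2 e.2 (Pool.Agent.Y872.CM.d4_map Subtype.val_injective h)
      have h1 := hWl hq.self_of_nhds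
      have h2 : Set.Icc R⁻¹ R ∈ W.map (fun i => cr (ψ i a) (ψ i b) (ψ i c) (ψ i e)) := by
        rw [Ultrafilter.mem_map]
        exact h1
      obtain ⟨t, ht, ht2⟩ := isCompact_Icc.ultrafilter_le_nhds' _ h2
      exact ⟨t, fun _ => ⟨(inv_pos.2 hR).trans_le ht.1, ht2⟩⟩
    · exact ⟨0, fun h' => absurd h' h⟩
  choose t ht using hlim
  -- Pool.Agent.Y872.CM.four points in `U`
  obtain ⟨p1, p2, p3, p4, hp⟩ := Pool.Agent.Y872.CM.four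
  obtain ⟨g0, hg0⟩ := hA.contr {p1, p2, p3, p4} U hU hne
  have m1 : τ g0 p1 ∈ U := hg0 p1 (by simp)
  have m2 : τ g0 p2 ∈ U := hg0 p2 (by simp)
  have m3 : τ g0 p3 ∈ U := hg0 p3 (by simp)
  have m4 : τ g0 p4 ∈ U := hg0 p4 (by simp)
  have hp4 : D4 (⟨τ g0 p1, m1⟩ : U) ⟨τ g0 p2, m2⟩ ⟨τ g0 p3, m3⟩ ⟨τ g0 p4, m4⟩ :=
    Pool.Agent.Y872.CM.d4_of_map Subtype.val (Pool.Agent.Y872.CM.d4_map (tau_inj hA.one hA.mul g0) hp)
  obtain ⟨F, -, hF⟩ := hL U ι W (fun i y => ψ i y) t _ _ _ _ hp4 (fun a b c e h => ht a b c e h)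
  let Ψ : Sph → Sph := fun x => if h : x ∈ U then F ⟨x, h⟩ else x
  have hΨ : ∀ (x : Sph) (hx : x ∈ U), Ψ x = F ⟨x, hx⟩ := fun x hx => dif_pos hx
  have hP : ∀ a b c e : Sph, a ∈ U → b ∈ U → c ∈ U → e ∈ U → D4 a b c e →
      0 < cr (Ψ a) (Ψ b) (Ψ c) (Ψ e) ∧
      Tendsto (fun i => cr (ψ i a) (ψ i b) (ψ i c) (ψ i e)) (W : Filter ι)
        (𝓝 (cr (Ψ a) (Ψ b) (Ψ c) (Ψ e))) := by
    intro a b c e ha hb hc he h
    have h1 : D4 (⟨a, ha⟩ : U) ⟨b, hb⟩ ⟨c, hc⟩ ⟨e, he⟩ := Pool.Agent.Y872.CM.d4_of_map Subtype.val h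
    have h2 := ht _ _ _ _ h1
    rw [← hF _ _ _ _ h1] at h2
    rw [hΨ a ha, hΨ b hb, hΨ c hc, hΨ e he]
    exact h2
  refine ⟨Ψ, ?_, ?_⟩
  · intro a b c e ha hb hc he h
    obtain ⟨R, hR, hq⟩ := hC.1 a b c e ha hb hc he h
    refine ⟨R, hR, ?_⟩
    have hUn : ∀ᶠ q in 𝓝 (a, b, c, e), q.1 ∈ U ∧ q.2.1 ∈ U ∧ q.2.2.1 ∈ U ∧ q.2.2.2 ∈ U := by
      have h1 : IsOpen (U ×ˢ (U ×ˢ (U ×ˢ U))) := hU.prod (hU.prod (hU.prod hU))
      exact h1.mem_nhds ⟨ha, hb, hc, he⟩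
    have hDn : ∀ᶠ q in 𝓝 (a, b, c, e), D4 q.1 q.2.1 q.2.2.1 q.2.2.2 :=
      Pool.Agent.Y872.CM.d4_open.mem_nhds h
    filter_upwards [hq, hUn, hDn] with q h1 h2 h3
    obtain ⟨h4, h5⟩ := hP _ _ _ _ h2.1 h2.2.1 h2.2.2.1 h2.2.2.2 h3
    have h6 := h1.filter_mono hWl
    exact ⟨h2, h3, ge_of_tendsto h5 (h6.mono fun i hi => hi.1),
      le_of_tendsto h5 (h6.mono fun i hi => hi.2)⟩
  · intro g a b c e ha hb hc he h ha' hb' hc' he'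
    obtain ⟨h1, h2⟩ := hP _ _ _ _ ha hb hc he h
    obtain ⟨h3, h4⟩ := hP _ _ _ _ ha' hb' hc' he' (Pool.Agent.Y872.CM.d4_map (tau_inj hA.one hA.mul g) h)
    have h5 := (hC.2 g a b c e ha hb hc he h ha' hb' hc' he').mono_left hWl
    have h6 := h4.div h2 h1.ne'
    have h7 := tendsto_nhds_unique h6 h5
    exact (div_eq_one_iff_eq h1.ne').1 h7

/-- existence of the global coordinate -/
theorem ex (hL : S_LIM) {G : Type} [Group G] {τ : G → Sph → Sph} (hA : RAct G τ) (U : Set Sph)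
    (hU : IsOpen U) (hne : U.Nonempty) {ι : Type} (l : Filter ι) (ψ : ι → Sph → Sph)
    (hl : l.NeBot) (hC : Coord G τ U l ψ) :
    ∃ F : Sph → Sph, Function.Injective F ∧ Inv G τ F ∧
      ∀ a b c e : Sph, D4 a b c e → ∃ R : ℝ, 0 < R ∧ ∀ᶠ q in 𝓝 (a, b, c, e),
        R⁻¹ ≤ cr (F q.1) (F q.2.1) (F q.2.2.1) (F q.2.2.2) ∧
        cr (F q.1) (F q.2.1) (F q.2.2.1) (F q.2.2.2) ≤ R := by
  classical
  obtain ⟨Ψ, hB, hI⟩ := step1 hL hA hU hne hl hC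
  have hg : ∀ A : Finset Sph, ∃ g, ∀ a ∈ A, τ g a ∈ U := fun A => hA.contr A U hU hne
  choose gA hgA using hg
  -- independence of the group element
  have hind : ∀ (g h : G) (a b c e : Sph), D4 a b c e → τ g a ∈ U → τ g b ∈ U → τ g c ∈ U →
      τ g e ∈ U → τ h a ∈ U → τ h b ∈ U → τ h c ∈ U → τ h e ∈ U →
      cr (Ψ (τ g a)) (Ψ (τ g b)) (Ψ (τ g c)) (Ψ (τ g e)) =
        cr (Ψ (τ h a)) (Ψ (τ h b)) (Ψ (τ h c)) (Ψ (τ h e)) := by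
    intro g h a b c e hd a1 a2 a3 a4 b1 b2 b3 b4
    have key : ∀ x, τ (g * h⁻¹) (τ h x) = τ g x := by
      intro x
      rw [← hA.mul, inv_mul_cancel_right]
    have h1 := hI (g * h⁻¹) (τ h a) (τ h b) (τ h c) (τ h e) b1 b2 b3 b4
      (Pool.Agent.Y872.CM.d4_map (tau_inj hA.one hA.mul h) hd) (by rw [key]; exact a1) (by rw [key]; exact a2)
      (by rw [key]; exact a3) (by rw [key]; exact a4)
    rwa [key, key, key, key] at h1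
  have hpos : ∀ (g : G) (a b c e : Sph), D4 a b c e → τ g a ∈ U → τ g b ∈ U → τ g c ∈ U →
      τ g e ∈ U → 0 < cr (Ψ (τ g a)) (Ψ (τ g b)) (Ψ (τ g c)) (Ψ (τ g e)) := by
    intro g a b c e hd a1 a2 a3 a4
    obtain ⟨R, hR, h1⟩ := hB _ _ _ _ a1 a2 a3 a4 (Pool.Agent.Y872.CM.d4_map (tau_inj hA.one hA.mul g) hd)
    exact (inv_pos.2 hR).trans_le h1.self_of_nhds.2.2.1
  let Q : Sph → Sph → Sph → Sph → Finset Sph := fun a b c e => {a, b, c, e}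
  have hQ1 : ∀ a b c e, τ (gA (Q a b c e)) a ∈ U := fun a b c e => hgA _ _ (by simp [Q])
  have hQ2 : ∀ a b c e, τ (gA (Q a b c e)) b ∈ U := fun a b c e => hgA _ _ (by simp [Q])
  have hQ3 : ∀ a b c e, τ (gA (Q a b c e)) c ∈ U := fun a b c e => hgA _ _ (by simp [Q])
  have hQ4 : ∀ a b c e, τ (gA (Q a b c e)) e ∈ U := fun a b c e => hgA _ _ (by simp [Q])
  obtain ⟨p1, p2, p3, p4, hp⟩ := Pool.Agent.Y872.CM.four
  obtain ⟨F, hF, hcr⟩ := hL Sph (Finset Sph) (Ultrafilter.of atTop)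
    (fun A x => Ψ (τ (gA A) x))
    (fun a b c e => cr (Ψ (τ (gA (Q a b c e)) a)) (Ψ (τ (gA (Q a b c e)) b))
      (Ψ (τ (gA (Q a b c e)) c)) (Ψ (τ (gA (Q a b c e)) e))) p1 p2 p3 p4 hp (by
      intro a b c e hd
      refine ⟨hpos _ a b c e hd (hQ1 _ _ _ _) (hQ2 _ _ _ _) (hQ3 _ _ _ _) (hQ4 _ _ _ _), ?_⟩
      refine Tendsto.congr' ?_ tendsto_const_nhds
      have h1 : ∀ᶠ A in ((Ultrafilter.of atTop : Ultrafilter (Finset Sph)) : Filter (Finset Sph)),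
          Q a b c e ⊆ A := (Ultrafilter.of_le atTop) (eventually_ge_atTop (Q a b c e))
      filter_upwards [h1] with A hAQ
      exact hind _ _ a b c e hd (hQ1 _ _ _ _) (hQ2 _ _ _ _) (hQ3 _ _ _ _) (hQ4 _ _ _ _)
        (hgA A _ (hAQ (by simp [Q]))) (hgA A _ (hAQ (by simp [Q])))
        (hgA A _ (hAQ (by simp [Q]))) (hgA A _ (hAQ (by simp [Q]))))
  have hall : ∀ (g : G) (a b c e : Sph), D4 a b c e → τ g a ∈ U → τ g b ∈ U → τ g c ∈ U →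
      τ g e ∈ U → cr (F a) (F b) (F c) (F e) =
        cr (Ψ (τ g a)) (Ψ (τ g b)) (Ψ (τ g c)) (Ψ (τ g e)) := by
    intro g a b c e hd a1 a2 a3 a4
    rw [hcr a b c e hd]
    exact hind _ _ a b c e hd (hQ1 _ _ _ _) (hQ2 _ _ _ _) (hQ3 _ _ _ _) (hQ4 _ _ _ _) a1 a2 a3 a4
  refine ⟨F, hF, ?_, ?_⟩
  · intro h a b c e hd
    have hd' := Pool.Agent.Y872.CM.d4_map (tau_inj hA.one hA.mul h) hd
    set g := gA (Q (τ h a) (τ h b) (τ h c) (τ h e)) with hgdef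
    have m1 := hQ1 (τ h a) (τ h b) (τ h c) (τ h e)
    have m2 := hQ2 (τ h a) (τ h b) (τ h c) (τ h e)
    have m3 := hQ3 (τ h a) (τ h b) (τ h c) (τ h e)
    have m4 := hQ4 (τ h a) (τ h b) (τ h c) (τ h e)
    rw [← hgdef] at m1 m2 m3 m4
    rw [hall g _ _ _ _ hd' m1 m2 m3 m4]
    have key : ∀ x, τ (g * h) x = τ g (τ h x) := fun x => hA.mul g h x
    rw [hall (g * h) a b c e hd (by rw [key]; exact m1) (by rw [key]; exact m2)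
      (by rw [key]; exact m3) (by rw [key]; exact m4)]
    rw [key, key, key, key]
  · intro a b c e hd
    obtain ⟨R, hR, h1⟩ := hB _ _ _ _ (hQ1 a b c e) (hQ2 a b c e) (hQ3 a b c e) (hQ4 a b c e)
      (Pool.Agent.Y872.CM.d4_map (tau_inj hA.one hA.mul (gA (Q a b c e))) hd)
    refine ⟨R, hR, ?_⟩
    have hc := hA.cont (gA (Q a b c e))
    have hcc : Continuous (fun q : Sph × Sph × Sph × Sph => (τ (gA (Q a b c e)) q.1,
        τ (gA (Q a b c e)) q.2.1, τ (gA (Q a b c e)) q.2.2.1, τ (gA (Q a b c e)) q.2.2.2)) := by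
      fun_prop
    have h2 := (hcc.tendsto (a, b, c, e)).eventually h1
    filter_upwards [h2] with q hq
    obtain ⟨⟨u1, u2, u3, u4⟩, h3, h4, h5⟩ := hq
    have h6 := hall (gA (Q a b c e)) q.1 q.2.1 q.2.2.1 q.2.2.2 (Pool.Agent.Y872.CM.d4_of_map _ h3) u1 u2 u3 u4
    rw [h6]
    exact ⟨h4, h5⟩

end Pool.Agent.Y367.RC
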