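import Pool.Agent.Y367.RC.Act

/-!
# The steps of the closed case which do not use cocompactness on triples

The proofs of this file are those of `Pool.Agent.Y320.CM.Cont`, `Pool.Agent.Y320.CM.ContB`,
`Pool.Agent.Y872.CM.Ex`, `Pool.Agent.Y320.CM.AM` and `Pool.Agent.Y638.CM.RepB`, with `Act`
replaced by `RAct`.
-/

set_option autoImplicit false
open Filter Topology

namespace Pool.Agent.Y367.RC

open Pool.Agent.Y320.CM hiding tau_inj cont_caseA exists_scale cont_caseB coord_of_point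

theorem repB {G : Type} [Group G] {τ : G → Sph → Sph} (hA : RAct G τ) (F : Sph → Sph)
    (hFc : Continuous F) (hFb : Function.Bijective F)
    (ρ : G →* Matrix (Fin 4) (Fin 4) ℝ) (l : G → Sph → ℝ) (hl : ∀ g a, 0 < l g a)
    (hρ : ∀ g a, Matrix.mulVec (ρ g) (N (F a)) = l g a • N (F (τ g a)))
    (hB : ∀ g v w, B (Matrix.mulVec (ρ g) v) (Matrix.mulVec (ρ g) w) = B v w) :
    (∀ g : G, ∀ v ∈ Hyp, Matrix.mulVec (ρ g) v ∈ Hyp) ∧
    (∀ K : Set V, IsCompact K → K ⊆ Hyp →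
      Set.Finite {g : G | ∃ v ∈ K, Matrix.mulVec (ρ g) v ∈ K}) := by
  have hpres : ∀ g : G, ∀ v ∈ Hyp, Matrix.mulVec (ρ g) v ∈ Hyp := by
    intro g v hv
    obtain ⟨a, -, -, -, -, -⟩ := Pool.Agent.Y638.CM.exists_three
    obtain ⟨u, hu⟩ : ∃ u, u = Matrix.mulVec (ρ g) v := ⟨_, rfl⟩
    have h1 : B u u = -1 := by
      rw [hu, hB]
      exact Pool.Agent.Y638.CM.hyp_B v hv
    have h2 : l g a * B u (N (F (τ g a))) = B v (N (F a)) := by
      rw [← Pool.Agent.Y638.CM.B_smul_right, ← hρ, hu, hB]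
    have h3 : B v (N (F a)) < 0 := by
      have h4 := (Pool.Agent.Y638.CM.hyp_bound v hv (F a)).1
      have h5 := hv.1
      by_contra hcon
      push Not at hcon
      nlinarith
    have h4 : B u (N (F (τ g a))) < 0 := by
      by_contra hcon
      push Not at hcon
      have := mul_nonneg (hl g a).le hcon
      linarith
    rw [← hu]
    have h5 : -(u 0) ^ 2 + (u 1) ^ 2 + (u 2) ^ 2 + (u 3) ^ 2 = -1 := by
      simp only [B] at h1
      linarith
    refine ⟨?_, h5⟩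
    by_contra hcon
    push Not at hcon
    have h6 : u 0 < 0 := by
      rcases hcon.lt_or_eq with h | h
      · exact h
      · exfalso
        rw [h] at h5
        nlinarith [sq_nonneg (u 1), sq_nonneg (u 2), sq_nonneg (u 3)]
    have h7 : -u ∈ Hyp := by
      refine ⟨?_, ?_⟩
      · simp only [Pi.neg_apply]
        linarith
      · simp only [Pi.neg_apply, neg_sq]
        exact h5
    have h8 := (Pool.Agent.Y638.CM.hyp_bound (-u) h7 (F (τ g a))).1
    have h9 : B (-u) (N (F (τ g a))) = -B u (N (F (τ g a))) := by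
      simp only [B, Pi.neg_apply]
      ring
    rw [h9] at h8
    simp only [Pi.neg_apply] at h8
    nlinarith
  refine ⟨hpres, ?_⟩
  intro K hK hKH
  obtain ⟨T0, hT1, hT⟩ : ∃ T0 : ℝ, 1 ≤ T0 ∧ ∀ v ∈ K, v 0 ≤ T0 := by
    obtain ⟨T, hT⟩ := (hK.image (continuous_apply (0 : Fin 4))).bddAbove
    exact ⟨max 1 T, le_max_left _ _, fun v hv => (hT ⟨v, hv, rfl⟩).trans (le_max_right _ _)⟩
  obtain ⟨a, b, e, hab, hae, hbe⟩ := Pool.Agent.Y638.CM.exists_three
  have hTp : (0 : ℝ) < 4 * T0 ^ 2 := by positivity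
  obtain ⟨c1, hc1, hc1a, hc1b, hc1c⟩ : ∃ c1 : ℝ, 0 < c1 ∧
      c1 ≤ dist (F a) (F b) / (4 * T0 ^ 2) ∧ c1 ≤ dist (F a) (F e) / (4 * T0 ^ 2) ∧
      c1 ≤ dist (F b) (F e) / (4 * T0 ^ 2) := by
    refine ⟨min (dist (F a) (F b) / (4 * T0 ^ 2)) (min (dist (F a) (F e) / (4 * T0 ^ 2))
      (dist (F b) (F e) / (4 * T0 ^ 2))), ?_, min_le_left _ _,
      (min_le_right _ _).trans (min_le_left _ _), (min_le_right _ _).trans (min_le_right _ _)⟩
    refine lt_min ?_ (lt_min ?_ ?_)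
    · exact div_pos (dist_pos.2 fun h => hab (hFb.1 h)) hTp
    · exact div_pos (dist_pos.2 fun h => hae (hFb.1 h)) hTp
    · exact div_pos (dist_pos.2 fun h => hbe (hFb.1 h)) hTp
  obtain ⟨c, hc, hcu⟩ := Metric.uniformContinuous_iff.1
    (CompactSpace.uniformContinuous_of_continuous hFc) c1 hc1
  refine (hA.prop a b e hab hae hbe c hc).subset ?_
  rintro g ⟨v, hv, hw⟩
  have hl2 : ∀ x, l g x ≤ 4 * T0 ^ 2 := by
    intro x
    have h1 := (Pool.Agent.Y638.CM.hyp_bound v (hKH hv) (F x)).2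
    have h2 := (Pool.Agent.Y638.CM.hyp_bound _ (hKH hw) (F (τ g x))).1
    have h3 : l g x * B (Matrix.mulVec (ρ g) v) (N (F (τ g x))) = B v (N (F x)) := by
      rw [← Pool.Agent.Y638.CM.B_smul_right, ← hρ, hB]
    have h4 := hT v hv
    have h5 := hT _ hw
    have h6 := (hKH hw).1
    obtain ⟨β, hβ⟩ : ∃ β, β = -B (Matrix.mulVec (ρ g) v) (N (F (τ g x))) := ⟨_, rfl⟩
    rw [← hβ] at h2
    have h7 : l g x * β = -B v (N (F x)) := by rw [← h3, hβ]; ring
    have hβ0 : 0 < β := by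
      by_contra hcon
      push Not at hcon
      nlinarith
    have h8 : 1 ≤ 2 * T0 * β := by nlinarith
    have h9 : l g x * β ≤ 2 * T0 := by rw [h7]; linarith
    have h10 := (hl g x)
    have h11 : l g x ≤ l g x * (2 * T0 * β) := by nlinarith
    have h12 : l g x * (2 * T0 * β) = 2 * T0 * (l g x * β) := by ring
    rw [h12] at h11
    nlinarith
  have key : ∀ x y : Sph, c1 ≤ dist (F x) (F y) / (4 * T0 ^ 2) → c ≤ dist (τ g x) (τ g y) := by
    intro x y hxy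
    by_contra hcon
    push Not at hcon
    have h1 := hcu hcon
    have h2 : B (Matrix.mulVec (ρ g) (N (F x))) (Matrix.mulVec (ρ g) (N (F y))) =
        B (N (F x)) (N (F y)) := hB g _ _
    rw [hρ, hρ, Pool.Agent.Y638.CM.B_smul_left, Pool.Agent.Y638.CM.B_smul_right, Pool.Agent.Y638.CM.B_N, Pool.Agent.Y638.CM.B_N] at h2
    obtain ⟨D, hD⟩ : ∃ D, D = dist (F x) (F y) := ⟨_, rfl⟩
    obtain ⟨D', hD'⟩ : ∃ D', D' = dist (F (τ g x)) (F (τ g y)) := ⟨_, rfl⟩
    rw [← hD, ← hD'] at h2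
    rw [← hD] at hxy
    rw [← hD'] at h1
    have hD0 : 0 ≤ D := by rw [hD]; exact dist_nonneg
    have hD'0 : 0 ≤ D' := by rw [hD']; exact dist_nonneg
    rw [le_div_iff₀ hTp] at hxy
    have h3 : D ^ 2 = l g x * l g y * D' ^ 2 := by linarith
    have h4 : l g x * l g y ≤ (4 * T0 ^ 2) * (4 * T0 ^ 2) :=
      mul_le_mul (hl2 x) (hl2 y) (hl g y).le hTp.le
    have h5 : D ^ 2 ≤ (4 * T0 ^ 2 * D') ^ 2 := by
      rw [h3]
      calc l g x * l g y * D' ^ 2 ≤ (4 * T0 ^ 2) * (4 * T0 ^ 2) * D' ^ 2 :=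
            mul_le_mul_of_nonneg_right h4 (sq_nonneg _)
        _ = _ := by ring
    have h6 : D ≤ 4 * T0 ^ 2 * D' := abs_le_of_sq_le_sq' h5 (by positivity) |>.2
    have h7 : 4 * T0 ^ 2 * D' < 4 * T0 ^ 2 * c1 := mul_lt_mul_of_pos_left h1 hTp
    linarith
  exact ⟨key a b hc1a, key a e hc1b, key b e hc1c⟩

end Pool.Agent.Y367.RC
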