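import Pool.Agent.Y367.RC.Dyn
import Pool.Agent.Y692.ST.STB

/-!
# Conical points: countable exceptions and scales
-/

set_option autoImplicit false
open Filter Topology MeasureTheory

namespace Pool.Agent.Y367.RC

open Pool.Agent.Y320.ST
open Pool.Agent.Y320.CM hiding tau_inj cont_caseA exists_scale cont_caseB coord_of_point

variable {G : Type} [Group G] {τ : G → Sph → Sph}

theorem RAct.countable (h : RAct G τ) : Countable G := by
  obtain ⟨a, -⟩ := exists_new ∅
  obtain ⟨b, hb⟩ := exists_new {a}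
  obtain ⟨e, he⟩ := exists_new {a, b}
  have hab : a ≠ b := fun h => hb (by rw [h]; exact Finset.mem_singleton_self _)
  have hae : a ≠ e := fun h => he (by rw [← h]; exact Finset.mem_insert_self _ _)
  have hbe : b ≠ e := fun h => he (by rw [← h]; simp)
  have h1 : (Set.univ : Set G) ⊆ ⋃ n : ℕ, {g : G | 1 / ((n : ℝ) + 1) ≤ dist (τ g a) (τ g b) ∧
      1 / ((n : ℝ) + 1) ≤ dist (τ g a) (τ g e) ∧ 1 / ((n : ℝ) + 1) ≤ dist (τ g b) (τ g e)} := by
    intro g _
    have d1 : 0 < dist (τ g a) (τ g b) := dist_pos.2 ((tau_inj h.one h.mul g).ne hab)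
    have d2 : 0 < dist (τ g a) (τ g e) := dist_pos.2 ((tau_inj h.one h.mul g).ne hae)
    have d3 : 0 < dist (τ g b) (τ g e) := dist_pos.2 ((tau_inj h.one h.mul g).ne hbe)
    obtain ⟨n, hn⟩ := exists_nat_one_div_lt (lt_min d1 (lt_min d2 d3))
    rw [Set.mem_iUnion]
    refine ⟨n, ?_, ?_, ?_⟩
    · exact hn.le.trans (min_le_left _ _)
    · exact hn.le.trans ((min_le_right _ _).trans (min_le_left _ _))
    · exact hn.le.trans ((min_le_right _ _).trans (min_le_right _ _))
  have h2 : (⋃ n : ℕ, {g : G | 1 / ((n : ℝ) + 1) ≤ dist (τ g a) (τ g b) ∧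
      1 / ((n : ℝ) + 1) ≤ dist (τ g a) (τ g e) ∧
      1 / ((n : ℝ) + 1) ≤ dist (τ g b) (τ g e)}).Countable :=
    Set.countable_iUnion fun n => (h.prop a b e hab hae hbe _ (by positivity)).countable
  exact Set.countable_univ_iff.1 (h2.mono h1)

/-- the conical points are all points up to countably many -/
theorem GeometricallyFinite.countable_exc (h : GeometricallyFinite G τ) :
    {x : Sph | ¬ Conical τ x}.Countable := by
  have hG : Countable G := h.ract.countable
  have hsub : {x : Sph | ¬ Conical τ x} ⊆ ⋃ S : Finset G, {p : Sph |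
      (∀ g, τ g p = p ↔ g ∈ Subgroup.closure (S : Set G)) ∧
      ¬ ∃ (h : G) (S : Finset G), ∀ g, τ g p = p → ∃ s ∈ S, ∃ m : ℤ, g = s * h ^ m} := by
    intro x hx
    rcases h.points x with h1 | ⟨-, ⟨S, hS⟩, hvc⟩
    · exact absurd h1 hx
    · exact Set.mem_iUnion.2 ⟨S, hS, hvc⟩
  refine Set.Countable.mono hsub (Set.countable_iUnion fun S => ?_)
  refine Set.Finite.countable ?_
  by_cases hne : {p : Sph | (∀ g, τ g p = p ↔ g ∈ Subgroup.closure (S : Set G)) ∧
      ¬ ∃ (h : G) (S : Finset G), ∀ g, τ g p = p → ∃ s ∈ S, ∃ m : ℤ, g = s * h ^ m}.Nonempty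
  · obtain ⟨p0, hp0, hvc⟩ := hne
    have hinf : {g : G | g ∈ Subgroup.closure (S : Set G)}.Infinite := by
      intro hfin
      apply hvc
      refine ⟨1, hfin.toFinset, fun g hg => ⟨g, ?_, 0, by simp⟩⟩
      rw [Set.Finite.mem_toFinset]
      exact (hp0 g).1 hg
    obtain ⟨f, hf, hfT⟩ := seq_of_infinite hinf
    obtain ⟨k, hk, c, d, hcd⟩ := h.ptwise f hf
    refine (Set.toFinite {c, d}).subset ?_
    rintro p ⟨hp, -⟩
    by_cases hpd : p = d
    · exact Or.inr hpd
    · left
      have h1 := hcd p hpd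
      have h2 : ∀ n, τ (f (k n)) p = p := fun n => (hp _).2 (hfT (k n))
      simp only [h2] at h1
      exact tendsto_nhds_unique tendsto_const_nhds h1
  · rw [Set.not_nonempty_iff_eq_empty.1 hne]
    exact Set.finite_empty

theorem sg_inj : Function.Injective sg := fun x y hxy => by
  have := congrArg st hxy
  rwa [Pool.Agent.Y692.ST.stb.1, Pool.Agent.Y692.ST.stb.1] at this

theorem GeometricallyFinite.ae_conical (h : GeometricallyFinite G τ) :
    ∀ᵐ z : ℂ, Conical τ (sg z) := by
  have h1 : (sg ⁻¹' {x : Sph | ¬ Conical τ x}).Countable := h.countable_exc.preimage sg_inj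
  have h2 := h1.measure_zero (volume : Measure ℂ)
  exact h2

/-- conical points, with uniform convergence -/
theorem GeometricallyFinite.conical_unif (h : GeometricallyFinite G τ) {x : Sph}
    (hx : Conical τ x) : ∃ (f : ℕ → G) (v w : Sph), v ≠ w ∧
    Tendsto (fun n => τ (f n) x) atTop (𝓝 w) ∧ ∀ K : Set Sph, IsCompact K → x ∉ K →
      TendstoUniformlyOn (fun n y => τ (f n) y) (fun _ => v) atTop K := by
  obtain ⟨f, v, w, hf, hvw, hw, hv⟩ := hx
  obtain ⟨k, hk, c, d, hcd⟩ := h.convergence f hf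
  have hpt : ∀ y, y ≠ d → Tendsto (fun n => τ (f (k n)) y) atTop (𝓝 c) := fun y hy =>
    (hcd {y} isCompact_singleton (by simpa using hy.symm)).tendsto_at (Set.mem_singleton y)
  obtain ⟨y, hy⟩ := exists_new {d, x}
  simp only [Finset.mem_insert, Finset.mem_singleton, not_or] at hy
  have hcv : c = v := tendsto_nhds_unique (hpt y hy.1) ((hv y hy.2).comp hk.tendsto_atTop)
  have hdx : x = d := by
    by_contra hne
    have := tendsto_nhds_unique (hpt x hne) (hw.comp hk.tendsto_atTop)
    exact hvw (hcv.symm.trans this)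
  refine ⟨fun n => f (k n), v, w, hvw, hw.comp hk.tendsto_atTop, fun K hK hxK => ?_⟩
  rw [← hcv]
  exact hcd K hK (by rw [← hdx]; exact hxK)

/-- the scales at a conical point -/
theorem GeometricallyFinite.scales (h : GeometricallyFinite G τ) (x : ℂ)
    (hx : Conical τ (sg x)) (u : ℂ) (hu : u ≠ 0) :
    ∃ (r : ℕ → ℝ) (γ : ℕ → G) (c0 : ℝ), 0 < c0 ∧ (∀ n, 0 < r n) ∧ Tendsto r atTop (𝓝 0) ∧
      ∀ n, c0 ≤ dist (τ (γ n) (sg x)) (τ (γ n) (sg (x + (r n : ℂ) * u))) ∧
        c0 ≤ dist (τ (γ n) (sg x)) (τ (γ n) inf) ∧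
        c0 ≤ dist (τ (γ n) (sg (x + (r n : ℂ) * u))) (τ (γ n) inf) := by
  obtain ⟨f, v, w, hvw, hw, hv⟩ := h.conical_unif hx
  obtain ⟨-, -, hsi, hsc, -⟩ := Pool.Agent.Y692.ST.stb
  have hvp : ∀ y, y ≠ sg x → Tendsto (fun n => τ (f n) y) atTop (𝓝 v) := fun y hy =>
    (hv {y} isCompact_singleton (by simpa using hy.symm)).tendsto_at (Set.mem_singleton y)
  set D := dist v w with hD
  have hD0 : 0 < D := dist_pos.2 hvw
  let path : ℝ → Sph := fun r => sg (x + (r : ℂ) * u)
  have hpc : Continuous path := hsc.comp (by fun_prop)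
  have hp0 : path 0 = sg x := by simp [path]
  have hpne : ∀ r : ℝ, r ≠ 0 → path r ≠ sg x := by
    intro r hr hh
    have h1 := sg_inj hh
    have h2 : (r : ℂ) * u = 0 := by
      have : x + (r : ℂ) * u = x + 0 := by rw [add_zero]; exact h1
      exact add_left_cancel this
    rcases mul_eq_zero.1 h2 with h3 | h3
    · exact hr (by exact_mod_cast h3)
    · exact hu h3
  have hgood : ∀ᶠ n in atTop, dist (τ (f n) (sg x)) w < D / 16 ∧ dist (τ (f n) inf) v < D / 16 ∧
      dist (τ (f n) (path 1)) v < D / 16 := by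
    have e1 := hw.eventually (Metric.ball_mem_nhds w (show 0 < D / 16 by positivity))
    have e2 := (hvp inf (hsi x).symm).eventually
      (Metric.ball_mem_nhds v (show 0 < D / 16 by positivity))
    have e3 := (hvp (path 1) (hpne 1 one_ne_zero)).eventually
      (Metric.ball_mem_nhds v (show 0 < D / 16 by positivity))
    filter_upwards [e1, e2, e3] with n h1 h2 h3
    exact ⟨h1, h2, h3⟩
  have hex : ∀ n, ∃ r : ℝ, (dist (τ (f n) (sg x)) w < D / 16 ∧ dist (τ (f n) inf) v < D / 16 ∧
      dist (τ (f n) (path 1)) v < D / 16) → 0 < r ∧ r ≤ 1 ∧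
      dist (τ (f n) (path r)) (τ (f n) (sg x)) = D / 4 := by
    intro n
    by_cases hn : dist (τ (f n) (sg x)) w < D / 16 ∧ dist (τ (f n) inf) v < D / 16 ∧
      dist (τ (f n) (path 1)) v < D / 16
    · have hcont : ContinuousOn (fun r : ℝ => dist (τ (f n) (path r)) (τ (f n) (sg x)))
          (Set.Icc 0 1) := (((h.cont (f n)).comp hpc).dist continuous_const).continuousOn
      have hiv := intermediate_value_Icc zero_le_one hcont
      have h1 : D / 4 ≤ dist (τ (f n) (path 1)) (τ (f n) (sg x)) := by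
        have t1 := dist_triangle_left v w (τ (f n) (path 1))
        have t2 := dist_triangle (τ (f n) (path 1)) (τ (f n) (sg x)) w
        linarith [hn.1, hn.2.2]
      obtain ⟨r, hr, hre⟩ := hiv (show D / 4 ∈ Set.Icc _ _ by
        refine ⟨?_, h1⟩
        simp only [hp0, dist_self]
        positivity)
      refine ⟨r, fun _ => ⟨?_, hr.2, hre⟩⟩
      refine lt_of_le_of_ne hr.1 ?_
      rintro rfl
      simp only [hp0, dist_self] at hre
      linarith
    · exact ⟨0, fun hh => absurd hh hn⟩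
  choose r hr using hex
  obtain ⟨n0, hn0⟩ := eventually_atTop.1 hgood
  have hrt : Tendsto (fun n => r (n + n0)) atTop (𝓝 0) := by
    rw [Metric.tendsto_nhds]
    intro δ hδ
    have hK : IsCompact (path '' Set.Icc (min δ 1) 1) := isCompact_Icc.image hpc
    have hxK : sg x ∉ path '' Set.Icc (min δ 1) 1 := by
      rintro ⟨r', hr', he⟩
      have : 0 < r' := (lt_min hδ one_pos).trans_le hr'.1
      exact hpne r' this.ne' he
    have h1 := hv _ hK hxK
    rw [Metric.tendstoUniformlyOn_iff] at h1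
    have h2 := (tendsto_add_atTop_nat n0).eventually (h1 (D / 16) (by positivity))
    filter_upwards [h2] with n hn
    have hg := hn0 (n + n0) (by omega)
    obtain ⟨r1, r2, r3⟩ := hr (n + n0) hg
    rw [Real.dist_eq, sub_zero, abs_of_pos r1]
    by_contra hcon
    push Not at hcon
    have h3 := hn (path (r (n + n0))) ⟨_, ⟨(min_le_left _ _).trans hcon, r2⟩, rfl⟩
    have t1 := dist_triangle v (τ (f (n + n0)) (path (r (n + n0)))) w
    have t2 := dist_triangle (τ (f (n + n0)) (path (r (n + n0)))) (τ (f (n + n0)) (sg x)) w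
    linarith [hg.1]
  refine ⟨fun n => r (n + n0), fun n => f (n + n0), D / 4, by positivity, fun n => ?_, hrt,
    fun n => ?_⟩
  · exact (hr (n + n0) (hn0 (n + n0) (by omega))).1
  · have hg := hn0 (n + n0) (by omega)
    obtain ⟨r1, r2, r3⟩ := hr (n + n0) hg
    have t1 := dist_triangle_left v w (τ (f (n + n0)) inf)
    have t2 := dist_triangle (τ (f (n + n0)) inf) (τ (f (n + n0)) (sg x)) w
    have t3 := dist_triangle (τ (f (n + n0)) inf) (τ (f (n + n0)) (path (r (n + n0))))
      (τ (f (n + n0)) (sg x))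
    refine ⟨?_, ?_, ?_⟩
    · rw [dist_comm]
      exact r3.ge
    · rw [dist_comm]
      linarith [hg.1, hg.2.1]
    · show D / 4 ≤ dist (τ (f (n + n0)) (path (r (n + n0)))) (τ (f (n + n0)) inf)
      rw [dist_comm]
      linarith [hg.1, hg.2.1]

end Pool.Agent.Y367.RC
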