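import Pool.Agent.Y367.RC.Dyn

/-!
# Transport of the hypotheses and of the conclusion by a homeomorphism
-/

set_option autoImplicit false
open Filter Topology

namespace Pool.Agent.Y367.RC

open Pool.Agent.Y320.CM hiding tau_inj cont_caseA exists_scale cont_caseB coord_of_point

variable {G : Type} [Group G] {τ : G → Sph → Sph}

theorem GeometricallyFinite.trans (h : GeometricallyFinite G τ) (E : Sph ≃ₜ Sph) :
    GeometricallyFinite G (fun g x => E (τ g (E.symm x))) where
  one x := by rw [h.one, E.apply_symm_apply]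
  mul g k x := by rw [h.mul, E.symm_apply_apply]
  cont g := E.continuous.comp ((h.cont g).comp E.symm.continuous)
  convergence f hf := by
    obtain ⟨k, hk, c, d, hcd⟩ := h.convergence f hf
    refine ⟨k, hk, E c, E d, fun K hK hd => ?_⟩
    have hK' : IsCompact (E.symm '' K) := hK.image E.symm.continuous
    have hd' : d ∉ E.symm '' K := by
      rintro ⟨y, hy, hyd⟩
      apply hd
      rw [← hyd, E.apply_symm_apply]
      exact hy
    have h1 := hcd _ hK' hd'
    rw [Metric.tendstoUniformlyOn_iff] at h1 ⊢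
    intro ε hε
    have huc : UniformContinuous E := CompactSpace.uniformContinuous_of_continuous E.continuous
    obtain ⟨δ, hδ, hEδ⟩ := Metric.uniformContinuous_iff.1 huc ε hε
    filter_upwards [h1 δ hδ] with n hn x hx
    exact hEδ (hn (E.symm x) ⟨x, hx, rfl⟩)
  nofix x := by
    obtain ⟨g, hg⟩ := h.nofix (E.symm x)
    exact ⟨g, fun hh => hg ((E.symm_apply_apply _).symm.trans (congrArg E.symm hh))⟩
  points x := by
    have hfix : ∀ g, E (τ g (E.symm x)) = x ↔ τ g (E.symm x) = E.symm x := fun g =>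
      ⟨fun hh => (E.symm_apply_apply _).symm.trans (congrArg E.symm hh),
        fun hh => by rw [hh, E.apply_symm_apply]⟩
    rcases h.points (E.symm x) with ⟨f, v, w, hf, hvw, hw, hv⟩ | ⟨⟨K, hK, hxK, hKP⟩, ⟨S, hS⟩, hvc⟩
    · refine Or.inl ⟨f, E v, E w, hf, E.injective.ne hvw, (E.continuous.tendsto w).comp hw, ?_⟩
      intro y hy
      exact (E.continuous.tendsto v).comp (hv (E.symm y) (E.symm.injective.ne hy))
    · refine Or.inr ⟨⟨E '' K, hK.image E.continuous, ?_, ?_⟩, ⟨S, fun g => ?_⟩, ?_⟩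
      · rintro ⟨y, hy, hyx⟩
        apply hxK
        rw [← hyx, E.symm_apply_apply]
        exact hy
      · intro y hy
        obtain ⟨g, hg1, hg2⟩ := hKP (E.symm y) (E.symm.injective.ne hy)
        exact ⟨g, (hfix g).2 hg1, τ g (E.symm y), hg2, rfl⟩
      · rw [hfix]
        exact hS g
      · rintro ⟨k, S', hk⟩
        exact hvc ⟨k, S', fun g hg => hk g ((hfix g).2 hg)⟩

theorem ConjugateToLattice.trans {E : Sph ≃ₜ Sph}
    (h : ConjugateToLattice G (fun g x => E (τ g (E.symm x)))) : ConjugateToLattice G τ := by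
  obtain ⟨F, ρ, h1, h2, h3, h4, h5⟩ := h
  refine ⟨E.trans F, ρ, h1, h2, h3, h4, fun g a => ?_⟩
  obtain ⟨s, hs, he⟩ := h5 g (E a)
  refine ⟨s, hs, ?_⟩
  simp only [Homeomorph.symm_apply_apply] at he
  exact he

end Pool.Agent.Y367.RC
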