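import Pool.Agent.Y367.RC.Dyn
import Pool.Agent.Y367.RC.PortE
import Pool.Agent.Y367.RC.PortR
import Pool.Agent.Y367.RC.CovC
import Pool.Agent.Y367.RC.Trans
import Pool.Agent.Y367.RC.Loc
import Pool.Agent.Y367.RC.St
import Pool.Agent.Y914.ST.Diff

/-!
# Relatively hyperbolic groups with asymptotically Moebius boundary sphere
-/

set_option autoImplicit false
open Filter Topology

namespace Pool.Agent.Y367.RC

open Pool.Agent.Y320.ST
open Pool.Agent.Y320.CM hiding tau_inj cont_caseA exists_scale cont_caseB coord_of_point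

variable {G : Type} [Group G] {τ : G → Sph → Sph}

/-- continuity at the conical points -/
theorem cont_conical (hA : RAct G τ) {F : Sph → Sph} (hF : Function.Injective F)
    (hI : Inv G τ F)
    (hsep : ∀ x y : Sph, x ≠ y → ∃ c : ℝ, 0 < c ∧ ∀ᶠ q in 𝓝 (x, y), c ≤ dist (F q.1) (F q.2))
    (x : Sph) (hx : Conical τ x) : ContinuousAt F x := by
  obtain ⟨𝓦, v, w, hvw, hw, hv⟩ := hx.ultra
  choose L hLt using fun a => exists_lim 𝓦 (fun g => F (τ g a))
  by_cases hd : ∃ a a', a ≠ x ∧ a' ≠ x ∧ a ≠ a' ∧ L a = L a'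
  · obtain ⟨a, a', ha, ha', haa, hLL⟩ := hd
    refine cont_caseA hA F hF hI hsep x 𝓦 v w hvw hw hv a a' ha ha' haa ?_
    have := (hLt a).dist (hLt a')
    rwa [hLL, dist_self] at this
  · exfalso
    push Not at hd
    exact cont_caseB Pool.Agent.Y73.CM.scale Pool.Agent.Y73.CM.lin hA F hF hI hsep x 𝓦 v w hw hv
      L hLt hd

theorem main_coord (h : GeometricallyFinite G τ) (U : Set Sph) (hU : IsOpen U)
    (hne : U.Nonempty) {ι : Type} (l : Filter ι) (ψ : ι → Sph → Sph) (hl : l.NeBot)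
    (hC : Coord G τ U l ψ) : ConjugateToLattice G τ := by
  have hA := h.ract
  obtain ⟨F, hF, hI, hB⟩ := ex (Pool.Agent.Y781.CM.lim Pool.Agent.Y587.CM.t_NORM) hA U hU hne
    l ψ hl hC
  have hsep := Pool.Agent.Y781.CM.sep F hF hB
  have hc : Continuous F := by
    rw [continuous_iff_continuousAt]
    intro x
    rcases h.points x with hx | hx
    · exact cont_conical hA hF hI hsep x hx
    · exact cont_parabolic hA h.ptwise hF hI hsep x hx
  have hsu : Function.Surjective F := Pool.Agent.Y438.CM.surj F hc hF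
  obtain ⟨ρ, s, h1, h2, h3⟩ := Pool.Agent.Y161.CM.RepA.main Pool.Agent.Y73.CM.scale
    Pool.Agent.Y73.CM.lin G τ hA.one hA.mul F ⟨hF, hsu⟩ hI
  obtain ⟨h4, h5⟩ := repB hA F hc ⟨hF, hsu⟩ ρ s h1 h2 h3
  have hR : Rep G τ F ρ s :=
    { cont := hc
      inj := hF
      surj := hsu
      pos := h1
      eq := h2
      form := h3
      hyp := h4
      prop := h5 }
  obtain ⟨T, L, Λ, hD⟩ := hR.exhaust hA h.ptwise h.points
  exact ⟨hc.homeoOfEquivCompactToT2 (f := Equiv.ofBijective F ⟨hF, hsu⟩), ρ, h3, h4, h5,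
    ⟨Dir ρ, dir_closed ρ, fun v hv => hv.1, dir_vol (Dir ρ) F T L Λ hD, hR.cover⟩,
    fun g a => ⟨s g a, h1 g a, h2 g a⟩⟩

/-- locally uniformly quasi-Moebius actions -/
theorem main_qm (h : GeometricallyFinite G τ) (U : Set Sph) (hQ : LocallyQuasiMoebius G τ U) :
    ConjugateToLattice G τ := by
  obtain ⟨F, hFc, hFi, N, hN, hFQ⟩ := exists_global h.ract U hQ
  obtain ⟨E, hE⟩ := exists_homeo F hFc hFi
  have h' := h.trans E
  have hS := Pool.Agent.Y692.ST.stb
  have hR := Pool.Agent.Y983.ST.s_rot hS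
  have hRR := Pool.Agent.Y983.ST.s_rotr hS
  have hEq := Pool.Agent.Y448.ST.eqc
  have hP := Pool.Agent.Y448.ST.sepq
  have hX := Pool.Agent.Y434.ST.t_EXT hS
  have hSq := Pool.Agent.Y434.ST.t_SQRT
  have hL := Pool.Agent.Y839.ST.s_limit hS hEq hP
  have hM := Pool.Agent.Y445.ST.mor Pool.Agent.Y51.ST2.t_FAT Pool.Agent.Y51.ST2.t_COUSIN
  have hD := Pool.Agent.Y914.ST.t_DIFF
  have hNZ := Pool.Agent.Y141.ST.nz hD hM
  have hG := Pool.Agent.Y708.ST.t_SGNS hS hR Pool.Agent.Y914.ST.t_SGN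
  have hC := Pool.Agent.Y925.ST.main hS hR hRR hL hM Pool.Agent.Y51.ST2.t_MORERA
    Pool.Agent.Y941.ST.aff Pool.Agent.Y302.ST.nearc
  obtain ⟨l, ψ, hl, hψ⟩ := st_rel hS hX hP hR hD hNZ Pool.Agent.Y100.ST.leb hSq hG hC h' N hN (by
    intro g a b c e hD t ht
    have hD' : D4 (E.symm a) (E.symm b) (E.symm c) (E.symm e) :=
      D4_inj hD E.symm E.symm.injective
    have := hFQ g _ _ _ _ hD' t (by
      rw [← hE, ← hE, ← hE, ← hE]
      simpa only [Homeomorph.apply_symm_apply] using ht)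
    simpa only [← hE] using this)
  exact (main_coord h' Set.univ isOpen_univ ⟨inf, trivial⟩ l ψ hl hψ).trans

theorem rep_of_lattice {F : Sph ≃ₜ Sph} {ρ : G →* Matrix (Fin 4) (Fin 4) ℝ} {s : G → Sph → ℝ}
    (hB : ∀ g v w, B (Matrix.mulVec (ρ g) v) (Matrix.mulVec (ρ g) w) = B v w)
    (hH : ∀ g : G, ∀ v ∈ Hyp, Matrix.mulVec (ρ g) v ∈ Hyp)
    (hP : ∀ K : Set V, IsCompact K → K ⊆ Hyp →
      Set.Finite {g : G | ∃ v ∈ K, Matrix.mulVec (ρ g) v ∈ K})
    (hs0 : ∀ g a, 0 < s g a)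
    (hs1 : ∀ g a, Matrix.mulVec (ρ g) (N (F a)) = s g a • N (F (τ g a))) :
    Rep G τ F ρ s :=
  { cont := F.continuous
    inj := F.injective
    surj := F.surjective
    pos := hs0
    eq := hs1
    form := hB
    hyp := hH
    prop := hP }

/-- the converse -/
theorem converse (h : GeometricallyFinite G τ) (hL : ConjugateToLattice G τ) :
    LocallyQuasiMoebius G τ Set.univ := by
  obtain ⟨F, ρ, hB, hH, hP, -, hs⟩ := hL
  choose s hs0 hs1 using hs
  have hR := rep_of_lattice hB hH hP hs0 hs1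
  refine ⟨isOpen_univ, ⟨inf, trivial⟩, F, fun t => t, F.continuous.continuousOn,
    F.injective.injOn, fun T hT => ⟨T, hT, le_refl _⟩, ?_⟩
  intro g a b c e _ _ _ _ hD _ _ _ _ t ht
  rw [hR.inv h.ract g a b c e hD]
  exact ht

theorem converse_ac (h : GeometricallyFinite G τ) (hL : ConjugateToLattice G τ) :
    AsymptoticCoordinates G τ Set.univ := by
  obtain ⟨F, ρ, hB, hH, hP, -, hs⟩ := hL
  choose s hs0 hs1 using hs
  have hR := rep_of_lattice hB hH hP hs0 hs1
  refine ⟨isOpen_univ, ⟨inf, trivial⟩, Unit, ⊤, fun _ => F, inferInstance, ?_, ?_⟩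
  · intro a b c e _ _ _ _ hD
    have hDF : D4 (F a) (F b) (F c) (F e) := D4_inj hD F F.injective
    have hc0 := cr_pos hDF
    set c0 := cr (F a) (F b) (F c) (F e) with hc0'
    have hlim : Tendsto (fun q : Sph × Sph × Sph × Sph => cr (F q.1) (F q.2.1)
        (F q.2.2.1) (F q.2.2.2)) (𝓝 (a, b, c, e)) (𝓝 c0) := by
      have hFc := F.continuous
      refine cr_tendsto hDF ?_ ?_ ?_ ?_
      · exact Continuous.tendsto (f := fun q : Sph × Sph × Sph × Sph => F q.1)
          (by fun_prop) (a, b, c, e)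
      · exact Continuous.tendsto (f := fun q : Sph × Sph × Sph × Sph => F q.2.1)
          (by fun_prop) (a, b, c, e)
      · exact Continuous.tendsto (f := fun q : Sph × Sph × Sph × Sph => F q.2.2.1)
          (by fun_prop) (a, b, c, e)
      · exact Continuous.tendsto (f := fun q : Sph × Sph × Sph × Sph => F q.2.2.2)
          (by fun_prop) (a, b, c, e)
    refine ⟨max (2 * c0) (2 / c0), lt_max_of_lt_left (by positivity), ?_⟩
    filter_upwards [hlim.eventually (eventually_gt_nhds (show c0 / 2 < c0 by linarith)),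
      hlim.eventually (eventually_lt_nhds (show c0 < 2 * c0 by linarith))] with q h1 h2
    refine Eventually.of_forall fun _ => ⟨?_, h2.le.trans (le_max_left _ _)⟩
    have h3 : (max (2 * c0) (2 / c0))⁻¹ ≤ (2 / c0)⁻¹ :=
      inv_anti₀ (by positivity) (le_max_right _ _)
    refine h3.trans ?_
    rw [inv_div]
    exact h1.le
  · intro g a b c e _ _ _ _ hD _ _ _ _
    have hne : cr (F a) (F b) (F c) (F e) ≠ 0 := (cr_pos (D4_inj hD F F.injective)).ne'
    have h1 : (fun _ : Unit => cr (F (τ g a)) (F (τ g b)) (F (τ g c)) (F (τ g e)) /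
        cr (F a) (F b) (F c) (F e)) = fun _ => 1 := by
      funext _
      rw [hR.inv h.ract g a b c e hD, div_self hne]
    rw [h1]
    exact tendsto_const_nhds

theorem main (h : GeometricallyFinite G τ) :
    ((∃ U, LocallyQuasiMoebius G τ U) ↔ ConjugateToLattice G τ) ∧
      ((∃ U, AsymptoticCoordinates G τ U) ↔ ConjugateToLattice G τ) := by
  refine ⟨⟨?_, fun hL => ⟨Set.univ, converse h hL⟩⟩, ⟨?_, fun hL => ⟨Set.univ, converse_ac h hL⟩⟩⟩
  · rintro ⟨U, hU⟩
    exact main_qm h U hU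
  · rintro ⟨U, hU, hne, ι, l, ψ, hl, hC⟩
    exact main_coord h U hU hne l ψ hl hC

end Pool.Agent.Y367.RC
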