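import Pool.Agent.Y367.RC.PortA

/-!
# Similarities around a fixed point
-/

set_option autoImplicit false
open Filter Topology

namespace Pool.Agent.Y367.RC

open Pool.Agent.Y320.CM hiding tau_inj cont_caseA exists_scale cont_caseB coord_of_point

/-- inversion in the image of `p` -/
noncomputable def Ev (F : Sph → Sph) (p a : Sph) : EuclideanSpace ℝ (Fin 3) :=
  EuclideanGeometry.inversion (F p).1 1 (F a).1

theorem Ev_dist {F : Sph → Sph} (hF : Function.Injective F) {p a b : Sph} (ha : a ≠ p)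
    (hb : b ≠ p) : dist (Ev F p a) (Ev F p b) =
      dist (F a) (F b) / (dist (F a) (F p) * dist (F b) (F p)) := by
  unfold Ev
  rw [EuclideanGeometry.dist_inversion_inversion (fun h => ha (hF (Subtype.ext h)))
    (fun h => hb (hF (Subtype.ext h)))]
  simp only [Subtype.dist_eq]
  ring

theorem Ev_center {F : Sph → Sph} (p a : Sph) :
    dist (Ev F p a) (F p).1 = 1 / dist (F a) (F p) := by
  unfold Ev
  rw [EuclideanGeometry.dist_inversion_center, one_pow, Subtype.dist_eq]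

theorem dist_le_Ev {F : Sph → Sph} (hF : Function.Injective F) {p a b : Sph} (ha : a ≠ p)
    (hb : b ≠ p) : dist (F a) (F b) ≤ 4 * dist (Ev F p a) (Ev F p b) := by
  rw [Ev_dist hF ha hb]
  have h1 : 0 < dist (F a) (F p) := dist_pos.2 fun h => ha (hF h)
  have h2 : 0 < dist (F b) (F p) := dist_pos.2 fun h => hb (hF h)
  have h3 := dist_le_two (F a) (F p)
  have h4 := dist_le_two (F b) (F p)
  have h5 : dist (F a) (F p) * dist (F b) (F p) ≤ 4 := by nlinarith
  rw [mul_div_assoc', le_div_iff₀ (by positivity), mul_comm]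
  exact mul_le_mul_of_nonneg_right h5 dist_nonneg

variable {G : Type} [Group G] {τ : G → Sph → Sph}

/-- the stabiliser of a point -/
def stab (hA : RAct G τ) (p : Sph) : Subgroup G where
  carrier := {g | τ g p = p}
  mul_mem' := by
    intro a b ha hb
    show τ (a * b) p = p
    rw [hA.mul, show τ b p = p from hb]
    exact ha
  one_mem' := hA.one p
  inv_mem' := by
    intro a ha
    show τ a⁻¹ p = p
    have h : τ a p = p := ha
    calc τ a⁻¹ p = τ a⁻¹ (τ a p) := by rw [h]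
      _ = p := by rw [← hA.mul, inv_mul_cancel, hA.one]

theorem stab_fix (hA : RAct G τ) (p : Sph) (g : stab hA p) : τ g.1 p = p := g.2

theorem stab_ne (hA : RAct G τ) {p a : Sph} (g : stab hA p) (ha : a ≠ p) : τ g.1 a ≠ p := by
  intro h
  exact ha (tau_inj hA.one hA.mul g.1 (h.trans (stab_fix hA p g).symm))

theorem ratio_of_scale (hA : RAct G τ) {F : Sph → Sph} (hF : Function.Injective F) (p : Sph)
    (g : stab hA p) (l : Sph → ℝ) (hl0 : ∀ a, 0 < l a)
    (hl : ∀ a b, a ≠ b → dist (F a) (F b) ^ 2 = l a * l b * dist (F (τ g.1 a)) (F (τ g.1 b)) ^ 2)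
    (a b : Sph) (ha : a ≠ p) (hb : b ≠ p) :
    dist (Ev F p (τ g.1 a)) (Ev F p (τ g.1 b)) = l p * dist (Ev F p a) (Ev F p b) := by
  by_cases hab : a = b
  · rw [hab, dist_self, dist_self, mul_zero]
  have hga := stab_ne hA g ha
  have hgb := stab_ne hA g hb
  have hgp : τ g.1 p = p := stab_fix hA p g
  rw [Ev_dist hF hga hgb, Ev_dist hF ha hb]
  have e1 := hl a b hab
  have e2 := hl a p ha
  have e3 := hl b p hb
  rw [hgp] at e2 e3
  have p1 := hl0 a
  have p2 := hl0 b
  have p3 := hl0 p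
  have d1 : 0 < dist (F a) (F p) := dist_pos.2 fun h => ha (hF h)
  have d2 : 0 < dist (F b) (F p) := dist_pos.2 fun h => hb (hF h)
  have d3 : 0 < dist (F (τ g.1 a)) (F p) := dist_pos.2 fun h => hga (hF h)
  have d4 : 0 < dist (F (τ g.1 b)) (F p) := dist_pos.2 fun h => hgb (hF h)
  have key : (dist (F (τ g.1 a)) (F (τ g.1 b)) /
      (dist (F (τ g.1 a)) (F p) * dist (F (τ g.1 b)) (F p))) ^ 2 =
      (l p * (dist (F a) (F b) / (dist (F a) (F p) * dist (F b) (F p)))) ^ 2 := by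
    rw [div_pow, mul_pow, mul_pow, div_pow, mul_pow, e1, e2, e3]
    field_simp
  exact (pow_left_inj₀ (by positivity) (by positivity) two_ne_zero).1 key

theorem exists_ratio (hA : RAct G τ) {F : Sph → Sph} (hF : Function.Injective F)
    (hI : Inv G τ F) (p : Sph) (g : stab hA p) :
    ∃ r : ℝ, 0 < r ∧ ∀ a b, a ≠ p → b ≠ p →
      dist (Ev F p (τ g.1 a)) (Ev F p (τ g.1 b)) = r * dist (Ev F p a) (Ev F p b) := by
  obtain ⟨l, hl0, hl⟩ := exists_scale Pool.Agent.Y73.CM.scale hA F hF hI g.1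
  exact ⟨l p, hl0 p, fun a b ha hb => ratio_of_scale hA hF p g l hl0 hl a b ha hb⟩

/-- the stretch factor as a homomorphism -/
theorem exists_hom (hA : RAct G τ) {F : Sph → Sph} (hF : Function.Injective F)
    (hI : Inv G τ F) (p : Sph) :
    ∃ R : stab hA p →* ℝ, (∀ g, 0 < R g) ∧ ∀ (g : stab hA p) (a b : Sph), a ≠ p → b ≠ p →
      dist (Ev F p (τ g.1 a)) (Ev F p (τ g.1 b)) = R g * dist (Ev F p a) (Ev F p b) := by
  choose r hr0 hr using exists_ratio hA hF hI p
  obtain ⟨a, b, ha, hb, hab⟩ : ∃ a b : Sph, a ≠ p ∧ b ≠ p ∧ a ≠ b := by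
    obtain ⟨y1, h1⟩ := exists_new {p}
    obtain ⟨y2, h2⟩ := exists_new {p, y1}
    simp only [Finset.mem_insert, Finset.mem_singleton, not_or] at h1 h2
    exact ⟨y1, y2, h1, h2.1, fun h => h2.2 h.symm⟩
  have hD : 0 < dist (Ev F p a) (Ev F p b) := by
    rw [Ev_dist hF ha hb]
    have d1 : 0 < dist (F a) (F p) := dist_pos.2 fun h => ha (hF h)
    have d2 : 0 < dist (F b) (F p) := dist_pos.2 fun h => hb (hF h)
    have d3 : 0 < dist (F a) (F b) := dist_pos.2 fun h => hab (hF h)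
    positivity
  refine ⟨{ toFun := r, map_one' := ?_, map_mul' := ?_ }, hr0, hr⟩
  · have h1 := hr 1 a b ha hb
    rw [OneMemClass.coe_one, hA.one, hA.one] at h1
    exact (mul_right_cancel₀ hD.ne' (h1.symm.trans (one_mul _).symm))
  · intro g h
    have h1 := hr (g * h) a b ha hb
    have h2 := hr g _ _ (stab_ne hA h ha) (stab_ne hA h hb)
    rw [hr h a b ha hb] at h2
    rw [MulMemClass.coe_mul, hA.mul, hA.mul, h2, ← mul_assoc] at h1
    exact (mul_right_cancel₀ hD.ne' h1).symm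

/-- few elements of the stabiliser with bounded displacement and stretch -/
theorem par_finite (hA : RAct G τ)
    (hconv : ∀ f : ℕ → G, Function.Injective f → ∃ k : ℕ → ℕ, StrictMono k ∧ ∃ c d : Sph,
      ∀ y, y ≠ d → Tendsto (fun n => τ (f (k n)) y) atTop (𝓝 c))
    {F : Sph → Sph} (hF : Function.Injective F)
    (hsep : ∀ x y : Sph, x ≠ y → ∃ c : ℝ, 0 < c ∧ ∀ᶠ q in 𝓝 (x, y), c ≤ dist (F q.1) (F q.2))
    (p : Sph) (R : stab hA p →* ℝ) (hR0 : ∀ g, 0 < R g)
    (hR : ∀ (g : stab hA p) (a b : Sph), a ≠ p → b ≠ p →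
      dist (Ev F p (τ g.1 a)) (Ev F p (τ g.1 b)) = R g * dist (Ev F p a) (Ev F p b))
    (o : Sph) (ho : o ≠ p) (C M : ℝ) (hC : 0 < C) (hM : 0 ≤ M) :
    {g : stab hA p | C⁻¹ ≤ R g ∧ R g ≤ C ∧ dist (Ev F p (τ g.1 o)) (Ev F p o) ≤ M}.Finite := by
  by_contra hinf
  have hinf' : {g : stab hA p | C⁻¹ ≤ R g ∧ R g ≤ C ∧
    dist (Ev F p (τ g.1 o)) (Ev F p o) ≤ M}.Infinite := hinf
  let f : ℕ → stab hA p := fun n => (hinf'.natEmbedding _ n : stab hA p)
  have hf : Function.Injective f := fun a b hab =>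
    (hinf'.natEmbedding _).injective (Subtype.ext hab)
  have hfT : ∀ n, C⁻¹ ≤ R (f n) ∧ R (f n) ≤ C ∧ dist (Ev F p (τ (f n).1 o)) (Ev F p o) ≤ M :=
    fun n => (hinf'.natEmbedding _ n).2
  -- three points
  obtain ⟨y, hyp, hyi⟩ : ∃ y : Fin 3 → Sph, (∀ i, y i ≠ p) ∧ Function.Injective y := by
    obtain ⟨y0, h0⟩ := exists_new {p}
    obtain ⟨y1, h1⟩ := exists_new {p, y0}
    obtain ⟨y2, h2⟩ := exists_new {p, y0, y1}
    simp only [Finset.mem_insert, Finset.mem_singleton, not_or] at h0 h1 h2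
    refine ⟨![y0, y1, y2], ?_, ?_⟩
    · intro i
      fin_cases i
      · exact h0
      · exact h1.1
      · exact h2.1
    · intro i j hij
      fin_cases i <;> fin_cases j <;> simp at hij ⊢
      · exact h1.2 hij.symm
      · exact h2.2.1 hij.symm
      · exact h1.2 hij
      · exact h2.2.2 hij.symm
      · exact h2.2.1 hij
      · exact h2.2.2 hij
  -- compactness
  set Bd : ℝ := C * (∑ i, dist (Ev F p (y i)) (Ev F p o)) + M with hBd
  have hBd0 : 0 ≤ Bd := by
    have : 0 ≤ ∑ i, dist (Ev F p (y i)) (Ev F p o) := Finset.sum_nonneg fun i _ => dist_nonneg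
    positivity
  let X : ℕ → Fin 3 → EuclideanSpace ℝ (Fin 3) := fun n i => Ev F p (τ (f n).1 (y i))
  have hX : ∀ n, X n ∈ Metric.closedBall (fun _ : Fin 3 => Ev F p o) Bd := by
    intro n
    rw [Metric.mem_closedBall, dist_pi_le_iff hBd0]
    intro i
    have h1 := dist_triangle (Ev F p (τ (f n).1 (y i))) (Ev F p (τ (f n).1 o)) (Ev F p o)
    rw [hR _ _ _ (hyp i) ho] at h1
    have h2 : dist (Ev F p (y i)) (Ev F p o) ≤ ∑ i, dist (Ev F p (y i)) (Ev F p o) :=
      Finset.single_le_sum (f := fun i => dist (Ev F p (y i)) (Ev F p o))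
        (fun i _ => dist_nonneg) (Finset.mem_univ i)
    have h3 : R (f n) * dist (Ev F p (y i)) (Ev F p o) ≤
        C * ∑ i, dist (Ev F p (y i)) (Ev F p o) :=
      mul_le_mul (hfT n).2.1 h2 dist_nonneg hC.le
    have h4 := (hfT n).2.2
    show dist (Ev F p (τ (f n).1 (y i))) (Ev F p o) ≤ Bd
    linarith
  obtain ⟨A, -, φ, hφ, hφt⟩ := tendsto_subseq_of_bounded Metric.isBounded_closedBall hX
  have hcau : CauchySeq (X ∘ φ) := hφt.cauchySeq
  -- many small elements
  have hT : ∀ ε : ℝ, 0 < ε →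
      {g : stab hA p | ∀ i, dist (Ev F p (τ g.1 (y i))) (Ev F p (y i)) < ε}.Infinite := by
    intro ε hε
    obtain ⟨n0, hn0⟩ := Metric.cauchySeq_iff'.1 hcau (ε / C) (by positivity)
    have hinj : Function.Injective (fun n : ℕ => (f (φ n0))⁻¹ * f (φ (n0 + n))) := by
      intro a b hab
      have h1 := mul_left_cancel hab
      have h2 := hφ.injective (hf h1)
      omega
    refine Set.infinite_of_injective_forall_mem hinj ?_
    intro n i
    have h1 := hn0 (n0 + n) (by omega)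
    have h2 := (dist_le_pi_dist ((X ∘ φ) (n0 + n)) ((X ∘ φ) n0) i).trans_lt h1
    have h3 : dist (Ev F p (τ (f (φ (n0 + n))).1 (y i))) (Ev F p (τ (f (φ n0)).1 (y i))) < ε / C :=
      h2
    have h4 := hR (f (φ n0))⁻¹ _ _ (stab_ne hA (f (φ (n0 + n))) (hyp i))
      (stab_ne hA (f (φ n0)) (hyp i))
    rw [InvMemClass.coe_inv, ← hA.mul, ← hA.mul, inv_mul_cancel, hA.one, map_inv] at h4
    show dist (Ev F p (τ ((f (φ n0))⁻¹ * f (φ (n0 + n))).1 (y i))) (Ev F p (y i)) < ε
    rw [MulMemClass.coe_mul, InvMemClass.coe_inv, h4]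
    have h5 := hfT (φ n0)
    have h6 : (R (f (φ n0)))⁻¹ ≤ C := inv_le_of_inv_le₀ hC h5.1
    have h7 : 0 < (R (f (φ n0)))⁻¹ := inv_pos.2 (hR0 _)
    calc (R (f (φ n0)))⁻¹ * _ < (R (f (φ n0)))⁻¹ * (ε / C) := mul_lt_mul_of_pos_left h3 h7
      _ ≤ C * (ε / C) := mul_le_mul_of_nonneg_right h6 (by positivity)
      _ = ε := by field_simp
  -- a diagonal sequence
  obtain ⟨s, hs1, hs2⟩ := exists_seq_of_forall_finset_exists
    (fun q : ℕ × stab hA p => ∀ i, dist (Ev F p (τ q.2.1 (y i))) (Ev F p (y i)) <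
      1 / ((q.1 : ℝ) + 1)) (fun q q' => q.1 < q'.1 ∧ q.2 ≠ q'.2) (by
      intro t _
      classical
      obtain ⟨m, hm⟩ : ∃ m : ℕ, ∀ q ∈ t, q.1 < m :=
        ⟨t.sup Prod.fst + 1, fun q hq => Nat.lt_succ_of_le (Finset.le_sup (f := Prod.fst) hq)⟩
      obtain ⟨g, hg, hg2⟩ := (hT (1 / ((m : ℝ) + 1)) (by positivity)).exists_notMem_finset
        (t.image Prod.snd)
      refine ⟨(m, g), hg, fun q hq => ⟨hm q hq, ?_⟩⟩
      intro h
      exact hg2 (Finset.mem_image.2 ⟨q, hq, h⟩))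
  have hsm : StrictMono fun n => (s n).1 := fun m n hmn => (hs2 m n hmn).1
  have hsi : Function.Injective fun n => ((s n).2 : G) := by
    intro m n hmn
    by_contra hne
    rcases lt_or_gt_of_ne hne with h | h
    · exact (hs2 m n h).2 (Subtype.ext hmn)
    · exact (hs2 n m h).2 (Subtype.ext hmn.symm)
  obtain ⟨k, hk, c, d, hcd⟩ := hconv _ hsi
  obtain ⟨i, hic, hid⟩ : ∃ i, y i ≠ c ∧ y i ≠ d := by
    by_contra hcon
    push Not at hcon
    by_cases h0 : y 0 = c
    · have h1 : y 1 = d := hcon 1 fun h => by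
        have := hyi (h0.trans h.symm)
        exact absurd this (by decide)
      have h2 : y 2 = d := hcon 2 fun h => by
        have := hyi (h0.trans h.symm)
        exact absurd this (by decide)
      exact absurd (hyi (h1.trans h2.symm)) (by decide)
    · have h0d := hcon 0 h0
      have h1 : y 1 = c := by
        by_contra h
        exact absurd (hyi (h0d.trans (hcon 1 h).symm)) (by decide)
      have h2 : y 2 = c := by
        by_contra h
        exact absurd (hyi (h0d.trans (hcon 2 h).symm)) (by decide)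
      exact absurd (hyi (h1.trans h2.symm)) (by decide)
  obtain ⟨e, he, hev⟩ := hsep c (y i) (Ne.symm hic)
  have h1 : Tendsto (fun n => (τ ((s (k n)).2 : G) (y i), y i)) atTop (𝓝 (c, y i)) :=
    (hcd (y i) hid).prodMk_nhds tendsto_const_nhds
  have h2 := h1.eventually hev
  have h3 : Tendsto (fun n => 4 * (1 / (((s (k n)).1 : ℝ) + 1))) atTop (𝓝 (4 * 0)) := by
    refine Tendsto.const_mul 4 ?_
    exact tendsto_one_div_add_atTop_nhds_zero_nat.comp (hsm.tendsto_atTop.comp hk.tendsto_atTop)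
  rw [mul_zero] at h3
  obtain ⟨n, hn1, hn2⟩ := (h2.and (h3.eventually (eventually_lt_nhds he))).exists
  have h4 := dist_le_Ev hF (stab_ne hA (s (k n)).2 (hyp i)) (hyp i)
  have h5 := hs1 (k n) i
  simp only at hn1
  linarith

end Pool.Agent.Y367.RC
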