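import Pool.Agent.Y367.RC.Act

/-!
# The steps of the closed case which do not use cocompactness on triples

The proofs of this file are those of `Pool.Agent.Y320.CM.Cont`, `Pool.Agent.Y320.CM.ContB`,
`Pool.Agent.Y872.CM.Ex`, `Pool.Agent.Y320.CM.AM` and `Pool.Agent.Y638.CM.RepB`, with `Act`
replaced by `RAct`.
-/

set_option autoImplicit false
open Filter Topology

namespace Pool.Agent.Y367.RC

open Pool.Agent.Y320.CM hiding tau_inj cont_caseA exists_scale cont_caseB coord_of_point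

/-- Case A of the continuity theorem: the limits along the conical sequence coincide. -/
theorem cont_caseA {G : Type} [Group G] {τ : G → Sph → Sph} (hA : RAct G τ) (F : Sph → Sph)
    (hF : Function.Injective F) (hI : Inv G τ F)
    (hsep : ∀ x y : Sph, x ≠ y → ∃ c : ℝ, 0 < c ∧ ∀ᶠ q in 𝓝 (x, y), c ≤ dist (F q.1) (F q.2))
    (x : Sph) (𝓦 : Ultrafilter G) (v w : Sph) (hvw : v ≠ w)
    (hw : Tendsto (fun g => τ g x) (𝓦 : Filter G) (𝓝 w))
    (hv : ∀ y, y ≠ x → Tendsto (fun g => τ g y) (𝓦 : Filter G) (𝓝 v))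
    (a a' : Sph) (ha : a ≠ x) (ha' : a' ≠ x) (haa : a ≠ a')
    (hl : Tendsto (fun g => dist (F (τ g a)) (F (τ g a'))) (𝓦 : Filter G) (𝓝 0)) :
    ContinuousAt F x := by
  by_contra hnc
  obtain ⟨δ, hδ, hfr⟩ : ∃ δ : ℝ, 0 < δ ∧ ∃ᶠ y in 𝓝 x, δ ≤ dist (F y) (F x) := by
    by_contra hcon
    push Not at hcon
    apply hnc
    rw [ContinuousAt, Metric.tendsto_nhds]
    intro ε hε
    have := hcon ε hε
    simpa only [Filter.not_frequently, not_le] using this
  obtain ⟨c, hc, hcv⟩ := hsep w v (Ne.symm hvw)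
  rw [nhds_prod_eq, Filter.eventually_prod_iff] at hcv
  obtain ⟨pw, hpw, pv, hpv, hcwv⟩ := hcv
  have hFa : 0 < dist (F a) (F a') := dist_pos.2 (fun h => haa (hF h))
  set η : ℝ := δ * dist (F a) (F a') * c ^ 2 / 8 with hη
  have hη0 : 0 < η := by positivity
  -- the key inequality for most `g`
  have key : ∀ᶠ g in (𝓦 : Filter G), η ≤ dist (F (τ g a)) (F (τ g a')) := by
    obtain ⟨W, hWsub, hWo, hwW⟩ := mem_nhds_iff.1 (show {p | pw p} ∈ 𝓝 w from hpw)
    filter_upwards [hw.eventually (hWo.mem_nhds hwW), (hv a ha).eventually hpv,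
      (hv a' ha').eventually hpv] with g h1 h2 h3
    -- choose y
    have e1 : ∀ᶠ y in 𝓝 x, τ g y ∈ W :=
      (hA.cont g).continuousAt.eventually (hWo.mem_nhds h1)
    have e2 : ∀ᶠ y in 𝓝 x, y ≠ a := isOpen_ne.mem_nhds (Ne.symm ha)
    have e3 : ∀ᶠ y in 𝓝 x, y ≠ a' := isOpen_ne.mem_nhds (Ne.symm ha')
    obtain ⟨y, hy, hyW, hya, hya'⟩ := (hfr.and_eventually (e1.and (e2.and e3))).exists
    have hyx : y ≠ x := by
      rintro rfl
      rw [dist_self] at hy
      linarith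
    have hD : D4 y x a a' := ⟨hyx, hya, hya', Ne.symm ha, Ne.symm ha', haa⟩
    have hcr := hI g y x a a' hD
    unfold cr at hcr
    have p1 : c ≤ dist (F (τ g y)) (F (τ g a)) := hcwv (hWsub hyW) h2
    have p2 : c ≤ dist (F (τ g x)) (F (τ g a')) := hcwv (hWsub h1) h3
    have q1 : 0 < dist (F y) (F a) := dist_pos.2 (fun h => hya (hF h))
    have q2 : 0 < dist (F x) (F a') := dist_pos.2 (fun h => (Ne.symm ha') (hF h))
    have r1 := dist_le_two (F y) (F a)
    have r2 := dist_le_two (F x) (F a')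
    have r3 := dist_le_two (F (τ g y)) (F (τ g x))
    have p10 : 0 < dist (F (τ g y)) (F (τ g a)) := lt_of_lt_of_le hc p1
    have p20 : 0 < dist (F (τ g x)) (F (τ g a')) := lt_of_lt_of_le hc p2
    rw [div_eq_div_iff (by positivity) (by positivity)] at hcr
    -- dist(Fgy,Fgx) dist(Fga,Fga') * (dist(Fy,Fa) dist(Fx,Fa')) = dist(Fy,Fx) dist(Fa,Fa') * (..)
    have L1 : dist (F (τ g y)) (F (τ g x)) * dist (F (τ g a)) (F (τ g a')) *
        (dist (F y) (F a) * dist (F x) (F a')) ≤ 8 * dist (F (τ g a)) (F (τ g a')) := by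
      have z : 0 ≤ dist (F (τ g a)) (F (τ g a')) := dist_nonneg
      have z2 : dist (F y) (F a) * dist (F x) (F a') ≤ 2 * 2 :=
        mul_le_mul r1 r2 dist_nonneg (by norm_num)
      have z3 : dist (F (τ g y)) (F (τ g x)) * (dist (F y) (F a) * dist (F x) (F a')) ≤ 2 * (2 * 2) :=
        mul_le_mul r3 z2 (by positivity) (by norm_num)
      calc _ = (dist (F (τ g y)) (F (τ g x)) * (dist (F y) (F a) * dist (F x) (F a'))) *
            dist (F (τ g a)) (F (τ g a')) := by ring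
        _ ≤ (2 * (2 * 2)) * dist (F (τ g a)) (F (τ g a')) := mul_le_mul_of_nonneg_right z3 z
        _ = _ := by ring
    have L2 : δ * dist (F a) (F a') * c ^ 2 ≤ dist (F y) (F x) * dist (F a) (F a') *
        (dist (F (τ g y)) (F (τ g a)) * dist (F (τ g x)) (F (τ g a'))) := by
      have z2 : c * c ≤ dist (F (τ g y)) (F (τ g a)) * dist (F (τ g x)) (F (τ g a')) :=
        mul_le_mul p1 p2 hc.le p10.le
      have z1 : δ * dist (F a) (F a') ≤ dist (F y) (F x) * dist (F a) (F a') :=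
        mul_le_mul_of_nonneg_right hy hFa.le
      calc δ * dist (F a) (F a') * c ^ 2 = (δ * dist (F a) (F a')) * (c * c) := by ring
        _ ≤ _ := mul_le_mul z1 z2 (by positivity) (by positivity)
    rw [hη]
    linarith
  have := le_of_tendsto_of_tendsto (tendsto_const_nhds (x := η)) hl key
  linarith


/-- the scaling function of a group element -/
theorem exists_scale (hS : S_SCALE) {G : Type} [Group G] {τ : G → Sph → Sph} (hA : RAct G τ)
    (F : Sph → Sph) (hF : Function.Injective F) (hI : Inv G τ F) (g : G) :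
    ∃ l : Sph → ℝ, (∀ a, 0 < l a) ∧
      ∀ a b, a ≠ b → dist (F a) (F b) ^ 2 = l a * l b * dist (F (τ g a)) (F (τ g b)) ^ 2 := by
  refine hS Sph (fun a b => dist (F a) (F b) ^ 2) (fun a b => dist (F (τ g a)) (F (τ g b)) ^ 2)
    (fun a b => by simp only [dist_comm]) (fun a b => by simp only [dist_comm]) ?_ ?_ ?_
  · intro a b hab
    have : 0 < dist (F a) (F b) := dist_pos.2 (fun h => hab (hF h))
    positivity
  · intro a b hab
    have : 0 < dist (F (τ g a)) (F (τ g b)) :=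
      dist_pos.2 (fun h => hab (tau_inj hA.one hA.mul g (hF h)))
    positivity
  · intro a b c e hD
    have h := hI g a b c e hD
    unfold cr at h
    have h2 := congrArg (fun t : ℝ => t ^ 2) h.symm
    simpa only [div_pow, mul_pow] using h2


/-- limits of linear maps determined by null vectors -/
theorem lin_core (hL : S_LIN) {Y ι : Type} (𝓦 : Ultrafilter ι) (n : Y → V) (n' : ι → Y → V)
    (n0 : Y → V) (hnt : ∀ a, Tendsto (fun g => n' g a) (𝓦 : Filter ι) (𝓝 (n0 a)))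
    (gram : ∀ g a b, B (n' g a) (n' g b) = B (n a) (n b))
    (hnd : ∀ g, ∀ w ∈ Submodule.span ℝ (Set.range (n' g)), (∀ a, B w (n' g a) = 0) → w = 0) :
    ∃ M0 : V →ₗ[ℝ] V, (∀ a, M0 (n a) = n0 a) ∧ (∀ a b, B (n0 a) (n0 b) = B (n a) (n b)) ∧
      ∀ (y : ι → Y) (u : ι → V) (u0 : V), Tendsto u (𝓦 : Filter ι) (𝓝 u0) →
        (∀ᶠ k in (𝓦 : Filter ι), u k = n (y k)) →
        Tendsto (fun k => n' k (y k)) (𝓦 : Filter ι) (𝓝 (M0 u0)) := by
  obtain ⟨S, -, hS2⟩ := hL Y n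
  have hM : ∀ g (a : Y), Finsupp.linearCombination ℝ (n' g) (S (n a)) = n' g a := fun g =>
    hS2 (n' g) (gram g) (hnd g)
  refine ⟨(Finsupp.linearCombination ℝ n0).comp S, ?_, ?_, ?_⟩
  · intro a
    have h1 : Tendsto (fun g => Finsupp.linearCombination ℝ (n' g) (S (n a))) (𝓦 : Filter ι)
        (𝓝 (Finsupp.linearCombination ℝ n0 (S (n a)))) := lin_tendsto _ n' n0 hnt _
    have h2 : Tendsto (fun g => Finsupp.linearCombination ℝ (n' g) (S (n a))) (𝓦 : Filter ι)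
        (𝓝 (n0 a)) := by
      simp only [hM]; exact hnt a
    exact tendsto_nhds_unique h1 h2
  · intro a b
    have h1 : Tendsto (fun g => B (n' g a) (n' g b)) (𝓦 : Filter ι) (𝓝 (B (n0 a) (n0 b))) :=
      (continuous_B.tendsto (n0 a, n0 b)).comp ((hnt a).prodMk_nhds (hnt b))
    have h2 : Tendsto (fun g => B (n' g a) (n' g b)) (𝓦 : Filter ι) (𝓝 (B (n a) (n b))) := by
      simp only [gram]; exact tendsto_const_nhds
    exact tendsto_nhds_unique h1 h2
  · intro y u u0 hu hy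
    have h1 : Tendsto (fun k => Finsupp.linearCombination ℝ (n' k) (S (u k)))
        (𝓦 : Filter ι) (𝓝 (Finsupp.linearCombination ℝ n0 (S u0))) :=
      lin_tendsto' _ n' n0 hnt S _ _ hu
    have h2 : (fun k => Finsupp.linearCombination ℝ (n' k) (S (u k))) =ᶠ[(𝓦 : Filter ι)]
        fun k => n' k (y k) := by
      filter_upwards [hy] with k hk
      rw [hk, hM]
    exact h1.congr' h2

/-- the final step of case B, abstractly -/
theorem caseB_core {ι : Type} (𝓦 : Ultrafilter ι) (M0 : V →ₗ[ℝ] V) (u : ι → V) (lam ell : ι → ℝ)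
    (q : ι → Sph) (p s b : Sph) (c : ℝ) (hc : 0 < c) (hsb : s ≠ b)
    (hu : Tendsto u (𝓦 : Filter ι) (𝓝 (N s)))
    (h4 : Tendsto (fun k => lam k • N p) (𝓦 : Filter ι) (𝓝 (M0 (N s))))
    (hlam : ∀ k, 0 < lam k)
    (hev : ∀ᶠ k in (𝓦 : Filter ι), M0 (u k) = ell k • N (q k) ∧ 0 < ell k ∧ c ≤ dist (q k) p ∧
      B (M0 (u k)) (M0 (N b)) = B (u k) (N b)) : False := by
  have hM0c : Continuous M0 := LinearMap.continuous_of_finiteDimensional M0
  obtain ⟨U, hU⟩ : ∃ U, U = M0 (N s) := ⟨_, rfl⟩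
  rw [← hU] at h4
  have h5 : Tendsto (fun k => M0 (u k)) (𝓦 : Filter ι) (𝓝 U) := by
    rw [hU]
    exact (hM0c.tendsto _).comp hu
  have h40 : Tendsto (fun k => lam k) (𝓦 : Filter ι) (𝓝 (U 0)) := by
    have := (tendsto_pi_nhds.1 h4) 0
    simpa [N_zero] using this
  have hUN : U = U 0 • N p := tendsto_nhds_unique h4 (h40.smul_const _)
  have hU0 : 0 ≤ U 0 := ge_of_tendsto h40 (Eventually.of_forall fun k => (hlam k).le)
  have hBU : B U (M0 (N b)) = B (N s) (N b) := by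
    have h1 : Tendsto (fun k => B (M0 (u k)) (M0 (N b))) (𝓦 : Filter ι)
        (𝓝 (B U (M0 (N b)))) :=
      (continuous_B.tendsto (U, M0 (N b))).comp (h5.prodMk_nhds tendsto_const_nhds)
    have h2 : Tendsto (fun k => B (u k) (N b)) (𝓦 : Filter ι) (𝓝 (B (N s) (N b))) :=
      (continuous_B.tendsto (N s, N b)).comp (hu.prodMk_nhds tendsto_const_nhds)
    have h3 : (fun k => B (u k) (N b)) =ᶠ[(𝓦 : Filter ι)] fun k => B (M0 (u k)) (M0 (N b)) := by
      filter_upwards [hev] with k hk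
      exact hk.2.2.2.symm
    exact tendsto_nhds_unique h1 (h2.congr' h3)
  have hU1 : 0 < U 0 := by
    rcases hU0.lt_or_eq with h | h
    · exact h
    · exfalso
      rw [hUN, ← h, zero_smul, BN] at hBU
      have hd : 0 < dist s b := dist_pos.2 hsb
      have : B 0 (M0 (N b)) = 0 := by simp [B]
      rw [this] at hBU
      nlinarith
  have h6 : Tendsto (fun k => B (M0 (u k)) (N p)) (𝓦 : Filter ι) (𝓝 0) := by
    have h1 : Tendsto (fun k => B (M0 (u k)) (N p)) (𝓦 : Filter ι) (𝓝 (B U (N p))) :=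
      (continuous_B.tendsto (U, N p)).comp (h5.prodMk_nhds tendsto_const_nhds)
    have e : B U (N p) = 0 := by
      rw [hUN, B_smul_left, BN, dist_self]; ring
    rwa [e] at h1
  have h7 : Tendsto (fun k => (M0 (u k)) 0) (𝓦 : Filter ι) (𝓝 (U 0)) :=
    (tendsto_pi_nhds.1 h5) 0
  have h8 : ∀ᶠ k in (𝓦 : Filter ι), (M0 (u k)) 0 * (c ^ 2 / 2) ≤ - B (M0 (u k)) (N p) := by
    filter_upwards [hev] with k hk
    obtain ⟨e1, pp, q1, -⟩ := hk
    rw [e1, B_smul_left, BN]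
    have e3 : (ell k • N (q k)) 0 = ell k := by
      simp [N_zero]
    rw [e3]
    have q2 : c ^ 2 ≤ dist (q k) p ^ 2 := pow_le_pow_left₀ hc.le q1 2
    nlinarith
  have h9 := le_of_tendsto_of_tendsto (h7.mul_const (c ^ 2 / 2)) h6.neg h8
  have : 0 < U 0 * (c ^ 2 / 2) := by positivity
  linarith

/-- Case B: the limits along the conical sequence are injective, which is impossible. -/
theorem cont_caseB (hS : S_SCALE) (hL : S_LIN) {G : Type} [Group G] {τ : G → Sph → Sph}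
    (hA : RAct G τ) (F : Sph → Sph)
    (hF : Function.Injective F) (hI : Inv G τ F)
    (hsep : ∀ x y : Sph, x ≠ y → ∃ c : ℝ, 0 < c ∧ ∀ᶠ q in 𝓝 (x, y), c ≤ dist (F q.1) (F q.2))
    (x : Sph) (𝓦 : Ultrafilter G) (v w : Sph)
    (hw : Tendsto (fun g => τ g x) (𝓦 : Filter G) (𝓝 w))
    (hv : ∀ y, y ≠ x → Tendsto (fun g => τ g y) (𝓦 : Filter G) (𝓝 v))
    (L : Sph → Sph) (hLt : ∀ a, Tendsto (fun g => F (τ g a)) (𝓦 : Filter G) (𝓝 (L a)))
    (hLi : ∀ a a', a ≠ x → a' ≠ x → a ≠ a' → L a ≠ L a') : False := by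
  choose l hl0 hl using fun g => exists_scale hS hA F hF hI g
  -- limits of the scaling functions
  have hr : ∀ a b, a ≠ x → b ≠ x → a ≠ b → ∃ r : ℝ, 0 < r ∧
      Tendsto (fun g => l g a * l g b) (𝓦 : Filter G) (𝓝 r) := by
    intro a b ha hb hab
    have hd : 0 < dist (L a) (L b) := dist_pos.2 (hLi a b ha hb hab)
    have hd' : 0 < dist (F a) (F b) := dist_pos.2 (fun h => hab (hF h))
    refine ⟨dist (F a) (F b) ^ 2 / dist (L a) (L b) ^ 2, by positivity, ?_⟩
    have e : ∀ g, l g a * l g b = dist (F a) (F b) ^ 2 / dist (F (τ g a)) (F (τ g b)) ^ 2 := by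
      intro g
      have hp : 0 < dist (F (τ g a)) (F (τ g b)) :=
        dist_pos.2 (fun h => hab (tau_inj hA.one hA.mul g (hF h)))
      rw [hl g a b hab, mul_div_assoc, div_self (by positivity), mul_one]
    simp only [e]
    refine Tendsto.div tendsto_const_nhds ?_ (by positivity)
    exact ((hLt a).dist (hLt b)).pow 2
  have hlim : ∀ a, ∃ r : ℝ, a ≠ x → 0 < r ∧ Tendsto (fun g => l g a) (𝓦 : Filter G) (𝓝 r) := by
    intro a
    by_cases ha : a = x
    · exact ⟨0, fun h => absurd ha h⟩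
    obtain ⟨b, hb⟩ := exists_new {a, x}
    obtain ⟨c, hc⟩ := exists_new {a, x, b}
    simp only [Finset.mem_insert, Finset.mem_singleton, not_or] at hb hc
    obtain ⟨r1, h1, t1⟩ := hr a b ha hb.2 (Ne.symm hb.1)
    obtain ⟨r2, h2, t2⟩ := hr a c ha hc.2.1 (Ne.symm hc.1)
    obtain ⟨r3, h3, t3⟩ := hr b c hb.2 hc.2.1 (Ne.symm hc.2.2)
    refine ⟨√(r1 * r2 / r3), fun _ => ⟨by positivity, ?_⟩⟩
    have e : ∀ g, l g a = √((l g a * l g b) * (l g a * l g c) / (l g b * l g c)) := by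
      intro g
      have p1 := hl0 g a
      have p2 := hl0 g b
      have p3 := hl0 g c
      have : (l g a * l g b) * (l g a * l g c) / (l g b * l g c) = l g a ^ 2 := by
        field_simp
      rw [this, Real.sqrt_sq p1.le]
    have := ((t1.mul t2).div t3 h3.ne').sqrt
    refine this.congr fun g => ?_
    exact (e g).symm
  choose ℓ hℓ using hlim
  obtain ⟨ya, hya⟩ := exists_new {x}
  obtain ⟨yb, hyb⟩ := exists_new {x, ya}
  simp only [Finset.mem_insert, Finset.mem_singleton, not_or] at hya hyb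
  obtain ⟨M0, hM0, hgr, hMt⟩ := lin_core hL (Y := {y : Sph // y ≠ x}) 𝓦 (fun a => N (F a.1))
    (fun g a => l g a.1 • N (F (τ g a.1))) (fun a => ℓ a.1 • N (L a.1))
    (fun a => (hℓ a.1 a.2).2.smul ((continuous_N.tendsto _).comp (hLt a.1)))
    (fun g a b => by
      rw [B_smul_left, B_smul_right, BN, BN]
      by_cases hab : a.1 = b.1
      · rw [hab, dist_self, dist_self]; ring
      · have := hl g a.1 b.1 hab
        rw [this]; ring)
    (fun g => span_nondeg _ (fun a : {y : Sph // y ≠ x} => F (τ g a.1))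
      (fun a : {y : Sph // y ≠ x} => l g a.1)
      (fun a => (hl0 g a.1).ne') (fun a => rfl) ⟨ya, hya⟩ ⟨yb, hyb.1⟩
      (fun h => hyb.2 (tau_inj hA.one hA.mul g (hF h)).symm))
  -- the point y0
  obtain ⟨y0, hy0⟩ := exists_new {v, w}
  simp only [Finset.mem_insert, Finset.mem_singleton, not_or] at hy0
  obtain ⟨c, hc, hcv⟩ := hsep v y0 (Ne.symm hy0.1)
  have hLy : ∀ a : Sph, a ≠ x → c ≤ dist (L a) (F y0) := by
    intro a ha
    have h1 : Tendsto (fun g => (τ g a, y0)) (𝓦 : Filter G) (𝓝 (v, y0)) :=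
      (hv a ha).prodMk_nhds tendsto_const_nhds
    have h2 := h1.eventually hcv
    exact ge_of_tendsto ((hLt a).dist tendsto_const_nhds) h2
  have hne : ∀ᶠ k in (𝓦 : Filter G), τ k⁻¹ y0 ≠ x := by
    have : ∀ᶠ k in (𝓦 : Filter G), τ k x ≠ y0 :=
      hw.eventually (isOpen_ne.mem_nhds (Ne.symm hy0.2))
    filter_upwards [this] with k hk h
    apply hk
    rw [← h, ← hA.mul, mul_inv_cancel, hA.one]
  obtain ⟨s, hs⟩ := exists_lim 𝓦 (fun k => F (τ k⁻¹ y0))
  have hNs : Tendsto (fun k => N (F (τ k⁻¹ y0))) (𝓦 : Filter G) (𝓝 (N s)) :=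
    (continuous_N.tendsto _).comp hs
  classical
  let yy : G → {y : Sph // y ≠ x} := fun k =>
    if h : τ k⁻¹ y0 ≠ x then ⟨τ k⁻¹ y0, h⟩ else ⟨ya, hya⟩
  have hyy : ∀ k, τ k⁻¹ y0 ≠ x → (yy k).1 = τ k⁻¹ y0 := by
    intro k hk
    simp only [yy, hk, ne_eq, not_false_eq_true, dite_true]
  have h4 : Tendsto (fun k => l k (τ k⁻¹ y0) • N (F y0)) (𝓦 : Filter G) (𝓝 (M0 (N s))) := by
    have h1 := hMt yy (fun k => N (F (τ k⁻¹ y0))) (N s) hNs (by
      filter_upwards [hne] with k hk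
      rw [hyy k hk])
    refine h1.congr' ?_
    filter_upwards [hne] with k hk
    rw [hyy k hk, ← hA.mul, mul_inv_cancel, hA.one]
  obtain ⟨b, hbx, hbs⟩ : ∃ b : Sph, b ≠ x ∧ F b ≠ s := by
    by_contra hcon
    push Not at hcon
    exact hyb.2 (hF ((hcon yb hyb.1).trans (hcon ya hya).symm))
  refine caseB_core 𝓦 M0 (fun k => N (F (τ k⁻¹ y0))) (fun k => l k (τ k⁻¹ y0))
    (fun k => ℓ (τ k⁻¹ y0)) (fun k => L (τ k⁻¹ y0)) (F y0) s (F b) c hc (Ne.symm hbs) hNs h4
    (fun k => hl0 k _) ?_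
  filter_upwards [hne] with k hk
  refine ⟨hM0 ⟨τ k⁻¹ y0, hk⟩, (hℓ _ hk).1, hLy _ hk, ?_⟩
  have e1 : M0 (N (F (τ k⁻¹ y0))) = ℓ (τ k⁻¹ y0) • N (L (τ k⁻¹ y0)) := hM0 ⟨τ k⁻¹ y0, hk⟩
  have e2 : M0 (N (F b)) = ℓ b • N (L b) := hM0 ⟨b, hbx⟩
  rw [e1, e2]
  exact hgr ⟨τ k⁻¹ y0, hk⟩ ⟨b, hbx⟩

end Pool.Agent.Y367.RC
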